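import Pool.Agent.Lib.MP_d47d4c_co.TC.TriBasic

set_option autoImplicit false

namespace Pool.TC

open Metric Set MeasureTheory
open scoped Pointwise

theorem ball_area {x : ℂ} {r : ℝ} (hr : 0 ≤ r) : volume.real (ball x r) = Real.pi * r ^ 2 := by
  rw [Measure.real, Complex.volume_ball, ENNReal.toReal_mul, ENNReal.toReal_pow, ENNReal.toReal_ofReal hr]
  simp [mul_comm]

/-- translation to the origin -/
theorem area_translate (A : Set ℂ) (x : ℂ) (r : ℝ) :
    volume.real (A ∩ ball x r) = volume.real ({y | x + y ∈ A} ∩ ball 0 r) := by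
  rw [Measure.real, Measure.real, ← measure_preimage_add volume x (A ∩ ball x r)]
  congr 2
  ext y
  simp [mem_ball, dist_eq_norm]

/-- scaling of a cone -/
theorem area_scale {A : Set ℂ} (hA : ∀ y : ℂ, ∀ t : ℝ, 0 < t → (t • y ∈ A ↔ y ∈ A)) {r : ℝ} (hr : 0 < r) :
    volume.real (A ∩ ball 0 r) = r ^ 2 * volume.real (A ∩ ball 0 1) := by
  have h1 : A ∩ ball 0 r = r • (A ∩ ball 0 1) := by
    ext y
    rw [Set.mem_smul_set_iff_inv_smul_mem₀ hr.ne']
    constructor
    · rintro ⟨h1, h2⟩
      refine ⟨(hA y r⁻¹ (inv_pos.mpr hr)).mpr h1, ?_⟩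
      rw [mem_ball_zero_iff] at h2 ⊢
      rw [norm_smul, norm_inv, Real.norm_eq_abs, abs_of_pos hr, inv_mul_lt_iff₀ hr]
      simpa using h2
    · rintro ⟨h1, h2⟩
      refine ⟨(hA y r⁻¹ (inv_pos.mpr hr)).mp h1, ?_⟩
      rw [mem_ball_zero_iff] at h2 ⊢
      rw [norm_smul, norm_inv, Real.norm_eq_abs, abs_of_pos hr, inv_mul_lt_iff₀ hr] at h2
      simpa using h2
  rw [h1, Measure.real, Measure.addHaar_smul_of_nonneg volume hr.le, Complex.finrank_real_complex,
    ENNReal.toReal_mul, ENNReal.toReal_ofReal (by positivity), ← Measure.real]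

theorem null_ker {φ : ℂ →ₗ[ℝ] ℝ} (h : φ ≠ 0) : volume {z : ℂ | φ z = 0} = 0 := by
  have h1 : (LinearMap.ker φ) ≠ ⊤ := by
    intro hh
    exact h (LinearMap.ker_eq_top.mp hh)
  exact Measure.addHaar_submodule volume (LinearMap.ker φ) h1

theorem meas_nonneg (φ : ℂ →ₗ[ℝ] ℝ) : MeasurableSet {z : ℂ | 0 ≤ φ z} :=
  measurableSet_le measurable_const φ.continuous_of_finiteDimensional.measurable

/-- a half disc -/
theorem half_disc {φ : ℂ →ₗ[ℝ] ℝ} (h : φ ≠ 0) {r : ℝ} (hr : 0 ≤ r) :
    volume.real ({z : ℂ | 0 ≤ φ z} ∩ ball 0 r) = Real.pi * r ^ 2 / 2 := by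
  set S : Set ℂ := {z : ℂ | 0 ≤ φ z} ∩ ball 0 r with hS
  have hm : MeasurableSet S := (meas_nonneg φ).inter measurableSet_ball
  have h1 : S ∪ -S = ball 0 r := by
    ext z
    simp only [hS, mem_union, mem_inter_iff, mem_ofPred_eq, Set.mem_neg, map_neg, mem_ball_zero_iff, norm_neg]
    constructor
    · rintro (h | h)
      · exact h.2
      · exact h.2
    · intro hz
      rcases le_total 0 (φ z) with h0 | h0
      · exact Or.inl ⟨h0, hz⟩
      · exact Or.inr ⟨by linarith, hz⟩
  have h2 : volume.real (-S) = volume.real S := by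
    rw [Measure.real, Measure.real, Measure.measure_neg]
  have h3 : volume.real (S ∩ -S) = 0 := by
    rw [Measure.real]
    have : volume (S ∩ -S) = 0 := by
      refine measure_mono_null ?_ (null_ker h)
      intro z hz
      have ha : 0 ≤ φ z := hz.1.1
      have hb : 0 ≤ φ (-z) := hz.2.1
      rw [map_neg] at hb
      exact le_antisymm (by linarith) ha
    rw [this]; rfl
  have h4 := measureReal_union_add_inter (μ := volume) (s := S) (t := -S) hm.neg
    (by refine (lt_of_le_of_lt (measure_mono inter_subset_right) measure_ball_lt_top).ne)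
    (by
      rw [Measure.measure_neg]
      exact (lt_of_le_of_lt (measure_mono inter_subset_right) measure_ball_lt_top).ne)
  rw [h1, h2, h3, ball_area hr] at h4
  linarith

/-- positive area near every point of a triangle -/
theorem pos_area {p : Fin 3 → ℂ} (h : AffineIndependent ℝ p) {z : ℂ} (hz : z ∈ tri p) {r : ℝ} (hr : 0 < r) :
    0 < volume.real (tri p ∩ ball z r) := by
  have h1 : (interior (tri p) ∩ ball z r).Nonempty := by
    rw [← tri_closure_interior h] at hz
    obtain ⟨y, hy1, hy2⟩ := mem_closure_iff.mp hz (ball z r) isOpen_ball (mem_ball_self hr)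
    exact ⟨y, hy2, hy1⟩
  have h2 : 0 < volume (interior (tri p) ∩ ball z r) := (isOpen_interior.inter isOpen_ball).measure_pos volume h1
  have h3 : volume (tri p ∩ ball z r) ≠ ⊤ := (lt_of_le_of_lt (measure_mono inter_subset_right) measure_ball_lt_top).ne
  rw [Measure.real]
  exact ENNReal.toReal_pos (lt_of_lt_of_le h2 (measure_mono (inter_subset_inter_left _ interior_subset))).ne' h3

/-- near a point `z` of the triangle only the coordinates vanishing at `z` matter -/
theorem local_cone {p : Fin 3 → ℂ} {b : AffineBasis (Fin 3) ℝ ℂ} (ht : tri p = {z | ∀ m, 0 ≤ b.coord m z}) {z : ℂ}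
    (hz : z ∈ tri p) : ∃ r0 > 0, ∀ r, 0 < r → r < r0 →
      volume.real (tri p ∩ ball z r) = volume.real ({y | ∀ m, b.coord m z = 0 → 0 ≤ (b.coord m).linear y} ∩ ball 0 r) := by
  have hpos : ∀ m, b.coord m z ≠ 0 → ∃ s > 0, ∀ y ∈ ball z s, 0 < b.coord m y := by
    intro m hm
    have h0 : 0 < b.coord m z := by
      rw [ht] at hz
      exact lt_of_le_of_ne (hz m) (Ne.symm hm)
    have hc : Continuous (b.coord m) := (b.coord m).continuous_of_finiteDimensional
    obtain ⟨s, hs, hs2⟩ := Metric.isOpen_iff.mp (isOpen_lt continuous_const hc) z h0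
    exact ⟨s, hs, fun y hy => hs2 hy⟩
  have hpos' : ∀ m, ∃ s > 0, b.coord m z ≠ 0 → ∀ y ∈ ball z s, 0 < b.coord m y := by
    intro m
    by_cases hm : b.coord m z = 0
    · exact ⟨1, one_pos, fun h => absurd hm h⟩
    · obtain ⟨s, hs, h⟩ := hpos m hm
      exact ⟨s, hs, fun _ => h⟩
  choose s hs hs2 using hpos'
  refine ⟨min (s 0) (min (s 1) (s 2)), lt_min (hs 0) (lt_min (hs 1) (hs 2)), fun r hr hrs => ?_⟩
  have hrm : ∀ m, r < s m := by
    intro m
    have h1 := lt_of_lt_of_le hrs (min_le_left _ _)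
    have h2 := lt_of_lt_of_le (lt_of_lt_of_le hrs (min_le_right _ _)) (min_le_left _ _)
    have h3 := lt_of_lt_of_le (lt_of_lt_of_le hrs (min_le_right _ _)) (min_le_right _ _)
    fin_cases m
    · exact h1
    · exact h2
    · exact h3
  rw [area_translate]
  congr 1
  ext y
  simp only [mem_inter_iff, mem_ofPred_eq, ht]
  have hlin : ∀ m, b.coord m (z + y) = b.coord m z + (b.coord m).linear y := by
    intro m
    have := (b.coord m).map_vadd z y
    rw [vadd_eq_add, vadd_eq_add] at this
    rw [add_comm z y, this, add_comm]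
  constructor
  · rintro ⟨h1, h2⟩
    refine ⟨fun m hm => ?_, h2⟩
    have := h1 m
    rw [hlin, hm, zero_add] at this
    exact this
  · rintro ⟨h1, h2⟩
    refine ⟨fun m => ?_, h2⟩
    by_cases hm : b.coord m z = 0
    · rw [hlin, hm, zero_add]
      exact h1 m hm
    · refine (hs2 m hm (z + y) ?_).le
      rw [mem_ball, dist_eq_norm, add_sub_cancel_left]
      rw [mem_ball_zero_iff] at h2
      exact h2.trans (hrm m)

theorem linear_ne_zero (b : AffineBasis (Fin 3) ℝ ℂ) (m : Fin 3) : (b.coord m).linear ≠ 0 := by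
  intro h
  obtain ⟨m', hm'⟩ : ∃ m' : Fin 3, m' ≠ m := by
    by_cases h0 : m = 0
    · exact ⟨1, by rw [h0]; decide⟩
    · exact ⟨0, fun h => h0 h.symm⟩
  have h1 : b.coord m (b m) = 1 := b.coord_apply_eq m
  have h2 : b.coord m (b m') = 0 := b.coord_apply_ne hm'.symm
  have h3 := (b.coord m).map_vadd (b m') (b m - b m')
  rw [vadd_eq_add, vadd_eq_add, sub_add_cancel, h, LinearMap.zero_apply, zero_add, h1, h2] at h3
  exact one_ne_zero h3

theorem sum_linear (b : AffineBasis (Fin 3) ℝ ℂ) (y : ℂ) :
    (b.coord 0).linear y + (b.coord 1).linear y + (b.coord 2).linear y = 0 := by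
  have h1 := b.sum_coord_apply_eq_one (y + 0)
  have h2 := b.sum_coord_apply_eq_one (0 : ℂ)
  have h3 : ∀ m, b.coord m (y + 0) = (b.coord m).linear y + b.coord m 0 := by
    intro m
    have := (b.coord m).map_vadd 0 y
    rwa [vadd_eq_add, vadd_eq_add] at this
  rw [Fin.sum_univ_three] at h1 h2
  rw [h3 0, h3 1, h3 2] at h1
  linarith

theorem fin3_third : ∀ m m0 : Fin 3, m ≠ m0 → ∃ m2, ∀ m', m' ≠ m2 → m' = m ∨ m' = m0 := by
  decide

/-- non-corner boundary points: half disc -/
theorem half_law {p : Fin 3 → ℂ} (h : AffineIndependent ℝ p) {z : ℂ} (hz : z ∈ tri p) (hi : z ∉ interior (tri p))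
    (hc : ∀ m, p m ≠ z) : ∃ r0 > 0, ∀ r, 0 < r → r < r0 → volume.real (tri p ∩ ball z r) = Real.pi * r ^ 2 / 2 := by
  obtain ⟨b, hb, ht, hti⟩ := exists_bary h
  have hcorner : ∀ m, (∀ m', m' ≠ m → b.coord m' z = 0) → False := by
    intro m hm
    apply hc m
    have h1 : ∀ m', b.coord m' z = b.coord m' (p m) := by
      intro m'
      by_cases hm' : m' = m
      · subst hm'
        have hs1 := b.sum_coord_apply_eq_one z
        rw [Finset.sum_eq_single m'] at hs1
        · rw [hs1, ← hb, b.coord_apply_eq]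
        · intro c _ hc
          exact hm c hc
        · intro hc
          exact absurd (Finset.mem_univ _) hc
      · rw [hm m' hm', ← hb]
        exact (b.coord_apply_ne hm').symm
    have h2 := b.affineCombination_coord_eq_self z
    have h3 := b.affineCombination_coord_eq_self (p m)
    rw [← h2, ← h3]
    congr 1
    ext m'
    exact (h1 m').symm
  have hz' := hz
  rw [ht] at hz'
  obtain ⟨m0, hm0⟩ : ∃ m0, b.coord m0 z = 0 := by
    by_contra hcon
    push Not at hcon
    apply hi
    rw [hti]
    exact fun m => lt_of_le_of_ne (hz' m) (Ne.symm (hcon m))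
  have huniq : ∀ m, b.coord m z = 0 → m = m0 := by
    intro m hm
    by_contra hne
    obtain ⟨m2, hm2⟩ := fin3_third m m0 hne
    refine hcorner m2 (fun m' hm' => ?_)
    rcases hm2 m' hm' with rfl | rfl
    · exact hm
    · exact hm0
  obtain ⟨r0, hr0, hr⟩ := local_cone ht hz
  refine ⟨r0, hr0, fun r h1 h2 => ?_⟩
  rw [hr r h1 h2]
  have : {y : ℂ | ∀ m, b.coord m z = 0 → 0 ≤ (b.coord m).linear y} = {y | 0 ≤ (b.coord m0).linear y} := by
    ext y
    constructor
    · intro hy
      exact hy m0 hm0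
    · intro hy m hm
      rw [huniq m hm]
      exact hy
  rw [this]
  exact half_disc (linear_ne_zero b m0) h1.le

/-- interior points: full disc -/
theorem full_law {p : Fin 3 → ℂ} {z : ℂ} (hi : z ∈ interior (tri p)) :
    ∃ r0 > 0, ∀ r, 0 < r → r < r0 → volume.real (tri p ∩ ball z r) = Real.pi * r ^ 2 := by
  obtain ⟨r0, hr0, h⟩ := Metric.isOpen_iff.mp isOpen_interior z hi
  refine ⟨r0, hr0, fun r h1 h2 => ?_⟩
  have : tri p ∩ ball z r = ball z r := by
    apply inter_eq_right.mpr
    exact (ball_subset_ball h2.le).trans (h.trans interior_subset)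
  rw [this, ball_area h1.le]

/-- corners: three positive angles with sum `π` -/
theorem area_law {p : Fin 3 → ℂ} (h : AffineIndependent ℝ p) : ∃ α : Fin 3 → ℝ, (∀ m, 0 < α m) ∧
    α 0 + α 1 + α 2 = Real.pi ∧ ∃ r0 > 0, ∀ m, ∀ r, 0 < r → r < r0 →
      volume.real (tri p ∩ ball (p m) r) = α m * r ^ 2 / 2 := by
  obtain ⟨b, hb, ht, hti⟩ := exists_bary h
  set C : Fin 3 → Set ℂ := fun m => {y : ℂ | ∀ m', m' ≠ m → 0 ≤ (b.coord m').linear y} with hC
  have hcoord : ∀ m m', b.coord m' (p m) = 0 ↔ m' ≠ m := by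
    intro m m'
    rw [← hb]
    constructor
    · intro h1 h2
      rw [h2, b.coord_apply_eq] at h1
      exact one_ne_zero h1
    · intro h1
      exact b.coord_apply_ne h1
  have hloc : ∀ m, ∃ r0 > 0, ∀ r, 0 < r → r < r0 → volume.real (tri p ∩ ball (p m) r) = volume.real (C m ∩ ball 0 r) := by
    intro m
    obtain ⟨r0, hr0, hr⟩ := local_cone ht (corner_mem p m)
    refine ⟨r0, hr0, fun r h1 h2 => ?_⟩
    rw [hr r h1 h2]
    simp only [hcoord, hC]
  have hscale : ∀ m, ∀ r, 0 < r → volume.real (C m ∩ ball 0 r) = r ^ 2 * volume.real (C m ∩ ball 0 1) := by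
    intro m r hr
    refine area_scale ?_ hr
    intro y t ht0
    simp only [hC, mem_ofPred_eq, map_smul, smul_eq_mul]
    constructor
    · intro h1 m' hm'
      have := h1 m' hm'
      exact nonneg_of_mul_nonneg_right this ht0
    · intro h1 m' hm'
      exact mul_nonneg ht0.le (h1 m' hm')
  have hmeasC : ∀ m, MeasurableSet (C m) := by
    intro m
    have : C m = ⋂ m', ⋂ (_ : m' ≠ m), {y : ℂ | 0 ≤ (b.coord m').linear y} := by
      ext y
      simp [hC]
    rw [this]
    exact MeasurableSet.iInter fun m' => MeasurableSet.iInter fun _ => meas_nonneg _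
  have hfin : ∀ A : Set ℂ, volume (A ∩ ball 0 1) ≠ ⊤ := fun A =>
    (lt_of_le_of_lt (measure_mono inter_subset_right) measure_ball_lt_top).ne
  have hsum : volume.real (C 0 ∩ ball 0 1) + volume.real (C 1 ∩ ball 0 1) + volume.real (C 2 ∩ ball 0 1) = Real.pi / 2 := by
    set A0 := C 0 ∩ ball (0 : ℂ) 1 with hA0
    set A1 := C 1 ∩ ball (0 : ℂ) 1 with hA1
    set A2 := -(C 2 ∩ ball (0 : ℂ) 1) with hA2
    have m0 : MeasurableSet A0 := (hmeasC 0).inter measurableSet_ball
    have m1 : MeasurableSet A1 := (hmeasC 1).inter measurableSet_ball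
    have m2 : MeasurableSet A2 := ((hmeasC 2).inter measurableSet_ball).neg
    have f0 : volume A0 ≠ ⊤ := hfin _
    have f1 : volume A1 ≠ ⊤ := hfin _
    have f2 : volume A2 ≠ ⊤ := by rw [hA2, Measure.measure_neg]; exact hfin _
    have e2 : volume.real A2 = volume.real (C 2 ∩ ball 0 1) := by
      rw [Measure.real, Measure.real, hA2, Measure.measure_neg]
    have hmem0 : ∀ y, y ∈ A0 → 0 ≤ (b.coord 1).linear y ∧ 0 ≤ (b.coord 2).linear y := fun y hy =>
      ⟨hy.1 1 (by decide), hy.1 2 (by decide)⟩
    have hmem1 : ∀ y, y ∈ A1 → 0 ≤ (b.coord 0).linear y ∧ 0 ≤ (b.coord 2).linear y := fun y hy =>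
      ⟨hy.1 0 (by decide), hy.1 2 (by decide)⟩
    have hmem2 : ∀ y, y ∈ A2 → (b.coord 0).linear y ≤ 0 ∧ (b.coord 1).linear y ≤ 0 := by
      intro y hy
      have hy' : -y ∈ C 2 ∩ ball (0 : ℂ) 1 := hy
      have h0 := hy'.1 0 (by decide)
      have h1 := hy'.1 1 (by decide)
      rw [map_neg] at h0 h1
      exact ⟨by linarith, by linarith⟩
    have hunion : (A0 ∪ A1) ∪ A2 = {z : ℂ | 0 ≤ (b.coord 2).linear z} ∩ ball 0 1 := by
      ext y
      have hs := sum_linear b y
      constructor
      · rintro ((hy | hy) | hy)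
        · exact ⟨(hmem0 y hy).2, hy.2⟩
        · exact ⟨(hmem1 y hy).2, hy.2⟩
        · obtain ⟨h1, h2⟩ := hmem2 y hy
          refine ⟨?_, ?_⟩
          · show 0 ≤ (b.coord 2).linear y
            linarith
          · have hy' : -y ∈ C 2 ∩ ball (0 : ℂ) 1 := hy
            have := hy'.2
            rwa [mem_ball_zero_iff, norm_neg, ← mem_ball_zero_iff] at this
      · rintro ⟨hy1, hy2⟩
        have hy1' : 0 ≤ (b.coord 2).linear y := hy1
        rcases le_total 0 ((b.coord 1).linear y) with h1 | h1
        · left; left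
          refine ⟨?_, hy2⟩
          intro m' hm'
          fin_cases m'
          · exact absurd rfl hm'
          · exact h1
          · exact hy1'
        · rcases le_total 0 ((b.coord 0).linear y) with h0 | h0
          · left; right
            refine ⟨?_, hy2⟩
            intro m' hm'
            fin_cases m'
            · exact h0
            · exact absurd rfl hm'
            · exact hy1'
          · right
            show -y ∈ C 2 ∩ ball (0 : ℂ) 1
            refine ⟨?_, by rwa [mem_ball_zero_iff, norm_neg, ← mem_ball_zero_iff]⟩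
            intro m' hm'
            rw [map_neg]
            fin_cases m'
            · simpa using h0
            · simpa using h1
            · exact absurd rfl hm'
    have n01 : volume.real (A0 ∩ A1) = 0 := by
      have : volume (A0 ∩ A1) = 0 := by
        refine measure_mono_null ?_ (null_ker (linear_ne_zero b 0))
        rintro y ⟨h0, h1⟩
        have a := hmem0 y h0
        have c := hmem1 y h1
        have hs := sum_linear b y
        show (b.coord 0).linear y = 0
        linarith [a.1, a.2, c.1]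
      rw [Measure.real, this]; rfl
    have n2 : volume.real ((A0 ∪ A1) ∩ A2) = 0 := by
      have : volume ((A0 ∪ A1) ∩ A2) = 0 := by
        refine measure_mono_null ?_ (measure_union_null (null_ker (linear_ne_zero b 1)) (null_ker (linear_ne_zero b 0)))
        rintro y ⟨h0 | h1, h2⟩
        · left
          have a := hmem0 y h0
          have c := hmem2 y h2
          show (b.coord 1).linear y = 0
          linarith [a.1, c.2]
        · right
          have a := hmem1 y h1
          have c := hmem2 y h2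
          show (b.coord 0).linear y = 0
          linarith [a.1, c.1]
      rw [Measure.real, this]; rfl
    have s1 := measureReal_union_add_inter (μ := volume) (s := A0) (t := A1) m1 f0 f1
    have s2 := measureReal_union_add_inter (μ := volume) (s := A0 ∪ A1) (t := A2) m2 (measure_union_ne_top f0 f1) f2
    rw [hunion, half_disc (linear_ne_zero b 2) zero_le_one, n2, e2] at s2
    rw [n01] at s1
    linarith
  choose r0 hr0 hr using hloc
  refine ⟨fun m => 2 * volume.real (C m ∩ ball 0 1), ?_, ?_, min (r0 0) (min (r0 1) (r0 2)),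
    lt_min (hr0 0) (lt_min (hr0 1) (hr0 2)), ?_⟩
  · intro m
    have h1 := pos_area h (corner_mem p m) (half_pos (hr0 m))
    rw [hr m _ (half_pos (hr0 m)) (half_lt_self (hr0 m)), hscale m _ (half_pos (hr0 m))] at h1
    have h2 : 0 < volume.real (C m ∩ ball 0 1) := pos_of_mul_pos_right (by linarith [h1, mul_comm ((r0 m / 2) ^ 2) (volume.real (C m ∩ ball 0 1))] : 0 < (r0 m / 2) ^ 2 * volume.real (C m ∩ ball 0 1)) (by positivity)
    linarith
  · linarith
  · intro m r h1 h2
    have hrm : r < r0 m := by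
      have a1 := lt_of_lt_of_le h2 (min_le_left _ _)
      have a2 := lt_of_lt_of_le (lt_of_lt_of_le h2 (min_le_right _ _)) (min_le_left _ _)
      have a3 := lt_of_lt_of_le (lt_of_lt_of_le h2 (min_le_right _ _)) (min_le_right _ _)
      fin_cases m
      · exact a1
      · exact a2
      · exact a3
    rw [hr m r h1 hrm, hscale m r h1]
    ring

end Pool.TC
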