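import Pool.Agent.Lib.MP_d47d4c_co.TC.Growth

set_option autoImplicit false

namespace Pool.TC

open Metric Set MeasureTheory

namespace TriTiling

variable {ι : Type} (T : TriTiling ι)

/-- areas bounded below: quadratic growth -/
theorem count_le_of_area (hd : ∀ i, ∀ x ∈ T.K i, ∀ y ∈ T.K i, dist x y ≤ 1) {a : ℝ}
    (harea : ∀ i, a ≤ volume.real (T.K i)) {R : ℝ} (hR : 0 ≤ R) : (T.count R : ℝ) * a ≤ Real.pi * (R + 2) ^ 2 := by
  classical
  set I := (T.count_finite R).toFinset with hI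
  have hmemI : ∀ i, i ∈ I ↔ (T.K i ∩ closedBall (0 : ℂ) R).Nonempty := fun i => by rw [hI, Finite.mem_toFinset]; rfl
  have hcI : T.count R = I.card := by
    rw [count, ncard_eq_toFinset_card _ (T.count_finite R)]
  have hsub : ⋃ i ∈ I, T.K i ⊆ ball 0 (R + 2) := by
    intro z hz
    rw [mem_iUnion₂] at hz
    obtain ⟨i, hi, hzi⟩ := hz
    obtain ⟨y, hy1, hy2⟩ := (hmemI i).mp hi
    rw [mem_closedBall] at hy2
    rw [mem_ball]
    have := hd i z hzi y hy1
    linarith [dist_triangle z y 0]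
  have h3 : volume (⋃ i ∈ I, T.K i) = ∑ i ∈ I, volume (T.K i) := by
    refine measure_biUnion_finset₀ ?_ ?_
    · intro i _ j _ hij
      exact T.inter_null hij
    · intro i _
      exact (T.K_closed i).measurableSet.nullMeasurableSet
  have hfin : ∀ i, volume (T.K i) ≠ ⊤ := fun i => (T.K_compact i).measure_lt_top.ne
  have h4 : ∑ i ∈ I, volume.real (T.K i) ≤ Real.pi * (R + 2) ^ 2 := by
    have h5 : (∑ i ∈ I, volume (T.K i)).toReal = ∑ i ∈ I, volume.real (T.K i) :=
      ENNReal.toReal_sum fun i _ => hfin i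
    rw [← h5, ← h3, ← ball_area (x := 0) (by linarith)]
    exact ENNReal.toReal_mono measure_ball_lt_top.ne (measure_mono hsub)
  calc (T.count R : ℝ) * a = ∑ _i ∈ I, a := by rw [Finset.sum_const, nsmul_eq_mul, hcI]
    _ ≤ ∑ i ∈ I, volume.real (T.K i) := Finset.sum_le_sum fun i _ => harea i
    _ ≤ _ := h4

end TriTiling

end Pool.TC
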