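import Mathlib

set_option autoImplicit false

namespace Pool.TC

open Set

private theorem tq_cases {a b : ℝ} (hab : a < b) (ha0 : a ≠ 0) (hb0 : b ≠ 0) (ha1 : a ≠ 1)
    (hb1 : b ≠ 1) :
    ((({a, b} : Finset ℝ).filter (fun s => 0 < s ∧ s < 1)).card) % 2 =
      ((if a * b < 0 then 1 else 0) + (if (1 - a) * (1 - b) < 0 then 1 else 0)) % 2 := by
  have hne : a ≠ b := hab.ne
  rw [Finset.filter_insert, Finset.filter_singleton]
  rcases lt_or_gt_of_ne ha0 with h1 | h1 <;> rcases lt_or_gt_of_ne hb0 with h2 | h2 <;>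
  rcases lt_or_gt_of_ne ha1 with h3 | h3 <;> rcases lt_or_gt_of_ne hb1 with h4 | h4
  · have e1 : ¬ (a * b < 0) := not_lt.2 (mul_pos_of_neg_of_neg h1 h2).le
    have e2 : ¬ ((1 - a) * (1 - b) < 0) := not_lt.2 (mul_pos (by linarith) (by linarith)).le
    rw [if_neg (by rintro ⟨h, _⟩; linarith), if_neg (by rintro ⟨h, _⟩; linarith), if_neg e1, if_neg e2]
    simp
  · linarith
  · linarith
  · linarith
  · have e1 : a * b < 0 := mul_neg_of_neg_of_pos h1 h2
    have e2 : ¬ ((1 - a) * (1 - b) < 0) := not_lt.2 (mul_pos (by linarith) (by linarith)).le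
    rw [if_neg (by rintro ⟨h, _⟩; linarith), if_pos ⟨h2, h4⟩, if_pos e1, if_neg e2]
    simp
  · have e1 : a * b < 0 := mul_neg_of_neg_of_pos h1 h2
    have e2 : (1 - a) * (1 - b) < 0 := mul_neg_of_pos_of_neg (by linarith) (by linarith)
    rw [if_neg (by rintro ⟨h, _⟩; linarith), if_neg (by rintro ⟨_, h⟩; linarith), if_pos e1, if_pos e2]
    simp
  · linarith
  · linarith
  · linarith
  · linarith
  · linarith
  · linarith
  · have e1 : ¬ (a * b < 0) := not_lt.2 (mul_pos h1 h2).le
    have e2 : ¬ ((1 - a) * (1 - b) < 0) := not_lt.2 (mul_pos (by linarith) (by linarith)).le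
    rw [if_pos ⟨h1, h3⟩, if_pos ⟨h2, h4⟩, if_neg e1, if_neg e2,
      Finset.card_insert_of_notMem (by simpa using hne), Finset.card_singleton]
  · have e1 : ¬ (a * b < 0) := not_lt.2 (mul_pos h1 h2).le
    have e2 : (1 - a) * (1 - b) < 0 := mul_neg_of_pos_of_neg (by linarith) (by linarith)
    rw [if_pos ⟨h1, h3⟩, if_neg (by rintro ⟨_, h⟩; linarith), if_neg e1, if_pos e2]
    simp
  · linarith
  · have e1 : ¬ (a * b < 0) := not_lt.2 (mul_pos h1 h2).le
    have e2 : ¬ ((1 - a) * (1 - b) < 0) :=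
      not_lt.2 (mul_pos_of_neg_of_neg (by linarith) (by linarith)).le
    rw [if_neg (by rintro ⟨_, h⟩; linarith), if_neg (by rintro ⟨_, h⟩; linarith), if_neg e1, if_neg e2]
    simp

/-- parity of the number of simple roots of a quadratic polynomial between 0 and 1 -/
theorem simple_roots_parity {A B C : ℝ} (hA : 0 < A) (h0 : C ≠ 0) (h1 : A + 2 * B + C ≠ 0) :
    {s : ℝ | 0 < s ∧ s < 1 ∧ A * s ^ 2 + 2 * B * s + C = 0 ∧ A * s + B ≠ 0}.ncard % 2 =
      ((if C < 0 then 1 else 0) + (if A + 2 * B + C < 0 then 1 else 0)) % 2 := by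
  have hid : ∀ s : ℝ, A * (A * s ^ 2 + 2 * B * s + C) = (A * s + B) ^ 2 - (B ^ 2 - A * C) := by
    intro s
    ring
  rcases le_or_gt (B ^ 2 - A * C) 0 with hD | hD
  · have e0 : {s : ℝ | 0 < s ∧ s < 1 ∧ A * s ^ 2 + 2 * B * s + C = 0 ∧ A * s + B ≠ 0} = ∅ := by
      rw [Set.eq_empty_iff_forall_notMem]
      rintro s ⟨_, _, hs, hs'⟩
      have h2 := hid s
      rw [hs, mul_zero] at h2
      have h3 : 0 < (A * s + B) ^ 2 := by positivity
      linarith
    have h2 : 0 < C := by
      rcases lt_or_gt_of_ne h0 with h | h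
      · exfalso
        have h3 := hid 0
        have h4 : A * C < 0 := mul_neg_of_pos_of_neg hA h
        nlinarith [sq_nonneg B]
      · exact h
    have h3 : 0 < A + 2 * B + C := by
      rcases lt_or_gt_of_ne h1 with h | h
      · exfalso
        have h3 := hid 1
        have h4 : A * (A + 2 * B + C) < 0 := mul_neg_of_pos_of_neg hA h
        nlinarith [sq_nonneg (A + B)]
      · exact h
    rw [e0, Set.ncard_empty, if_neg (not_lt.2 h2.le), if_neg (not_lt.2 h3.le)]
  · obtain ⟨d, hd, hdd⟩ : ∃ d : ℝ, 0 < d ∧ d ^ 2 = B ^ 2 - A * C :=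
      ⟨Real.sqrt (B ^ 2 - A * C), Real.sqrt_pos.2 hD, Real.sq_sqrt hD.le⟩
    obtain ⟨a, ha⟩ : ∃ a : ℝ, a = (-B - d) / A := ⟨_, rfl⟩
    obtain ⟨b, hb⟩ : ∃ b : ℝ, b = (-B + d) / A := ⟨_, rfl⟩
    have haA : A * a = -B - d := by rw [ha]; field_simp
    have hbA : A * b = -B + d := by rw [hb]; field_simp
    have hab : a < b := by
      have : A * a < A * b := by rw [haA, hbA]; linarith
      exact lt_of_mul_lt_mul_left this hA.le
    have hC : A * (a * b) = C := by
      have h2 : A * (A * (a * b)) = A * C := by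
        have h3 : A * (A * (a * b)) = (A * a) * (A * b) := by ring
        rw [h3, haA, hbA]
        linear_combination -hdd
      exact mul_left_cancel₀ hA.ne' h2
    have hq1 : A * ((1 - a) * (1 - b)) = A + 2 * B + C := by
      have h3 : A * ((1 - a) * (1 - b)) = A - A * a - A * b + A * (a * b) := by ring
      rw [h3, haA, hbA, hC]
      ring
    have e0 : {s : ℝ | 0 < s ∧ s < 1 ∧ A * s ^ 2 + 2 * B * s + C = 0 ∧ A * s + B ≠ 0} =
        ((({a, b} : Finset ℝ).filter (fun s => 0 < s ∧ s < 1) : Finset ℝ) : Set ℝ) := by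
      ext s
      simp only [Set.mem_ofPred_eq, Finset.coe_filter, Finset.mem_insert, Finset.mem_singleton]
      constructor
      · rintro ⟨hs0, hs1, hs, _⟩
        refine ⟨?_, hs0, hs1⟩
        have h2 := hid s
        rw [hs, mul_zero, ← hdd] at h2
        have h3 : (A * s + B - d) * (A * s + B + d) = 0 := by linear_combination -h2
        rcases mul_eq_zero.1 h3 with h4 | h4
        · right
          have : A * s = A * b := by rw [hbA]; linarith
          exact mul_left_cancel₀ hA.ne' this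
        · left
          have : A * s = A * a := by rw [haA]; linarith
          exact mul_left_cancel₀ hA.ne' this
      · rintro ⟨hs, hs0, hs1⟩
        refine ⟨hs0, hs1, ?_, ?_⟩
        · have h2 := hid s
          have h3 : A * (A * s ^ 2 + 2 * B * s + C) = 0 := by
            rw [h2, ← hdd]
            rcases hs with rfl | rfl
            · rw [haA]; ring
            · rw [hbA]; ring
          exact (mul_eq_zero.1 h3).resolve_left hA.ne'
        · rcases hs with rfl | rfl
          · rw [haA]; intro h; linarith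
          · rw [hbA]; intro h; linarith
    have ha0 : a ≠ 0 := by
      rintro h
      rw [h] at hC
      apply h0
      rw [← hC]; ring
    have hb0 : b ≠ 0 := by
      rintro h
      rw [h] at hC
      apply h0
      rw [← hC]; ring
    have ha1 : a ≠ 1 := by
      rintro h
      rw [h] at hq1
      apply h1
      rw [← hq1]; ring
    have hb1 : b ≠ 1 := by
      rintro h
      rw [h] at hq1
      apply h1
      rw [← hq1]; ring
    have f1 : C < 0 ↔ a * b < 0 := by
      rw [← hC]
      constructor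
      · intro h
        by_contra h2
        have := mul_nonneg hA.le (not_lt.1 h2)
        linarith
      · exact fun h => mul_neg_of_pos_of_neg hA h
    have f2 : A + 2 * B + C < 0 ↔ (1 - a) * (1 - b) < 0 := by
      rw [← hq1]
      constructor
      · intro h
        by_contra h2
        have := mul_nonneg hA.le (not_lt.1 h2)
        linarith
      · exact fun h => mul_neg_of_pos_of_neg hA h
    rw [e0, Set.ncard_coe_finset, tq_cases hab ha0 hb0 ha1 hb1]
    simp only [f1, f2]

private theorem tq_sq {ρ : ℝ} (hρ : 0 < ρ) (z w : ℂ) :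
    (dist z w = ρ ↔ Complex.normSq (z - w) - ρ ^ 2 = 0) ∧
    (dist z w < ρ ↔ Complex.normSq (z - w) - ρ ^ 2 < 0) := by
  have h1 : Complex.normSq (z - w) = dist z w ^ 2 := by
    rw [Complex.normSq_eq_norm_sq, dist_eq_norm]
  rw [h1]
  have h2 : 0 ≤ dist z w := dist_nonneg
  constructor
  · constructor
    · intro h
      rw [h]; ring
    · intro h
      have h3 : dist z w ^ 2 = ρ ^ 2 := by linarith
      exact (pow_left_inj₀ h2 hρ.le two_ne_zero).1 h3
  · constructor
    · intro h
      have := pow_lt_pow_left₀ h h2 two_ne_zero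
      linarith
    · intro h
      have h3 : dist z w ^ 2 < ρ ^ 2 := by linarith
      exact lt_of_pow_lt_pow_left₀ 2 hρ.le h3

/-- the simple intersection points of a circle with a segment, parity -/
theorem segment_circle_parity {u v w : ℂ} {ρ : ℝ} (huv : u ≠ v) (hu : dist u w ≠ ρ) (hv : dist v w ≠ ρ) (hρ : 0 < ρ) :
    {y : ℂ | y ∈ openSegment ℝ u v ∧ dist y w = ρ ∧ ((starRingEnd ℂ) (y - w) * (v - u)).re ≠ 0}.ncard % 2 =
      ((if dist u w < ρ then 1 else 0) + (if dist v w < ρ then 1 else 0)) % 2 := by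
  obtain ⟨A, hA⟩ : ∃ A : ℝ, A = Complex.normSq (v - u) := ⟨_, rfl⟩
  obtain ⟨B, hB⟩ : ∃ B : ℝ, B = ((starRingEnd ℂ) (u - w) * (v - u)).re := ⟨_, rfl⟩
  obtain ⟨C, hC⟩ : ∃ C : ℝ, C = Complex.normSq (u - w) - ρ ^ 2 := ⟨_, rfl⟩
  have hA0 : 0 < A := by
    rw [hA]
    exact Complex.normSq_pos.2 (sub_ne_zero.2 huv.symm)
  have hq : ∀ s : ℝ, Complex.normSq ((u + (s : ℂ) * (v - u)) - w) - ρ ^ 2 =
      A * s ^ 2 + 2 * B * s + C := by
    intro s
    rw [hA, hB, hC]
    simp only [Complex.normSq_apply, Complex.sub_re, Complex.sub_im, Complex.add_re, Complex.add_im,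
      Complex.mul_re, Complex.mul_im, Complex.ofReal_re, Complex.ofReal_im, Complex.conj_re,
      Complex.conj_im]
    ring
  have hd : ∀ s : ℝ, ((starRingEnd ℂ) ((u + (s : ℂ) * (v - u)) - w) * (v - u)).re = A * s + B := by
    intro s
    rw [hA, hB]
    simp only [Complex.normSq_apply, Complex.sub_re, Complex.sub_im, Complex.add_re, Complex.add_im,
      Complex.mul_re, Complex.mul_im, Complex.ofReal_re, Complex.ofReal_im, Complex.conj_re,
      Complex.conj_im]
    ring
  have hq1 : A + 2 * B + C = Complex.normSq (v - w) - ρ ^ 2 := by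
    have := hq 1
    have h2 : (u + ((1 : ℝ) : ℂ) * (v - u)) - w = v - w := by push_cast; ring
    rw [h2] at this
    linarith
  have h0 : C ≠ 0 := by
    rw [hC]
    exact fun h => hu ((tq_sq hρ u w).1.2 h)
  have h1 : A + 2 * B + C ≠ 0 := by
    rw [hq1]
    exact fun h => hv ((tq_sq hρ v w).1.2 h)
  have hinj : Function.Injective (fun s : ℝ => u + (s : ℂ) * (v - u)) := by
    intro s t hst
    have h2 : (s : ℂ) * (v - u) = (t : ℂ) * (v - u) := add_left_cancel hst
    exact_mod_cast mul_right_cancel₀ (sub_ne_zero.2 huv.symm) h2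
  have hset : {y : ℂ | y ∈ openSegment ℝ u v ∧ dist y w = ρ ∧
      ((starRingEnd ℂ) (y - w) * (v - u)).re ≠ 0} = (fun s : ℝ => u + (s : ℂ) * (v - u)) ''
      {s : ℝ | 0 < s ∧ s < 1 ∧ A * s ^ 2 + 2 * B * s + C = 0 ∧ A * s + B ≠ 0} := by
    ext y
    simp only [Set.mem_ofPred_eq, Set.mem_image, openSegment_eq_image']
    constructor
    · rintro ⟨⟨s, ⟨hs0, hs1⟩, rfl⟩, h2, h3⟩
      have e1 : u + s • (v - u) = u + (s : ℂ) * (v - u) := by rw [Complex.real_smul]
      rw [e1] at h2 h3
      refine ⟨s, ⟨hs0, hs1, ?_, ?_⟩, e1.symm⟩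
      · rw [← hq s]
        exact (tq_sq hρ _ w).1.1 h2
      · rw [← hd s]
        exact h3
    · rintro ⟨s, ⟨hs0, hs1, h2, h3⟩, rfl⟩
      refine ⟨⟨s, ⟨hs0, hs1⟩, by rw [Complex.real_smul]⟩, ?_, ?_⟩
      · rw [(tq_sq hρ _ w).1, hq s]
        exact h2
      · rw [hd s]
        exact h3
  rw [hset, Set.ncard_image_of_injective _ hinj, simple_roots_parity hA0 h0 h1]
  have f1 : C < 0 ↔ dist u w < ρ := by rw [hC]; exact (tq_sq hρ u w).2.symm
  have f2 : A + 2 * B + C < 0 ↔ dist v w < ρ := by rw [hq1]; exact (tq_sq hρ v w).2.symm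
  simp only [f1, f2]

/-- a line meets a circle in finitely many points -/
theorem line_circle_finite {f : ℂ →ₗ[ℝ] ℝ} (hf : f ≠ 0) (c : ℝ) (w : ℂ) (ρ : ℝ) :
    {z : ℂ | f z = c ∧ dist z w = ρ}.Finite := by
  rcases Set.eq_empty_or_nonempty {z : ℂ | f z = c ∧ dist z w = ρ} with he | ⟨z0, hz0, hz1⟩
  · rw [he]
    exact Set.finite_empty
  obtain ⟨α, hα⟩ : ∃ α : ℝ, α = f 1 := ⟨_, rfl⟩
  obtain ⟨β, hβ⟩ : ∃ β : ℝ, β = f Complex.I := ⟨_, rfl⟩
  have hfz : ∀ z : ℂ, f z = α * z.re + β * z.im := by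
    intro z
    have h1 : z = z.re • (1 : ℂ) + z.im • Complex.I := by
      rw [Complex.real_smul, Complex.real_smul, mul_one]
      exact (Complex.re_add_im z).symm
    conv_lhs => rw [h1]
    rw [map_add, map_smul, map_smul, ← hα, ← hβ, smul_eq_mul, smul_eq_mul]
    ring
  have hpos : 0 < α ^ 2 + β ^ 2 := by
    rcases eq_or_ne α 0 with h1 | h1
    · rcases eq_or_ne β 0 with h2 | h2
      · exfalso
        apply hf
        ext z
        rw [hfz, h1, h2]
        simp
      · positivity
    · positivity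
  -- the direction of the line
  obtain ⟨e, he⟩ : ∃ e : ℝ, e = -(2 * (((z0 - w).re) * (-β) + (z0 - w).im * α)) / (α ^ 2 + β ^ 2) :=
    ⟨_, rfl⟩
  refine Set.Finite.subset (Set.toFinite
    ({z0, z0 + ⟨-β * e, α * e⟩} : Set ℂ)) ?_
  rintro z ⟨hz2, hz3⟩
  obtain ⟨t, ht⟩ : ∃ t : ℝ, t = (-β * (z - z0).re + α * (z - z0).im) / (α ^ 2 + β ^ 2) := ⟨_, rfl⟩
  have h1 : α * (z - z0).re + β * (z - z0).im = 0 := by
    rw [← hfz, map_sub]
    rw [hz2]
    linarith [hz0]
  have hx : (z - z0).re = -β * t := by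
    rw [ht]
    field_simp
    linear_combination α * h1
  have hy : (z - z0).im = α * t := by
    rw [ht]
    field_simp
    linear_combination β * h1
  have h2 : Complex.normSq (z - w) = Complex.normSq (z0 - w) := by
    rw [Complex.normSq_eq_norm_sq, Complex.normSq_eq_norm_sq, ← dist_eq_norm, ← dist_eq_norm, hz3]
    rw [hz1]
  have h3 : t * (t * (α ^ 2 + β ^ 2) + 2 * (((z0 - w).re) * (-β) + (z0 - w).im * α)) = 0 := by
    have e1 : (z - w).re = (z0 - w).re + -β * t := by
      rw [← hx]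
      simp only [Complex.sub_re]
      ring
    have e2 : (z - w).im = (z0 - w).im + α * t := by
      rw [← hy]
      simp only [Complex.sub_im]
      ring
    rw [Complex.normSq_apply, Complex.normSq_apply, e1, e2] at h2
    linear_combination h2
  rcases mul_eq_zero.1 h3 with h4 | h4
  · left
    apply Complex.ext
    · have : (z - z0).re = 0 := by rw [hx, h4, mul_zero]
      simp only [Complex.sub_re] at this
      linarith
    · have : (z - z0).im = 0 := by rw [hy, h4, mul_zero]
      simp only [Complex.sub_im] at this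
      linarith
  · right
    have h5 : t = e := by
      rw [he]
      field_simp
      linarith
    rw [Set.mem_singleton_iff]
    apply Complex.ext
    · simp only [Complex.add_re]
      rw [← h5, ← hx]
      simp only [Complex.sub_re]
      ring
    · simp only [Complex.add_im]
      rw [← h5, ← hy]
      simp only [Complex.sub_im]
      ring

end Pool.TC
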