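import Mathlib

set_option autoImplicit false

namespace Pool.TC

open Set

/-- a finite set of reals has a positive minimal gap -/
theorem gap_of_finite {F : Set ℝ} (hF : F.Finite) :
    ∃ δ : ℝ, 0 < δ ∧ ∀ x ∈ F, ∀ y ∈ F, x ≠ y → δ ≤ |x - y| := by
  classical
  by_cases hne : hF.toFinset.offDiag.Nonempty
  · obtain ⟨p, hp, hmin⟩ := Finset.exists_min_image _ (fun p : ℝ × ℝ => |p.1 - p.2|) hne
    rw [Finset.mem_offDiag] at hp
    refine ⟨|p.1 - p.2|, abs_pos.2 (sub_ne_zero.2 hp.2.2), fun x hx y hy hxy => ?_⟩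
    exact hmin (x, y) (Finset.mem_offDiag.2 ⟨hF.mem_toFinset.2 hx, hF.mem_toFinset.2 hy, hxy⟩)
  · refine ⟨1, one_pos, fun x hx y hy hxy => ?_⟩
    exact absurd ⟨(x, y), Finset.mem_offDiag.2 ⟨hF.mem_toFinset.2 hx, hF.mem_toFinset.2 hy, hxy⟩⟩
      hne

theorem per_int {Y : Set ℝ} (hper : ∀ y, y ∈ Y ↔ y + 2 * Real.pi ∈ Y) (k : ℤ) (y : ℝ) :
    y ∈ Y ↔ y + k * (2 * Real.pi) ∈ Y := by
  induction k using Int.induction_on with
  | zero => simp
  | succ k ih =>
    rw [ih, hper]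
    have e : y + ((k : ℤ) : ℝ) * (2 * Real.pi) + 2 * Real.pi =
        y + (((k : ℤ) + 1 : ℤ) : ℝ) * (2 * Real.pi) := by
      push_cast
      ring
    rw [e]
  | pred k ih =>
    rw [ih, hper (y + ((-(k : ℤ) - 1 : ℤ) : ℝ) * (2 * Real.pi))]
    have e : y + ((-(k : ℤ) - 1 : ℤ) : ℝ) * (2 * Real.pi) + 2 * Real.pi =
        y + ((-(k : ℤ) : ℤ) : ℝ) * (2 * Real.pi) := by
      push_cast
      ring
    rw [e]

/-- every real is a point of `[0, 2π)` plus a multiple of `2π` -/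
theorem red_int (x : ℝ) : ∃ k : ℤ, 0 ≤ x + k * (2 * Real.pi) ∧ x + k * (2 * Real.pi) < 2 * Real.pi := by
  have hp : (0 : ℝ) < 2 * Real.pi := by positivity
  refine ⟨-⌊x / (2 * Real.pi)⌋, ?_, ?_⟩
  · have h := Int.floor_le (x / (2 * Real.pi))
    rw [le_div_iff₀ hp] at h
    push_cast
    linarith
  · have h := Int.lt_floor_add_one (x / (2 * Real.pi))
    rw [div_lt_iff₀ hp] at h
    push_cast
    linarith

/-- Equidistant sample points (step `π/(3M)`) avoiding a `2π`-periodic locally finite set `Y` such that every step contains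
at most one point of `Y`, and points of `Y` in steps `n` and `n+M` differ by exactly `π/3`. -/
theorem exists_sampling (Y : Set ℝ) (hper : ∀ y, y ∈ Y ↔ y + 2 * Real.pi ∈ Y) (hfin : (Y ∩ Icc 0 (2 * Real.pi)).Finite) :
    ∃ (M : ℕ) (t0 : ℝ), 0 < M ∧ (∀ n : ℤ, t0 + n * (Real.pi / (3 * M)) ∉ Y) ∧
      (∀ n : ℤ, ∀ s ∈ Y, ∀ s' ∈ Y, t0 + n * (Real.pi / (3 * M)) < s → s < t0 + (n + 1) * (Real.pi / (3 * M)) →
        t0 + n * (Real.pi / (3 * M)) < s' → s' < t0 + (n + 1) * (Real.pi / (3 * M)) → s' = s) ∧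
      (∀ n : ℤ, ∀ s ∈ Y, ∀ s' ∈ Y, t0 + n * (Real.pi / (3 * M)) < s → s < t0 + (n + 1) * (Real.pi / (3 * M)) →
        t0 + (n + M) * (Real.pi / (3 * M)) < s' → s' < t0 + (n + M + 1) * (Real.pi / (3 * M)) → s' = s + Real.pi / 3) := by
  have hpi : 0 < Real.pi := Real.pi_pos
  -- `Y` is countable
  have hsub : Y ⊆ ⋃ k : ℤ, (fun y : ℝ => y + k * (2 * Real.pi)) '' (Y ∩ Icc 0 (2 * Real.pi)) := by
    intro y hy
    obtain ⟨k, h1, h2⟩ := red_int y
    refine mem_iUnion.2 ⟨-k, y + k * (2 * Real.pi), ⟨(per_int hper k y).1 hy, h1, h2.le⟩, ?_⟩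
    show y + k * (2 * Real.pi) + ((-k : ℤ) : ℝ) * (2 * Real.pi) = y
    push_cast
    ring
  have hcount : Y.Countable :=
    (countable_iUnion fun k : ℤ => (hfin.image _).countable).mono hsub
  -- `Y ∩ [0, 6π]` is finite
  have hfin6 : (Y ∩ Icc 0 (6 * Real.pi)).Finite := by
    have hf : (⋃ k ∈ Finset.Icc (0 : ℤ) 3,
        (fun y : ℝ => y + (k : ℝ) * (2 * Real.pi)) '' (Y ∩ Icc 0 (2 * Real.pi))).Finite :=
      Set.Finite.biUnion (Finset.finite_toSet _) fun k _ => hfin.image _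
    refine hf.subset fun y hy => ?_
    obtain ⟨k, h1, h2⟩ := red_int y
    have hk1 : (-k : ℤ) ≤ 3 := by
      have : ((-k : ℤ) : ℝ) * (2 * Real.pi) ≤ 3 * (2 * Real.pi) := by
        push_cast
        linarith [hy.2.2]
      have h3 : ((-k : ℤ) : ℝ) ≤ (3 : ℤ) := by
        push_cast at this ⊢
        exact le_of_mul_le_mul_right this (by positivity)
      exact_mod_cast h3
    have hk0 : (0 : ℤ) ≤ -k := by
      have : (-1 : ℝ) * (2 * Real.pi) < ((-k : ℤ) : ℝ) * (2 * Real.pi) := by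
        push_cast
        linarith [hy.2.1]
      have h3 : ((-1 : ℤ) : ℝ) < ((-k : ℤ) : ℝ) := by
        push_cast at this ⊢
        exact lt_of_mul_lt_mul_right this (by positivity)
      have h4 : (-1 : ℤ) < -k := by exact_mod_cast h3
      omega
    refine mem_iUnion₂.2 ⟨-k, Finset.mem_Icc.2 ⟨hk0, hk1⟩, y + k * (2 * Real.pi),
      ⟨(per_int hper k y).1 hy.1, h1, h2.le⟩, ?_⟩
    show y + k * (2 * Real.pi) + ((-k : ℤ) : ℝ) * (2 * Real.pi) = y
    push_cast
    ring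
  set B : Set ℝ := {x | x ∈ Y ∨ x + Real.pi / 3 ∈ Y} with hB
  have hBper : ∀ (k : ℤ) (x : ℝ), x ∈ B → x + k * (2 * Real.pi) ∈ B := by
    intro k x hx
    rcases hx with hx | hx
    · exact Or.inl ((per_int hper k x).1 hx)
    · right
      have h := (per_int hper k _).1 hx
      have e : x + k * (2 * Real.pi) + Real.pi / 3 = x + Real.pi / 3 + k * (2 * Real.pi) := by ring
      rw [e]
      exact h
  have hBfin : (B ∩ Icc 0 (4 * Real.pi)).Finite := by
    have hf := hfin6.union (hfin6.image (fun x => x - Real.pi / 3))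
    refine hf.subset fun x hx => ?_
    rcases hx with ⟨hx | hx, h1, h2⟩
    · exact Or.inl ⟨hx, h1, by linarith⟩
    · right
      refine ⟨x + Real.pi / 3, ⟨hx, by linarith, by linarith⟩, ?_⟩
      show x + Real.pi / 3 - Real.pi / 3 = x
      ring
  obtain ⟨δ₁, hδ₁, hgap₁⟩ := gap_of_finite hBfin
  obtain ⟨δ, hδ, hgap⟩ : ∃ δ : ℝ, 0 < δ ∧ ∀ x ∈ B, ∀ y ∈ B, x < y → δ ≤ y - x := by
    refine ⟨min δ₁ (2 * Real.pi), lt_min hδ₁ (by positivity), fun x hx y hy hxy => ?_⟩
    by_contra hlt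
    push Not at hlt
    obtain ⟨k, h1, h2⟩ := red_int x
    have hlt1 : y - x < δ₁ := lt_of_lt_of_le hlt (min_le_left _ _)
    have hlt2 : y - x < 2 * Real.pi := lt_of_lt_of_le hlt (min_le_right _ _)
    have h := hgap₁ (x + k * (2 * Real.pi)) ⟨hBper k x hx, h1, by linarith⟩
      (y + k * (2 * Real.pi)) ⟨hBper k y hy, by linarith, by linarith⟩ (by
        intro he
        exact hxy.ne (by linarith))
    have e : x + k * (2 * Real.pi) - (y + k * (2 * Real.pi)) = -(y - x) := by ring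
    rw [e, abs_neg, abs_of_pos (by linarith)] at h
    linarith
  obtain ⟨M, hM⟩ := exists_nat_gt (Real.pi / (3 * δ))
  have hM0 : (0 : ℝ) < M := lt_trans (by positivity) hM
  have hMn : 0 < M := by exact_mod_cast hM0
  set h : ℝ := Real.pi / (3 * M) with hh
  have hpos : 0 < h := by positivity
  have hhδ : h < δ := by
    rw [div_lt_iff₀ (by positivity)] at hM
    rw [hh, div_lt_iff₀ (by positivity)]
    linarith
  have hMh : (M : ℝ) * h = Real.pi / 3 := by
    rw [hh]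
    field_simp
  have huniq : ∀ a : ℝ, ∀ x ∈ B, ∀ y ∈ B, a < x → x < a + h → a < y → y < a + h → y = x := by
    intro a x hx y hy h1 h2 h3 h4
    rcases lt_trichotomy x y with hlt | heq | hgt
    · have := hgap x hx y hy hlt
      linarith
    · exact heq.symm
    · have := hgap y hy x hx hgt
      linarith
  obtain ⟨t0, ht0⟩ : ∃ t0 : ℝ, t0 ∉ ⋃ n : ℤ, (fun y : ℝ => y - n * h) '' Y := by
    have hc : (⋃ n : ℤ, (fun y : ℝ => y - n * h) '' Y).Countable :=
      countable_iUnion fun n : ℤ => hcount.image _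
    exact (hc.dense_compl ℝ).nonempty
  refine ⟨M, t0, hMn, ?_, ?_, ?_⟩
  · intro n hn
    apply ht0
    refine mem_iUnion.2 ⟨n, t0 + n * h, hn, ?_⟩
    show t0 + n * h - n * h = t0
    ring
  · intro n s hs s' hs' h1 h2 h3 h4
    exact huniq (t0 + n * h) s (Or.inl hs) s' (Or.inl hs') h1 (by linarith) h3 (by linarith)
  · intro n s hs s' hs' h1 h2 h3 h4
    have hs'' : s' - Real.pi / 3 ∈ B := by
      right
      rw [sub_add_cancel]
      exact hs'
    have := huniq (t0 + n * h) s (Or.inl hs) (s' - Real.pi / 3) hs'' h1 (by linarith)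
      (by linarith) (by linarith)
    linarith

end Pool.TC
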