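import Pool.Agent.Lib.MP_d47d4c_co.TC.Edge
import Pool.Agent.Lib.MP_d47d4c_co.TC.Sampling
import Pool.Agent.Lib.MP_d47d4c_co.TC.Quad

set_option autoImplicit false

namespace Pool.TC

open Metric Set MeasureTheory

/-- point of the circle of radius `ρ` around `w` -/
noncomputable def cp (w : ℂ) (ρ θ : ℝ) : ℂ := w + ρ * Complex.exp (θ * Complex.I)

theorem cp_continuous (w : ℂ) (ρ : ℝ) : Continuous (cp w ρ) := by
  unfold cp
  fun_prop

theorem dist_cp (w : ℂ) {ρ : ℝ} (hρ : 0 < ρ) (θ : ℝ) : dist (cp w ρ θ) w = ρ := by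
  rw [dist_eq_norm, cp, add_sub_cancel_left, norm_mul, Complex.norm_exp_ofReal_mul_I, mul_one, Complex.norm_real,
    Real.norm_eq_abs, abs_of_pos hρ]

theorem dist_cp_shift (w : ℂ) {ρ : ℝ} (hρ : 0 < ρ) (θ : ℝ) : dist (cp w ρ θ) (cp w ρ (θ + Real.pi / 3)) = ρ := by
  have h1 : cp w ρ θ - cp w ρ (θ + Real.pi / 3) =
      ρ * Complex.exp (θ * Complex.I) * (1 - Complex.exp ((Real.pi / 3 : ℝ) * Complex.I)) := by
    unfold cp
    have : ((θ + Real.pi / 3 : ℝ) : ℂ) * Complex.I = θ * Complex.I + ((Real.pi / 3 : ℝ) : ℂ) * Complex.I := by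
      push_cast; ring
    rw [this, Complex.exp_add]
    ring
  have h2 : ‖1 - Complex.exp ((Real.pi / 3 : ℝ) * Complex.I)‖ = 1 := by
    have h3 : ‖1 - Complex.exp ((Real.pi / 3 : ℝ) * Complex.I)‖ ^ 2 = 1 := by
      rw [Complex.sq_norm, Complex.normSq_apply, Complex.sub_re, Complex.sub_im, Complex.exp_ofReal_mul_I_re,
        Complex.exp_ofReal_mul_I_im, Real.cos_pi_div_three, Real.sin_pi_div_three, Complex.one_re, Complex.one_im]
      have := Real.sq_sqrt (show (0 : ℝ) ≤ 3 by norm_num)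
      nlinarith
    have h4 := norm_nonneg (1 - Complex.exp ((Real.pi / 3 : ℝ) * Complex.I))
    nlinarith
  rw [dist_eq_norm, h1, norm_mul, norm_mul, Complex.norm_exp_ofReal_mul_I, h2, mul_one, mul_one, Complex.norm_real,
    Real.norm_eq_abs, abs_of_pos hρ]

theorem cp_period (w : ℂ) (ρ θ : ℝ) : cp w ρ (θ + 2 * Real.pi) = cp w ρ θ := by
  unfold cp
  have : ((θ + 2 * Real.pi : ℝ) : ℂ) * Complex.I = θ * Complex.I + 2 * Real.pi * Complex.I := by
    push_cast; ring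
  rw [this, Complex.exp_add, Complex.exp_two_pi_mul_I, mul_one]

theorem cp_injOn (w : ℂ) {ρ : ℝ} (hρ : 0 < ρ) (a : ℝ) : InjOn (cp w ρ) (Ico a (a + 2 * Real.pi)) := by
  intro s hs s' hs' h
  have hρC : (ρ : ℂ) ≠ 0 := by exact_mod_cast hρ.ne'
  have h1 : Complex.exp (s * Complex.I) = Complex.exp (s' * Complex.I) := mul_left_cancel₀ hρC (add_left_cancel h)
  obtain ⟨n, hn⟩ := Complex.exp_eq_exp_iff_exists_int.mp h1
  have h2 : s = s' + n * (2 * Real.pi) := by
    have h3 : (s : ℂ) * Complex.I = ((s' + n * (2 * Real.pi) : ℝ) : ℂ) * Complex.I := by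
      rw [hn]; push_cast; ring
    have h4 := mul_right_cancel₀ Complex.I_ne_zero h3
    exact_mod_cast h4
  have hpi := Real.two_pi_pos
  have h5 : (n : ℝ) < 1 := by
    by_contra hcon
    push Not at hcon
    nlinarith [hs.1, hs.2, hs'.1, hs'.2]
  have h6 : (-1 : ℝ) < n := by
    by_contra hcon
    push Not at hcon
    nlinarith [hs.1, hs.2, hs'.1, hs'.2]
  have h7 : n = 0 := by
    have a1 : n < 1 := by exact_mod_cast h5
    have a2 : -1 < n := by exact_mod_cast h6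
    omega
  rw [h2, h7]
  simp

theorem exists_cp {w z : ℂ} {ρ : ℝ} (hz : dist z w = ρ) (a : ℝ) :
    ∃ θ, a ≤ θ ∧ θ < a + 2 * Real.pi ∧ cp w ρ θ = z := by
  have hper : Function.Periodic (cp w ρ) (2 * Real.pi) := cp_period w ρ
  have h1 : cp w ρ (Complex.arg (z - w)) = z := by
    unfold cp
    have h2 : (ρ : ℂ) = ((‖z - w‖ : ℝ) : ℂ) := by rw [← dist_eq_norm, hz]
    rw [h2, Complex.norm_mul_exp_arg_mul_I]
    ring
  obtain ⟨y, hy, hxy⟩ := hper.exists_mem_Ico Real.two_pi_pos (Complex.arg (z - w)) a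
  exact ⟨y, hy.1, hy.2, by rw [← hxy, h1]⟩

/-- sampling of the circle of radius `ρ` around `w` -/
structure CircleSampling {ι : Type} (T : TriTiling ι) (w : ℂ) (ρ : ℝ) where
  M : ℕ
  hM : 0 < M
  t : ℤ → ℝ
  ht : ∀ n : ℤ, t n = t 0 + n * (Real.pi / (3 * M))
  a : ℤ → ι
  inside : ∀ n, cp w ρ (t n) ∈ interior (T.K (a n))
  before : ∀ n s, t n < s → s < t (n + 1) → (∀ i, cp w ρ s ∉ interior (T.K i)) →
    ∀ θ, t n ≤ θ → θ < s → cp w ρ θ ∈ interior (T.K (a n))
  after : ∀ n s, t n < s → s < t (n + 1) → (∀ i, cp w ρ s ∉ interior (T.K i)) →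
    ∀ θ, s < θ → θ ≤ t (n + 1) → cp w ρ θ ∈ interior (T.K (a (n + 1)))
  change : ∀ n, a n ≠ a (n + 1) → ∃ s, t n < s ∧ s < t (n + 1) ∧ (∀ i, cp w ρ s ∉ interior (T.K i))
  shift : ∀ n s s', t n < s → s < t (n + 1) → t (n + M) < s' → s' < t (n + M + 1) →
    (∀ i, cp w ρ s ∉ interior (T.K i)) → (∀ i, cp w ρ s' ∉ interior (T.K i)) → s' = s + Real.pi / 3

theorem bad_finite {ι : Type} (T : TriTiling ι) (w : ℂ) (ρ : ℝ) :
    {z : ℂ | dist z w = ρ ∧ ∀ i, z ∉ interior (T.K i)}.Finite := by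
  have hb : ∀ i, ∃ b : AffineBasis (Fin 3) ℝ ℂ, T.K i = {z | ∀ m, 0 ≤ b.coord m z} ∧
      interior (T.K i) = {z | ∀ m, 0 < b.coord m z} := by
    intro i
    obtain ⟨b, -, h1, h2⟩ := exists_bary (T.indep i)
    exact ⟨b, h1, h2⟩
  choose b hb1 hb2 using hb
  have hfin : (⋃ i ∈ {i | (T.K i ∩ closedBall w ρ).Nonempty}, ⋃ m : Fin 3,
      {z : ℂ | ((b i).coord m).linear z = -((b i).coord m 0) ∧ dist z w = ρ}).Finite := by
    refine (T.near_finite w ρ).biUnion fun i _ => finite_iUnion fun m => ?_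
    exact line_circle_finite (linear_ne_zero (b i) m) _ w ρ
  refine hfin.subset ?_
  rintro z ⟨hz, hzi⟩
  obtain ⟨i, hi⟩ := T.cover z
  have hi' : z ∈ T.K i := hi
  have h1 := hzi i
  rw [hb2 i, mem_ofPred_eq] at h1
  push Not at h1
  obtain ⟨m, hm⟩ := h1
  have h2 : 0 ≤ (b i).coord m z := by
    have := hi'
    rw [hb1 i] at this
    exact this m
  have h3 : (b i).coord m z = 0 := le_antisymm hm h2
  have h4 : ((b i).coord m).linear z = -((b i).coord m 0) := by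
    have := ((b i).coord m).map_vadd 0 z
    rw [vadd_eq_add, vadd_eq_add, add_zero, h3] at this
    linarith
  rw [mem_iUnion₂]
  refine ⟨i, ⟨z, hi', by rw [mem_closedBall, hz]⟩, ?_⟩
  rw [mem_iUnion]
  exact ⟨m, h4, hz⟩

theorem seg_const {ι : Type} (T : TriTiling ι) {w : ℂ} {ρ : ℝ} {x y z : ℝ} (hz : z ∈ Icc x y)
    (hno : ∀ θ, x ≤ θ → θ ≤ y → ∃ i, cp w ρ θ ∈ interior (T.K i)) {i : ι} (hi : cp w ρ z ∈ interior (T.K i)) :
    ∀ θ, x ≤ θ → θ ≤ y → cp w ρ θ ∈ interior (T.K i) := by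
  have h1 : IsPreconnected (cp w ρ '' Icc x y) := isPreconnected_Icc.image _ (cp_continuous w ρ).continuousOn
  have hV : IsOpen (⋃ j ∈ {j | j ≠ i}, interior (T.K j)) := isOpen_biUnion fun j _ => isOpen_interior
  have hd : Disjoint (interior (T.K i)) (⋃ j ∈ {j | j ≠ i}, interior (T.K j)) := by
    rw [disjoint_iUnion₂_right]
    intro j hj
    exact T.disj i j (fun h => hj h.symm)
  have hsub : cp w ρ '' Icc x y ⊆ interior (T.K i) ∪ ⋃ j ∈ {j | j ≠ i}, interior (T.K j) := by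
    rintro _ ⟨θ, hθ, rfl⟩
    obtain ⟨j, hj⟩ := hno θ hθ.1 hθ.2
    by_cases h : j = i
    · left; rw [← h]; exact hj
    · right
      exact mem_biUnion (show j ∈ {j | j ≠ i} from h) hj
  have h2 := h1.subset_left_of_subset_union isOpen_interior hV hd hsub ⟨_, ⟨z, hz, rfl⟩, hi⟩
  intro θ h3 h4
  exact h2 ⟨θ, ⟨h3, h4⟩, rfl⟩

theorem exists_circleSampling {ι : Type} (T : TriTiling ι) (w : ℂ) {ρ : ℝ} (hρ : 0 < ρ) : Nonempty (CircleSampling T w ρ) := by
  set Y : Set ℝ := {θ | ∀ i, cp w ρ θ ∉ interior (T.K i)} with hY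
  have hper : ∀ y, y ∈ Y ↔ y + 2 * Real.pi ∈ Y := by
    intro y
    simp only [hY, mem_ofPred_eq, cp_period]
  have hfin : (Y ∩ Icc 0 (2 * Real.pi)).Finite := by
    have h1 : (Y ∩ Ico 0 (0 + 2 * Real.pi)).Finite := by
      refine Finite.of_finite_image ((bad_finite T w ρ).subset ?_)
        ((cp_injOn w hρ 0).mono inter_subset_right)
      rintro _ ⟨θ, hθ, rfl⟩
      exact ⟨dist_cp w hρ θ, hθ.1⟩
    refine (h1.union (finite_singleton (2 * Real.pi))).subset ?_
    rintro θ ⟨h2, h3, h4⟩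
    rcases lt_or_eq_of_le h4 with h | h
    · exact Or.inl ⟨h2, h3, by rwa [zero_add]⟩
    · exact Or.inr h
  obtain ⟨M, t0, hM, S1, S2, S3⟩ := exists_sampling Y hper hfin
  set η : ℝ := Real.pi / (3 * M) with hη
  have hM' : (0 : ℝ) < M := by exact_mod_cast hM
  have hη0 : 0 < η := by rw [hη]; positivity
  have hex : ∀ n : ℤ, ∃ i, cp w ρ (t0 + n * η) ∈ interior (T.K i) := by
    intro n
    have := S1 n
    simp only [hY, mem_ofPred_eq] at this
    push Not at this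
    exact this
  choose a ha using hex
  have hnot : ∀ θ, θ ∉ Y → ∃ i, cp w ρ θ ∈ interior (T.K i) := by
    intro θ h
    simp only [hY, mem_ofPred_eq] at h
    push Not at h
    exact h
  refine ⟨⟨M, hM, fun n => t0 + n * η, fun n => by simp [hη], a, ha, ?_, ?_, ?_, ?_⟩⟩
  · intro n s h1 h2 hs θ h3 h4
    push_cast at h2
    refine seg_const T (x := t0 + n * η) (y := θ) (z := t0 + n * η) ⟨le_rfl, h3⟩ (fun θ' h5 h6 => hnot θ' fun hYθ => ?_)
      (ha n) θ h3 le_rfl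
    rcases eq_or_lt_of_le h5 with h7 | h7
    · rw [← h7] at hYθ
      exact S1 n hYθ
    · have := S2 n s hs θ' hYθ h1 h2 h7 (by linarith)
      linarith
  · intro n s h1 h2 hs θ h3 h4
    push_cast at h2 h4
    have ha1 := ha (n + 1)
    push_cast at ha1
    refine seg_const T (x := θ) (y := t0 + (n + 1) * η) (z := t0 + (n + 1) * η) ⟨h4, le_rfl⟩
      (fun θ' h5 h6 => hnot θ' fun hYθ => ?_) ha1 θ le_rfl h4
    rcases eq_or_lt_of_le h6 with h7 | h7
    · have := S1 (n + 1)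
      push_cast at this
      rw [h7] at hYθ
      exact this hYθ
    · have := S2 n s hs θ' hYθ h1 h2 (by linarith) h7
      linarith
  · intro n hne
    by_contra hcon
    push Not at hcon
    apply hne
    have ha1 := ha (n + 1)
    push_cast at ha1
    have h5 : cp w ρ (t0 + (n + 1) * η) ∈ interior (T.K (a n)) := by
      refine seg_const T (x := t0 + n * η) (y := t0 + (n + 1) * η) (z := t0 + n * η) ⟨le_rfl, by nlinarith⟩
        (fun θ' h5 h6 => ?_) (ha n) _ (by nlinarith) le_rfl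
      rcases eq_or_lt_of_le h5 with h7 | h7
      · rw [← h7]; exact ⟨_, ha n⟩
      · rcases eq_or_lt_of_le h6 with h8 | h8
        · rw [h8]; exact ⟨_, ha1⟩
        · exact hcon θ' h7 (by push_cast; exact h8)
    exact T.eq_of_interior ha1 (interior_subset h5)
  · intro n s s' h1 h2 h3 h4 hs hs'
    push_cast at h2 h3 h4
    exact S3 n s hs s' hs' h1 h2 h3 h4

namespace CircleSampling

variable {ι : Type} {T : TriTiling ι} {w : ℂ} {ρ : ℝ} (S : CircleSampling T w ρ)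

theorem eta_pos : 0 < Real.pi / (3 * (S.M : ℝ)) := by
  have : (0 : ℝ) < S.M := by exact_mod_cast S.hM
  have := Real.pi_pos
  positivity

theorem t_lt (n : ℤ) : S.t n < S.t (n + 1) := by
  rw [S.ht n, S.ht (n + 1)]
  push_cast
  nlinarith [S.eta_pos]

theorem t_period (n : ℤ) : S.t (n + 6 * S.M) = S.t n + 2 * Real.pi := by
  have : (0 : ℝ) < S.M := by exact_mod_cast S.hM
  rw [S.ht n, S.ht (n + 6 * S.M)]
  push_cast
  field_simp
  ring

theorem a_period (n : ℤ) : S.a (n + 6 * S.M) = S.a n := by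
  have h1 := S.inside (n + 6 * S.M)
  rw [S.t_period, cp_period] at h1
  exact T.eq_of_interior (S.inside n) (interior_subset h1)

theorem t_shift (n : ℤ) : S.t (n + S.M) = S.t n + Real.pi / 3 := by
  have : (0 : ℝ) < S.M := by exact_mod_cast S.hM
  rw [S.ht n, S.ht (n + S.M)]
  push_cast
  field_simp
  ring

/-- a change of triangle happens at a common point of the two triangles -/
theorem change_mem {n : ℤ} (h : S.a n ≠ S.a (n + 1)) : ∃ s, S.t n < s ∧ s < S.t (n + 1) ∧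
    (∀ i, cp w ρ s ∉ interior (T.K i)) ∧ cp w ρ s ∈ T.K (S.a n) ∧ cp w ρ s ∈ T.K (S.a (n + 1)) := by
  obtain ⟨s, h1, h2, h3⟩ := S.change n h
  refine ⟨s, h1, h2, h3, ?_, ?_⟩
  · have ht : Filter.Tendsto (cp w ρ) (nhdsWithin s (Iio s)) (nhds (cp w ρ s)) :=
      ((cp_continuous w ρ).tendsto s).mono_left nhdsWithin_le_nhds
    refine (T.K_closed _).mem_of_tendsto ht ?_
    filter_upwards [Ioo_mem_nhdsLT h1] with θ hθ
    exact interior_subset (S.before n s h1 h2 h3 θ hθ.1.le hθ.2)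
  · have ht : Filter.Tendsto (cp w ρ) (nhdsWithin s (Ioi s)) (nhds (cp w ρ s)) :=
      ((cp_continuous w ρ).tendsto s).mono_left nhdsWithin_le_nhds
    refine (T.K_closed _).mem_of_tendsto ht ?_
    filter_upwards [Ioo_mem_nhdsGT h2] with θ hθ
    exact interior_subset (S.after n s h1 h2 h3 θ hθ.1 hθ.2.le)

/-- every angle which is not a sample angle lies in a unique step -/
theorem exists_step {s : ℝ} (h1 : S.t 0 < s) (h2 : s < S.t 0 + 2 * Real.pi) (hs : ∀ i, cp w ρ s ∉ interior (T.K i)) :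
    ∃ n : ℕ, n < 6 * S.M ∧ S.t n < s ∧ s < S.t (n + 1) := by
  have hη := S.eta_pos
  have hM : (0 : ℝ) < S.M := by exact_mod_cast S.hM
  set η := Real.pi / (3 * (S.M : ℝ)) with hηdef
  set n := ⌊(s - S.t 0) / η⌋₊ with hn
  have hpos : 0 ≤ (s - S.t 0) / η := div_nonneg (by linarith) hη.le
  have h3 : (n : ℝ) ≤ (s - S.t 0) / η := Nat.floor_le hpos
  have h4 : (s - S.t 0) / η < n + 1 := Nat.lt_floor_add_one _
  rw [le_div_iff₀ hη] at h3
  rw [div_lt_iff₀ hη] at h4
  have h5 : S.t (n : ℤ) ≤ s := by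
    rw [S.ht n]; push_cast; linarith
  have h6 : s < S.t ((n : ℤ) + 1) := by
    rw [S.ht (n + 1)]; push_cast; linarith
  have h7 : S.t (n : ℤ) ≠ s := by
    intro h
    exact hs (S.a n) (by rw [← h]; exact S.inside n)
  refine ⟨n, ?_, lt_of_le_of_ne h5 h7, h6⟩
  have h8 : (n : ℝ) * η < 2 * Real.pi := by linarith
  have h9 : 2 * Real.pi = (6 * S.M) * η := by
    rw [hηdef]; field_simp; norm_num
  rw [h9] at h8
  have h10 : (n : ℝ) < 6 * S.M := lt_of_mul_lt_mul_right h8 hη.le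
  exact_mod_cast h10

end CircleSampling

end Pool.TC
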