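import Pool.Agent.Lib.MP_d47d4c_co.TC.Circle

set_option autoImplicit false

namespace Pool.TC

open Metric Set MeasureTheory

private lemma Cross_re (w : ℂ) (ρ θ : ℝ) : (cp w ρ θ).re = w.re + ρ * Real.cos θ := by
  unfold cp
  rw [Complex.add_re, Complex.re_ofReal_mul, Complex.exp_ofReal_mul_I_re]

private lemma Cross_im (w : ℂ) (ρ θ : ℝ) : (cp w ρ θ).im = w.im + ρ * Real.sin θ := by
  unfold cp
  rw [Complex.add_im, Complex.im_ofReal_mul, Complex.exp_ofReal_mul_I_im]

private lemma Cross_f (f : ℂ →ₗ[ℝ] ℝ) (z : ℂ) : f z = z.re * f 1 + z.im * f Complex.I := by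
  conv_lhs => rw [show z = z.re • (1 : ℂ) + z.im • Complex.I by
    rw [Complex.real_smul, Complex.real_smul, mul_one, Complex.re_add_im]]
  rw [map_add, map_smul, map_smul, smul_eq_mul, smul_eq_mul]

private lemma Cross_f_ne {f : ℂ →ₗ[ℝ] ℝ} (hf : f ≠ 0) : f 1 ≠ 0 ∨ f Complex.I ≠ 0 := by
  by_contra h
  push Not at h
  apply hf
  ext z
  rw [Cross_f f z, h.1, h.2]
  simp

private lemma Cross_dot (q e : ℂ) : ((starRingEnd ℂ) q * e).re = q.re * e.re + q.im * e.im := by
  rw [Complex.mul_re, Complex.conj_re, Complex.conj_im]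
  ring

namespace CircleSampling

variable {ι : Type} {T : TriTiling ι} {w : ℂ} {ρ : ℝ} (S : CircleSampling T w ρ)

private lemma Cross_not_int {i j : ι} (hij : i ≠ j) {y : ℂ} (hi : y ∈ T.K i) (hj : y ∈ T.K j) (l : ι) :
    y ∉ interior (T.K l) := fun h =>
  hij ((T.eq_of_interior h hi).trans (T.eq_of_interior h hj).symm)

/-- a circle which is in the interior of a triangle on both sides of a point of the border is tangent -/
private lemma Cross_tangent {i j : ι} (hij : i ≠ j) {u v : ℂ}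
    (hui : u ∈ T.K i) (huj : u ∈ T.K j) (hvi : v ∈ T.K i) (hvj : v ∈ T.K j) {s α β : ℝ}
    (h1 : α < s) (h2 : s < β) (hyi : cp w ρ s ∈ T.K i) (hyj : cp w ρ s ∈ T.K j)
    (hint : ∀ θ, α < θ → θ < β → θ ≠ s → cp w ρ θ ∈ interior (T.K i)) :
    ((starRingEnd ℂ) (cp w ρ s - w) * (v - u)).re = 0 := by
  obtain ⟨f, c, hf, hf1, hf2, hf3, hf4⟩ := T.exists_sep hij
  have hy : f (cp w ρ s) = c := le_antisymm (hf1 _ hyi) (hf3 _ hyj)
  have hu : f u = c := le_antisymm (hf1 _ hui) (hf3 _ huj)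
  have hv : f v = c := le_antisymm (hf1 _ hvi) (hf3 _ hvj)
  have hmax : IsLocalMax (fun θ : ℝ => f (cp w ρ θ)) s := by
    filter_upwards [Ioo_mem_nhds h1 h2] with θ hθ
    rw [hy]
    by_cases hs : θ = s
    · rw [hs, hy]
    · exact (hf2 _ (hint θ hθ.1 hθ.2 hs)).le
  have heq : (fun θ : ℝ => f (cp w ρ θ)) = fun θ : ℝ => (w.re + ρ * Real.cos θ) * f 1 +
      (w.im + ρ * Real.sin θ) * f Complex.I := by
    funext θ
    rw [Cross_f f, Cross_re, Cross_im]
  have hder : HasDerivAt (fun θ : ℝ => (w.re + ρ * Real.cos θ) * f 1 +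
      (w.im + ρ * Real.sin θ) * f Complex.I)
      (ρ * (-Real.sin s) * f 1 + ρ * Real.cos s * f Complex.I) s :=
    ((((Real.hasDerivAt_cos s).const_mul ρ).const_add w.re).mul_const (f 1)).add
      ((((Real.hasDerivAt_sin s).const_mul ρ).const_add w.im).mul_const (f Complex.I))
  rw [heq] at hmax
  have h0 := hmax.hasDerivAt_eq_zero hder
  have he : (v - u).re * f 1 + (v - u).im * f Complex.I = 0 := by
    rw [← Cross_f, map_sub, hu, hv, sub_self]
  rw [Cross_dot]
  have hq1 : (cp w ρ s - w).re = ρ * Real.cos s := by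
    rw [Complex.sub_re, Cross_re]
    ring
  have hq2 : (cp w ρ s - w).im = ρ * Real.sin s := by
    rw [Complex.sub_im, Cross_im]
    ring
  rw [hq1, hq2]
  rcases Cross_f_ne hf with h | h
  · apply (mul_eq_zero.1 (show f 1 * (ρ * Real.cos s * (v - u).re + ρ * Real.sin s * (v - u).im) = 0
      from ?_)).resolve_left h
    linear_combination ρ * Real.cos s * he - (v - u).im * h0
  · apply (mul_eq_zero.1 (show f Complex.I * (ρ * Real.cos s * (v - u).re + ρ * Real.sin s * (v - u).im) = 0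
      from ?_)).resolve_left h
    linear_combination ρ * Real.sin s * he + (v - u).re * h0

private lemma Cross_left {s α : ℝ} {l : ι} (h1 : α < s)
    (hint : ∀ θ, α ≤ θ → θ < s → cp w ρ θ ∈ interior (T.K l)) : cp w ρ s ∈ T.K l := by
  have hc : Filter.Tendsto (cp w ρ) (nhdsWithin s (Iio s)) (nhds (cp w ρ s)) :=
    ((cp_continuous w ρ).tendsto s).mono_left nhdsWithin_le_nhds
  refine (T.K_closed l).mem_of_tendsto hc ?_
  filter_upwards [Ioo_mem_nhdsLT h1] with θ hθ
  exact interior_subset (hint θ hθ.1.le hθ.2)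

private lemma Cross_right {s β : ℝ} {l : ι} (h1 : s < β)
    (hint : ∀ θ, s < θ → θ ≤ β → cp w ρ θ ∈ interior (T.K l)) : cp w ρ s ∈ T.K l := by
  have hc : Filter.Tendsto (cp w ρ) (nhdsWithin s (Ioi s)) (nhds (cp w ρ s)) :=
    ((cp_continuous w ρ).tendsto s).mono_left nhdsWithin_le_nhds
  refine (T.K_closed l).mem_of_tendsto hc ?_
  filter_upwards [Ioo_mem_nhdsGT h1] with θ hθ
  exact interior_subset (hint θ hθ.1 hθ.2.le)

/-- a simple crossing of the border of `i` and `j` is a change between `i` and `j` -/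
theorem change_of_cross (hρ : 0 < ρ) {i j : ι} (hij : i ≠ j) {u v : ℂ} (hK : T.K i ∩ T.K j = segment ℝ u v) {n : ℤ} {s : ℝ}
    (h1 : S.t n < s) (h2 : s < S.t (n + 1)) (hs : cp w ρ s ∈ openSegment ℝ u v) (hstar : T.star (cp w ρ s) = {i, j})
    (htr : ((starRingEnd ℂ) (cp w ρ s - w) * (v - u)).re ≠ 0) :
    (S.a n = i ∧ S.a (n + 1) = j) ∨ (S.a n = j ∧ S.a (n + 1) = i) := by
  have hy : cp w ρ s ∈ T.K i ∩ T.K j := by
    rw [hK]
    exact openSegment_subset_segment ℝ u v hs
  have hu : u ∈ T.K i ∩ T.K j := by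
    rw [hK]
    exact left_mem_segment ℝ u v
  have hv : v ∈ T.K i ∩ T.K j := by
    rw [hK]
    exact right_mem_segment ℝ u v
  have hni := Cross_not_int hij hy.1 hy.2
  have hb := S.before n s h1 h2 hni
  have ha := S.after n s h1 h2 hni
  have hal : S.a n ∈ T.star (cp w ρ s) := Cross_left h1 hb
  have har : S.a (n + 1) ∈ T.star (cp w ρ s) := Cross_right h2 ha
  rw [hstar] at hal har
  rcases hal with hl | hl <;> rcases har with hr | hr
  · exfalso
    apply htr
    rw [hl] at hb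
    rw [hr] at ha
    refine Cross_tangent hij hu.1 hu.2 hv.1 hv.2 h1 h2 hy.1 hy.2 fun θ ht1 ht2 hne => ?_
    rcases lt_or_gt_of_ne hne with h | h
    · exact hb θ ht1.le h
    · exact ha θ h ht2.le
  · exact Or.inl ⟨hl, hr⟩
  · exact Or.inr ⟨hl, hr⟩
  · exfalso
    apply htr
    have hl' : S.a n = j := hl
    have hr' : S.a (n + 1) = j := hr
    rw [hl'] at hb
    rw [hr'] at ha
    refine Cross_tangent hij.symm hu.2 hu.1 hv.2 hv.1 h1 h2 hy.2 hy.1 fun θ ht1 ht2 hne => ?_
    rcases lt_or_gt_of_ne hne with h | h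
    · exact hb θ ht1.le h
    · exact ha θ h ht2.le

private lemma Cross_side (hρ : 0 < ρ) {u v : ℂ} (huv : u ≠ v) {f : ℂ →ₗ[ℝ] ℝ} {s θ θ' : ℝ}
    (he : f (v - u) = 0) (hdot : ((starRingEnd ℂ) (cp w ρ s - w) * (v - u)).re = 0)
    (h1 : f (cp w ρ θ) < f (cp w ρ s)) (h2 : f (cp w ρ s) < f (cp w ρ θ')) : False := by
  rw [Cross_dot] at hdot
  have hq1 : (cp w ρ s - w).re = ρ * Real.cos s := by
    rw [Complex.sub_re, Cross_re]
    ring
  have hq2 : (cp w ρ s - w).im = ρ * Real.sin s := by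
    rw [Complex.sub_im, Cross_im]
    ring
  rw [hq1, hq2] at hdot
  rw [Cross_f] at he
  rw [Cross_f f (cp w ρ θ), Cross_f f (cp w ρ s), Cross_re, Cross_im, Cross_re, Cross_im] at h1
  rw [Cross_f f (cp w ρ θ'), Cross_f f (cp w ρ s), Cross_re, Cross_im, Cross_re, Cross_im] at h2
  set a := f 1 with ha
  set b := f Complex.I with hb
  have hd : Real.cos s * (v - u).re + Real.sin s * (v - u).im = 0 := by
    have : ρ * (Real.cos s * (v - u).re + Real.sin s * (v - u).im) = 0 := by
      linear_combination hdot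
    exact (mul_eq_zero.1 this).resolve_left hρ.ne'
  have hdet : a * Real.sin s - b * Real.cos s = 0 := by
    have hne : (v - u).re ≠ 0 ∨ (v - u).im ≠ 0 := by
      by_contra h
      push Not at h
      exact huv (sub_eq_zero.1 (Complex.ext h.1 h.2)).symm
    rcases hne with h | h
    · have : (v - u).re * (a * Real.sin s - b * Real.cos s) = 0 := by
        linear_combination Real.sin s * he - b * hd
      exact (mul_eq_zero.1 this).resolve_left h
    · have : (v - u).im * (a * Real.sin s - b * Real.cos s) = 0 := by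
        linear_combination a * hd - Real.cos s * he
      exact (mul_eq_zero.1 this).resolve_left h
  set m := a * Real.cos s + b * Real.sin s with hm
  have ha' : a = m * Real.cos s := by
    have := Real.sin_sq_add_cos_sq s
    rw [hm]
    linear_combination -a * this + Real.sin s * hdet
  have hb' : b = m * Real.sin s := by
    have := Real.sin_sq_add_cos_sq s
    rw [hm]
    linear_combination -b * this - Real.cos s * hdet
  have key : ∀ x : ℝ, (w.re + ρ * Real.cos x) * a + (w.im + ρ * Real.sin x) * b -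
      ((w.re + ρ * Real.cos s) * a + (w.im + ρ * Real.sin s) * b) =
      ρ * m * (Real.cos (x - s) - 1) := by
    intro x
    have := Real.sin_sq_add_cos_sq s
    rw [Real.cos_sub, ha', hb']
    linear_combination -ρ * m * this
  have k1 := key θ
  have k2 := key θ'
  have c1 := Real.cos_le_one (θ - s)
  have c2 := Real.cos_le_one (θ' - s)
  have n1 : ρ * m * (Real.cos (θ - s) - 1) < 0 := by linarith
  have n2 : 0 < ρ * m * (Real.cos (θ' - s) - 1) := by linarith
  rcases le_total 0 (ρ * m) with h | h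
  · have : ρ * m * (Real.cos (θ' - s) - 1) ≤ 0 := mul_nonpos_of_nonneg_of_nonpos h (by linarith)
    linarith
  · have : 0 ≤ ρ * m * (Real.cos (θ - s) - 1) := mul_nonneg_of_nonpos_of_nonpos h (by linarith)
    linarith

/-- a change between `i` and `j` happens at a simple crossing -/
theorem cross_of_change (hρ : 0 < ρ) {i j : ι} (hij : i ≠ j) {u v : ℂ} (huv : u ≠ v) (hK : T.K i ∩ T.K j = segment ℝ u v)
    {n : ℤ} {s : ℝ} (h1 : S.t n < s) (h2 : s < S.t (n + 1)) (hs : cp w ρ s ∈ segment ℝ u v)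
    (hn : (S.a n = i ∧ S.a (n + 1) = j) ∨ (S.a n = j ∧ S.a (n + 1) = i)) :
    ((starRingEnd ℂ) (cp w ρ s - w) * (v - u)).re ≠ 0 := by
  intro hdot
  obtain ⟨f, c, hf, hf1, hf2, hf3, hf4⟩ := T.exists_sep hij
  rw [← hK] at hs
  have hu : u ∈ T.K i ∩ T.K j := by
    rw [hK]
    exact left_mem_segment ℝ u v
  have hv : v ∈ T.K i ∩ T.K j := by
    rw [hK]
    exact right_mem_segment ℝ u v
  have hyc : f (cp w ρ s) = c := le_antisymm (hf1 _ hs.1) (hf3 _ hs.2)
  have huc : f u = c := le_antisymm (hf1 _ hu.1) (hf3 _ hu.2)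
  have hvc : f v = c := le_antisymm (hf1 _ hv.1) (hf3 _ hv.2)
  have he : f (v - u) = 0 := by
    rw [map_sub, huc, hvc, sub_self]
  rcases hn with ⟨ha, hb⟩ | ⟨ha, hb⟩
  · have i1 := S.inside n
    have i2 := S.inside (n + 1)
    rw [ha] at i1
    rw [hb] at i2
    refine Cross_side hρ huv he hdot (θ := S.t n) (θ' := S.t (n + 1)) ?_ ?_
    · rw [hyc]
      exact hf2 _ i1
    · rw [hyc]
      exact hf4 _ i2
  · have i1 := S.inside n
    have i2 := S.inside (n + 1)
    rw [ha] at i1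
    rw [hb] at i2
    refine Cross_side hρ huv he hdot (θ := S.t (n + 1)) (θ' := S.t n) ?_ ?_
    · rw [hyc]
      exact hf2 _ i2
    · rw [hyc]
      exact hf4 _ i1

/-- parity of the number of changes between two adjacent triangles -/
theorem cross_parity (hρ : 0 < ρ) {i j : ι} (hij : T.Adj i j) {u v : ℂ} (huv : u ≠ v) (hK : T.K i ∩ T.K j = segment ℝ u v)
    (hop : ∀ x ∈ openSegment ℝ u v, ¬ T.IsVertex x ∧ T.star x = {i, j}) (hu : dist u w ≠ ρ) (hv : dist v w ≠ ρ) :
    {n : ℕ | n < 6 * S.M ∧ ((S.a n = i ∧ S.a ((n : ℤ) + 1) = j) ∨ (S.a n = j ∧ S.a ((n : ℤ) + 1) = i))}.ncard % 2 =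
      ((if dist u w < ρ then 1 else 0) + (if dist v w < ρ then 1 else 0)) % 2 := by
  classical
  rw [← segment_circle_parity huv hu hv hρ]
  congr 1
  have hne : i ≠ j := hij.1
  -- the point of change
  have hch : ∀ n ∈ {n : ℕ | n < 6 * S.M ∧ ((S.a n = i ∧ S.a ((n : ℤ) + 1) = j) ∨
      (S.a n = j ∧ S.a ((n : ℤ) + 1) = i))}, ∃ s, S.t n < s ∧ s < S.t ((n : ℤ) + 1) ∧
      (∀ l, cp w ρ s ∉ interior (T.K l)) ∧ cp w ρ s ∈ segment ℝ u v := by
    intro n hn
    have hne' : S.a (n : ℤ) ≠ S.a ((n : ℤ) + 1) := by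
      rcases hn.2 with h | h
      · rw [h.1, h.2]
        exact hne
      · rw [h.1, h.2]
        exact hne.symm
    obtain ⟨s, hs1, hs2, hs3, hs4, hs5⟩ := S.change_mem hne'
    refine ⟨s, hs1, hs2, hs3, ?_⟩
    rw [← hK]
    rcases hn.2 with h | h
    · rw [h.1] at hs4
      rw [h.2] at hs5
      exact ⟨hs4, hs5⟩
    · rw [h.1] at hs4
      rw [h.2] at hs5
      exact ⟨hs5, hs4⟩
  have htmono : StrictMono S.t := strictMono_int_of_lt_succ S.t_lt
  have h6 : ∀ n : ℕ, n < 6 * S.M → S.t ((n : ℤ) + 1) ≤ S.t 0 + 2 * Real.pi := by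
    intro n hn
    have h := S.t_period 0
    rw [zero_add] at h
    rw [← h]
    apply htmono.monotone
    have : (n : ℤ) < 6 * S.M := by exact_mod_cast hn
    omega
  refine Set.ncard_congr (fun n hn => cp w ρ (Classical.choose (hch n hn))) ?_ ?_ ?_
  · intro n hn
    obtain ⟨hs1, hs2, hs3, hs4⟩ := Classical.choose_spec (hch n hn)
    set s := Classical.choose (hch n hn) with hs
    have hd : dist (cp w ρ s) w = ρ := dist_cp w hρ s
    refine ⟨?_, hd, S.cross_of_change hρ hne huv hK hs1 hs2 hs4 hn.2⟩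
    refine mem_openSegment_of_ne_left_right ?_ ?_ hs4
    · intro h
      rw [← h] at hd
      exact hu hd
    · intro h
      rw [← h] at hd
      exact hv hd
  · intro n m hn hm heq
    obtain ⟨hs1, hs2, hs3, hs4⟩ := Classical.choose_spec (hch n hn)
    obtain ⟨hr1, hr2, hr3, hr4⟩ := Classical.choose_spec (hch m hm)
    set s := Classical.choose (hch n hn) with hs
    set r := Classical.choose (hch m hm) with hr
    have h0n : S.t 0 ≤ S.t n := htmono.monotone (by positivity)
    have h0m : S.t 0 ≤ S.t m := htmono.monotone (by positivity)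
    have hsr : s = r := cp_injOn w hρ (S.t 0)
      ⟨by linarith, by linarith [h6 n hn.1]⟩ ⟨by linarith, by linarith [h6 m hm.1]⟩ heq
    rw [hsr] at hs1 hs2
    have a1 : (n : ℤ) < m + 1 := htmono.lt_iff_lt.1 (hs1.trans hr2)
    have a2 : (m : ℤ) < n + 1 := htmono.lt_iff_lt.1 (hr1.trans hs2)
    omega
  · rintro y ⟨hy1, hy2, hy3⟩
    obtain ⟨θ, ht1, ht2, ht3⟩ := exists_cp hy2 (S.t 0)
    have hyK : y ∈ T.K i ∩ T.K j := by
      rw [hK]
      exact openSegment_subset_segment ℝ u v hy1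
    have hni : ∀ l, cp w ρ θ ∉ interior (T.K l) := by
      rw [ht3]
      exact Cross_not_int hne hyK.1 hyK.2
    have ht1' : S.t 0 < θ := by
      rcases eq_or_lt_of_le ht1 with h | h
      · exact absurd (S.inside 0) (by rw [h]; exact hni _)
      · exact h
    obtain ⟨n, hn6, hn1, hn2⟩ := S.exists_step ht1' ht2 hni
    have hchange := S.change_of_cross hρ hne hK (n := (n : ℤ)) (s := θ) hn1 hn2
      (by rw [ht3]; exact hy1) (by rw [ht3]; exact (hop y hy1).2) (by rw [ht3]; exact hy3)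
    refine ⟨n, ⟨hn6, hchange⟩, ?_⟩
    obtain ⟨hs1, hs2, hs3, hs4⟩ := Classical.choose_spec (hch n ⟨hn6, hchange⟩)
    set s := Classical.choose (hch n ⟨hn6, hchange⟩) with hs
    have : s = θ := by
      rcases lt_trichotomy s θ with h | h | h
      · exact absurd (S.before n θ hn1 hn2 hni s hs1.le h) (hs3 _)
      · exact h
      · exact absurd (S.after n θ hn1 hn2 hni s h hs2.le) (hs3 _)
    show cp w ρ s = y
    rw [this, ht3]

end CircleSampling

end Pool.TC
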