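import Pool.Agent.Lib.MP_d47d4c_co.TC.VertexStruct

set_option autoImplicit false

namespace Pool.TC

open Metric Set MeasureTheory

namespace TriTiling

variable {ι : Type} (T : TriTiling ι)

theorem count_finite (R : ℝ) : {i | (T.K i ∩ closedBall (0 : ℂ) R).Nonempty}.Finite := T.locfin R

theorem kap_angle {x : ℂ} (hx : T.IsVertex x) :
    ∑ q ∈ (T.corn_finite x).toFinset, (T.ang q.1 q.2 - Real.pi / 3) = Real.pi / 3 * (T.kap x : ℝ) := by
  rw [Finset.sum_sub_distrib, T.angle_sum (T.vertex_not_interior hx), Finset.sum_const,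
    ← ncard_eq_toFinset_card _ (T.corn_finite x), nsmul_eq_mul, kap]
  push_cast
  ring

/-- total curvature is at most three times the number of boundary triangles -/
theorem curv_sum (hd : ∀ i, ∀ x ∈ T.K i, ∀ y ∈ T.K i, dist x y ≤ 1) (hk : ∀ x, T.IsVertex x → 0 ≤ T.kap x) (R : ℝ) :
    ({x | T.IsVertex x ∧ x ∈ closedBall (0 : ℂ) R ∧ 1 ≤ T.kap x}.Finite) ∧
    (({x | T.IsVertex x ∧ x ∈ closedBall (0 : ℂ) R ∧ 1 ≤ T.kap x}.ncard : ℕ) : ℝ) ≤
      3 * ((T.count R : ℝ) - T.count (R - 1)) := by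
  classical
  set I := (T.count_finite R).toFinset with hI
  set J := (T.count_finite (R - 1)).toFinset with hJ
  have hmemI : ∀ i, i ∈ I ↔ (T.K i ∩ closedBall (0 : ℂ) R).Nonempty := fun i => by rw [hI, Finite.mem_toFinset]; rfl
  have hmemJ : ∀ i, i ∈ J ↔ (T.K i ∩ closedBall (0 : ℂ) (R - 1)).Nonempty := fun i => by rw [hJ, Finite.mem_toFinset]; rfl
  have hJI : J ⊆ I := by
    intro i hi
    rw [hmemJ] at hi
    rw [hmemI]
    exact hi.mono (inter_subset_inter_right _ (closedBall_subset_closedBall (by linarith)))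
  set f : ι × Fin 3 → ℝ := fun q => T.ang q.1 q.2 - Real.pi / 3 with hf
  set S : Finset (ι × Fin 3) := (I ×ˢ (Finset.univ : Finset (Fin 3))).filter (fun q => T.p q.1 q.2 ∈ closedBall (0 : ℂ) R)
    with hS
  have hmemS : ∀ q, q ∈ S ↔ T.p q.1 q.2 ∈ closedBall (0 : ℂ) R := by
    intro q
    rw [hS, Finset.mem_filter, Finset.mem_product, hmemI]
    constructor
    · rintro ⟨_, h⟩
      exact h
    · intro h
      exact ⟨⟨⟨_, T.corner_mem_K q.1 q.2, h⟩, Finset.mem_univ _⟩, h⟩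
  set V : Finset ℂ := S.image (fun q => T.p q.1 q.2) with hV
  have hmemV : ∀ x, x ∈ V ↔ T.IsVertex x ∧ x ∈ closedBall (0 : ℂ) R := by
    intro x
    rw [hV, Finset.mem_image]
    constructor
    · rintro ⟨q, hq, rfl⟩
      exact ⟨⟨q.1, q.2, rfl⟩, (hmemS q).mp hq⟩
    · rintro ⟨⟨i, m, rfl⟩, h⟩
      exact ⟨(i, m), (hmemS (i, m)).mpr h, rfl⟩
  have hset : {x | T.IsVertex x ∧ x ∈ closedBall (0 : ℂ) R ∧ 1 ≤ T.kap x} = ((V.filter (fun x => 1 ≤ T.kap x) : Finset ℂ) : Set ℂ) := by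
    ext x
    rw [Finset.mem_coe, Finset.mem_filter, hmemV, and_assoc]
    rfl
  rw [hset]
  refine ⟨Finset.finite_toSet _, ?_⟩
  rw [ncard_coe_finset]
  -- the sum over corners, grouped by vertices
  have h1 : ∑ q ∈ S, f q = ∑ x ∈ V, Real.pi / 3 * (T.kap x : ℝ) := by
    rw [← Finset.sum_fiberwise_of_maps_to (g := fun q => T.p q.1 q.2) (t := V) (fun q hq => by
      rw [hV]; exact Finset.mem_image_of_mem _ hq)]
    refine Finset.sum_congr rfl fun x hx => ?_
    rw [← T.kap_angle ((hmemV x).mp hx).1]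
    refine Finset.sum_congr ?_ fun q _ => rfl
    ext q
    rw [Finset.mem_filter, hmemS, Finite.mem_toFinset]
    constructor
    · rintro ⟨_, h⟩
      exact h
    · intro h
      have h' : T.p q.1 q.2 = x := h
      exact ⟨by rw [h']; exact ((hmemV x).mp hx).2, h'⟩
  -- grouped by triangles
  have h2 : ∑ q ∈ S, f q = ∑ i ∈ I, ∑ m : Fin 3, if T.p i m ∈ closedBall (0 : ℂ) R then f (i, m) else 0 := by
    rw [hS, Finset.sum_filter, Finset.sum_product]
  have h3 : ∀ i ∈ J, (∑ m : Fin 3, if T.p i m ∈ closedBall (0 : ℂ) R then f (i, m) else 0) = 0 := by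
    intro i hi
    obtain ⟨y, hy1, hy2⟩ := (hmemJ i).mp hi
    have hm : ∀ m, T.p i m ∈ closedBall (0 : ℂ) R := by
      intro m
      rw [mem_closedBall] at hy2 ⊢
      have := hd i _ (T.corner_mem_K i m) y hy1
      linarith [dist_triangle (T.p i m) y 0]
    rw [Fin.sum_univ_three, if_pos (hm 0), if_pos (hm 1), if_pos (hm 2)]
    have := T.ang_sum i
    simp only [hf]
    linarith
  have h4 : ∀ i ∈ I, (∑ m : Fin 3, if T.p i m ∈ closedBall (0 : ℂ) R then f (i, m) else 0) ≤ Real.pi := by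
    intro i _
    have hle : ∀ m, (if T.p i m ∈ closedBall (0 : ℂ) R then f (i, m) else 0) ≤ T.ang i m := by
      intro m
      have h0 := T.ang_pos i m
      split_ifs
      · simp only [hf]
        linarith [Real.pi_pos]
      · exact h0.le
    rw [Fin.sum_univ_three]
    have := T.ang_sum i
    linarith [hle 0, hle 1, hle 2]
  have h5 : ∑ q ∈ S, f q ≤ Real.pi * ((I.card : ℝ) - J.card) := by
    rw [h2, ← Finset.sum_sdiff hJI, Finset.sum_eq_zero h3, add_zero]
    have : ∑ i ∈ I \ J, (∑ m : Fin 3, if T.p i m ∈ closedBall (0 : ℂ) R then f (i, m) else 0) ≤ ∑ _i ∈ I \ J, Real.pi :=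
      Finset.sum_le_sum fun i hi => h4 i (Finset.sdiff_subset hi)
    refine this.trans ?_
    rw [Finset.sum_const, nsmul_eq_mul, Finset.card_sdiff_of_subset hJI, Nat.cast_sub (Finset.card_le_card hJI)]
    linarith
  have h6 : Real.pi / 3 * ((V.filter (fun x => 1 ≤ T.kap x)).card : ℝ) ≤ ∑ x ∈ V, Real.pi / 3 * (T.kap x : ℝ) := by
    have e1 : Real.pi / 3 * ((V.filter (fun x => 1 ≤ T.kap x)).card : ℝ) =
        ∑ x ∈ V.filter (fun x => 1 ≤ T.kap x), Real.pi / 3 * (1 : ℝ) := by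
      rw [Finset.sum_const, nsmul_eq_mul]
      ring
    rw [e1, Finset.sum_filter]
    refine Finset.sum_le_sum fun x hx => ?_
    have hpi := Real.pi_pos
    split_ifs with h
    · have : (1 : ℝ) ≤ (T.kap x : ℝ) := by exact_mod_cast h
      exact mul_le_mul_of_nonneg_left this (by positivity)
    · have : (0 : ℝ) ≤ (T.kap x : ℝ) := by exact_mod_cast hk x ((hmemV x).mp hx).1
      positivity
  have hcI : (T.count R : ℝ) = (I.card : ℝ) := by
    rw [count, ncard_eq_toFinset_card _ (T.count_finite R)]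
  have hcJ : (T.count (R - 1) : ℝ) = (J.card : ℝ) := by
    rw [count, ncard_eq_toFinset_card _ (T.count_finite (R - 1))]
  rw [hcI, hcJ]
  have h7 : Real.pi / 3 * ((V.filter (fun x => 1 ≤ T.kap x)).card : ℝ) ≤ Real.pi * ((I.card : ℝ) - J.card) :=
    h6.trans (h1 ▸ h5)
  have hpi := Real.pi_pos
  have h8 : Real.pi / 3 * ((V.filter (fun x => 1 ≤ T.kap x)).card : ℝ) ≤ Real.pi / 3 * (3 * ((I.card : ℝ) - J.card)) := by
    linarith
  exact le_of_mul_le_mul_left h8 (by positivity)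

end TriTiling

end Pool.TC
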