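import Mathlib

/-!
# Locally finite tilings of the plane by triangles: definitions
-/

set_option autoImplicit false

namespace Pool.TC

open Metric Set MeasureTheory

/-- the closed triangle with corners `p 0, p 1, p 2` -/
def tri (p : Fin 3 → ℂ) : Set ℂ := convexHull ℝ (Set.range p)

/-- a locally finite covering of the plane by nondegenerate closed triangles with disjoint interiors -/
structure TriTiling (ι : Type) where
  p : ι → Fin 3 → ℂ
  indep : ∀ i, AffineIndependent ℝ (p i)
  cover : ∀ x : ℂ, ∃ i, x ∈ tri (p i)
  disj : ∀ i j, i ≠ j → Disjoint (interior (tri (p i))) (interior (tri (p j)))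
  locfin : ∀ R : ℝ, {i | (tri (p i) ∩ closedBall (0 : ℂ) R).Nonempty}.Finite

namespace TriTiling

variable {ι : Type} (T : TriTiling ι)

/-- the closed triangle with index `i` -/
def K (i : ι) : Set ℂ := tri (T.p i)

/-- corners of triangles -/
def IsVertex (x : ℂ) : Prop := ∃ i m, T.p i m = x

/-- the triangles containing `x` -/
def star (x : ℂ) : Set ι := {i | x ∈ T.K i}

/-- degree of a vertex = number of triangles containing it -/
noncomputable def deg (x : ℂ) : ℕ := (T.star x).ncard

/-- the corners at `x` -/
def corn (x : ℂ) : Set (ι × Fin 3) := {q | T.p q.1 q.2 = x}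

/-- the triangles containing `x`, not as a corner -/
def wide (x : ℂ) : Set ι := {i | x ∈ T.K i ∧ ∀ m, T.p i m ≠ x}

/-- curvature of a vertex -/
noncomputable def kap (x : ℂ) : ℤ := 6 - 3 * ((T.wide x).ncard : ℤ) - ((T.corn x).ncard : ℤ)

/-- number of triangles meeting the closed disc of radius `R` -/
noncomputable def count (R : ℝ) : ℕ := {i | (T.K i ∩ closedBall (0 : ℂ) R).Nonempty}.ncard

/-- the triangles `i` and `j` have a common border -/
def Adj (i j : ι) : Prop := i ≠ j ∧ (T.K i ∩ T.K j).Nontrivial

end TriTiling

end Pool.TC
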