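import Mathlib

set_option autoImplicit false

namespace Pool.TC

private theorem discFact1 : ∀ a a' c c' : ZMod 3, c ≠ a → c' ≠ a' → (a' ≠ a → c' = c) →
    (if c' - a' = 1 then (1 : ZMod 2) else 0) = (if c - a = 1 then (1 : ZMod 2) else 0) +
      (if a' ≠ a then (1 : ZMod 2) else 0) + (if c' ≠ c then (1 : ZMod 2) else 0) := by
  decide

private theorem discFact2 : ∀ a c c' d : ZMod 3, c' ≠ c → c ≠ a → c' ≠ a → d ≠ c → d ≠ c' →
    d - c ≠ c - a := by
  decide

private theorem discFact3 : ∀ a b c d e f : ZMod 3, a ≠ 0 → b ≠ 0 → c ≠ 0 → d ≠ 0 → e ≠ 0 →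
    f ≠ 0 → a + b + c + d + e + f = 0 →
    (b = a ∧ c = a ∧ d = a ∧ e = a ∧ f = a) ∨
    ((if a = 1 then (1 : ZMod 2) else 0) + (if b = 1 then (1 : ZMod 2) else 0) +
      ((if c = 1 then (1 : ZMod 2) else 0) + (if d = 1 then (1 : ZMod 2) else 0)) +
      ((if e = 1 then (1 : ZMod 2) else 0) + (if f = 1 then (1 : ZMod 2) else 0))) = 1 := by
  decide +kernel

private theorem discCore (M : ℕ) (hM : 0 < M) (f : ℤ → ZMod 3)
    (hper : ∀ n, f (n + 6 * M) = f n) (ha : ∀ n, f (n + M) ≠ f n)
    (hX : ∀ n, f (n + 1) ≠ f n → f (n + M + 1) = f (n + M)) :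
    Odd ((Finset.range (6 * M)).filter (fun n : ℕ => f ((n : ℤ) + 1) ≠ f n)).card := by
  classical
  set b : ℤ → ZMod 2 := fun n => if f (n + M) - f n = 1 then 1 else 0 with hb
  set χ : ℤ → ZMod 2 := fun n => if f (n + 1) ≠ f n then 1 else 0 with hχ
  have hstep : ∀ n, b (n + 1) = b n + χ n + χ (n + M) := by
    intro n
    have h1 := discFact1 (f n) (f (n + 1)) (f (n + M)) (f (n + M + 1)) (ha n) (by
      have h2 := ha (n + 1)
      have h3 : n + 1 + (M : ℤ) = n + M + 1 := by ring
      rwa [h3] at h2) (hX n)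
    have h3 : n + 1 + (M : ℤ) = n + M + 1 := by ring
    simp only [hb, hχ, h3]
    exact h1
  -- blocks
  set C : ℕ → ZMod 2 := fun j => ∑ n ∈ Finset.range M, χ ((j : ℤ) * M + n) with hC
  have hblock : ∀ j : ℕ, C j + C (j + 1) = b ((j : ℤ) * M) + b (((j : ℤ) + 1) * M) := by
    intro j
    have h1 : ∀ m : ℕ, ∑ n ∈ Finset.range m, (χ ((j : ℤ) * M + n) + χ ((j : ℤ) * M + n + M)) =
        b ((j : ℤ) * M) + b ((j : ℤ) * M + m) := by
      intro m
      induction m with
      | zero =>
        rw [Finset.sum_range_zero, Nat.cast_zero, add_zero, CharTwo.add_self_eq_zero]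
      | succ m ih =>
        have e1 : (j : ℤ) * M + ((m + 1 : ℕ) : ℤ) = (j : ℤ) * M + m + 1 := by push_cast; ring
        rw [Finset.sum_range_succ, ih, e1, hstep]
        ring
    have h2 := h1 M
    rw [Finset.sum_add_distrib] at h2
    have h3 : (((j : ℤ) + 1) * M) = (j : ℤ) * M + M := by ring
    rw [h3, ← h2]
    congr 1
    refine Finset.sum_congr rfl fun n _ => ?_
    congr 1
    push_cast
    ring
  have hcount : (((Finset.range (6 * M)).filter
      (fun n : ℕ => f ((n : ℤ) + 1) ≠ f n)).card : ZMod 2) =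
      C 0 + C 1 + (C 2 + C 3) + (C 4 + C 5) := by
    rw [Finset.card_filter]
    push_cast
    have h1 : ∀ m : ℕ, ∑ n ∈ Finset.range (m * M), χ (n : ℤ) = ∑ j ∈ Finset.range m, C j := by
      intro m
      induction m with
      | zero => simp
      | succ m ih =>
        have e1 : ∀ n : ℕ, ((m * M + n : ℕ) : ℤ) = (m : ℤ) * M + n := fun n => by push_cast; rfl
        rw [Nat.succ_mul, Finset.sum_range_add, ih, Finset.sum_range_succ,
          Finset.sum_congr rfl fun n _ => congrArg χ (e1 n)]
    have h2 := h1 6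
    rw [Finset.sum_range_succ, Finset.sum_range_succ, Finset.sum_range_succ,
      Finset.sum_range_succ, Finset.sum_range_succ, Finset.sum_range_succ,
      Finset.sum_range_zero] at h2
    rw [zero_add] at h2
    refine Eq.trans ?_ (h2.trans ?_)
    · refine Finset.sum_congr rfl fun n _ => ?_
      simp only [hχ]
    · ring
  set E : ℕ → ZMod 3 := fun j => f ((j : ℤ) * M + M) - f ((j : ℤ) * M) with hE
  have hE0 : ∀ j, E j ≠ 0 := fun j => sub_ne_zero.2 (ha _)
  have hEs : E 0 + E 1 + E 2 + E 3 + E 4 + E 5 = 0 := by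
    have h0 : f 0 = f (6 * M) := by
      have h1 := hper 0
      rw [zero_add] at h1
      exact h1.symm
    simp only [hE]
    have e0 : ((0 : ℕ) : ℤ) * M + M = M := by push_cast; ring
    have e0' : ((0 : ℕ) : ℤ) * M = 0 := by push_cast; ring
    have e1 : ((1 : ℕ) : ℤ) * M + M = 2 * M := by push_cast; ring
    have e1' : ((1 : ℕ) : ℤ) * M = M := by push_cast; ring
    have e2 : ((2 : ℕ) : ℤ) * M + M = 3 * M := by push_cast; ring
    have e2' : ((2 : ℕ) : ℤ) * M = 2 * M := by push_cast; ring
    have e3 : ((3 : ℕ) : ℤ) * M + M = 4 * M := by push_cast; ring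
    have e3' : ((3 : ℕ) : ℤ) * M = 3 * M := by push_cast; ring
    have e4 : ((4 : ℕ) : ℤ) * M + M = 5 * M := by push_cast; ring
    have e4' : ((4 : ℕ) : ℤ) * M = 4 * M := by push_cast; ring
    have e5 : ((5 : ℕ) : ℤ) * M + M = 6 * M := by push_cast; ring
    have e5' : ((5 : ℕ) : ℤ) * M = 5 * M := by push_cast; ring
    rw [e0, e0', e1, e1', e2, e2', e3, e3', e4, e4', e5, e5', h0]
    ring
  have hbE : ∀ j : ℕ, b ((j : ℤ) * M) = if E j = 1 then 1 else 0 := fun j => rfl
  rcases discFact3 _ _ _ _ _ _ (hE0 0) (hE0 1) (hE0 2) (hE0 3) (hE0 4) (hE0 5) hEs with h | h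
  · exfalso
    obtain ⟨h1, h2, h3, h4, h5⟩ := h
    have hEper : Function.Periodic E 6 := by
      intro j
      simp only [hE]
      have e1 : ((j + 6 : ℕ) : ℤ) * M + M = (j : ℤ) * M + M + 6 * M := by push_cast; ring
      have e2 : ((j + 6 : ℕ) : ℤ) * M = (j : ℤ) * M + 6 * M := by push_cast; ring
      rw [e1, e2, hper, hper]
    have hEall : ∀ j, E j = E 0 := by
      intro j
      rw [← hEper.map_mod_nat j]
      have h6 : j % 6 < 6 := Nat.mod_lt _ (by norm_num)
      interval_cases j % 6
      · rfl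
      · exact h1
      · exact h2
      · exact h3
      · exact h4
      · exact h5
    -- no changes
    have hno : ∀ n : ℕ, (∀ j : ℕ, f ((n : ℤ) + j * M + M) - f ((n : ℤ) + j * M) = E 0) ∧
        ∀ j : ℕ, f ((n : ℤ) + j * M + 1) = f ((n : ℤ) + j * M) := by
      have hlev : ∀ n : ℕ, (∀ j : ℕ, f ((n : ℤ) + j * M + M) - f ((n : ℤ) + j * M) = E 0) →
          ∀ j : ℕ, f ((n : ℤ) + j * M + 1) = f ((n : ℤ) + j * M) := by
        intro n hn
        have hsucc : ∀ j : ℕ, f ((n : ℤ) + j * M + M + 1) = f ((n : ℤ) + j * M + M) := by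
          intro j
          by_contra hcon
          set m : ℤ := (n : ℤ) + j * M with hm
          have h6 : f (m + 1) = f m := by
            by_contra h7
            exact hcon (hX m h7)
          have h7 := ha (m + M)
          have h8 := ha (m + M + 1)
          have h9 := hX (m + M) hcon
          have h10 : m + M + 1 + M = m + M + M + 1 := by ring
          rw [h10, h9] at h8
          have h11 := ha m
          have h12 := ha (m + 1)
          have h13 : m + 1 + M = m + M + 1 := by ring
          rw [h13, h6] at h12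
          apply discFact2 (f m) (f (m + M)) (f (m + M + 1)) (f (m + M + M)) hcon h11 h12 h7 h8
          have h14 := hn j
          have h15 := hn (j + 1)
          have h16 : (n : ℤ) + ((j + 1 : ℕ) : ℤ) * M = m + M := by
            rw [hm]; push_cast; ring
          rw [h16] at h15
          rw [← hm] at h14
          rw [h15, h14]
        intro j
        have h6 := hsucc (j + 5)
        have h7 : (n : ℤ) + ((j + 5 : ℕ) : ℤ) * M + M + 1 = (n : ℤ) + j * M + 1 + 6 * M := by
          push_cast; ring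
        have h8 : (n : ℤ) + ((j + 5 : ℕ) : ℤ) * M + M = (n : ℤ) + j * M + 6 * M := by
          push_cast; ring
        rw [h7, h8, hper, hper] at h6
        exact h6
      intro n
      induction n with
      | zero =>
        have h6 : ∀ j : ℕ, f (((0 : ℕ) : ℤ) + j * M + M) - f (((0 : ℕ) : ℤ) + j * M) = E 0 := by
          intro j
          rw [Nat.cast_zero, zero_add]
          exact hEall j
        exact ⟨h6, hlev 0 h6⟩
      | succ n ih =>
        have h6 : ∀ j : ℕ, f (((n + 1 : ℕ) : ℤ) + j * M + M) - f (((n + 1 : ℕ) : ℤ) + j * M) =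
            E 0 := by
          intro j
          have h7 := ih.2 j
          have h8 := ih.2 (j + 1)
          have h9 : (n : ℤ) + ((j + 1 : ℕ) : ℤ) * M + 1 = ((n + 1 : ℕ) : ℤ) + j * M + M := by
            push_cast; ring
          have h10 : (n : ℤ) + ((j + 1 : ℕ) : ℤ) * M = (n : ℤ) + j * M + M := by
            push_cast; ring
          have h11 : (n : ℤ) + j * M + 1 = ((n + 1 : ℕ) : ℤ) + j * M := by
            push_cast; ring
          rw [h9, h10] at h8
          rw [h11] at h7
          rw [h7, h8]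
          exact ih.1 j
        exact ⟨h6, hlev (n + 1) h6⟩
    have hconst : ∀ n : ℕ, f (n : ℤ) = f 0 := by
      intro n
      induction n with
      | zero => simp
      | succ n ih =>
        have h6 := (hno n).2 0
        rw [Nat.cast_zero, zero_mul, add_zero] at h6
        rw [Nat.cast_succ, h6, ih]
    have h6 := ha 0
    rw [zero_add, hconst M] at h6
    exact h6 rfl
  · have h1 := hblock 0
    have h2 := hblock 2
    have h3 := hblock 4
    have e1 : ((0 : ℕ) : ℤ) + 1 = ((1 : ℕ) : ℤ) := by norm_num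
    have e2 : ((2 : ℕ) : ℤ) + 1 = ((3 : ℕ) : ℤ) := by norm_num
    have e3 : ((4 : ℕ) : ℤ) + 1 = ((5 : ℕ) : ℤ) := by norm_num
    rw [e1, hbE, hbE] at h1
    rw [e2, hbE, hbE] at h2
    rw [e3, hbE, hbE] at h3
    have h4 : (((Finset.range (6 * M)).filter
        (fun n : ℕ => f ((n : ℤ) + 1) ≠ f n)).card : ZMod 2) = 1 := by
      rw [hcount]
      have h5 : C 0 + C 1 = (if E 0 = 1 then (1 : ZMod 2) else 0) + (if E 1 = 1 then 1 else 0) := h1
      have h6 : C 2 + C 3 = (if E 2 = 1 then (1 : ZMod 2) else 0) + (if E 3 = 1 then 1 else 0) := h2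
      have h7 : C 4 + C 5 = (if E 4 = 1 then (1 : ZMod 2) else 0) + (if E 5 = 1 then 1 else 0) := h3
      rw [h5, h6, h7]
      exact h
    exact ZMod.natCast_eq_one_iff_odd.1 h4

/-- a cyclic word of length `6M` over three letters with `g (n+M) ≠ g n` and without simultaneous changes at `n` and `n+M`
has an odd number of changes -/
theorem disc3 {α : Type} [DecidableEq α] (Γ : Finset α) (hΓ : Γ.card ≤ 3) (M : ℕ) (hM : 0 < M) (g : ℤ → α)
    (hg : ∀ n, g n ∈ Γ) (hper : ∀ n, g (n + 6 * M) = g n) (ha : ∀ n, g (n + M) ≠ g n)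
    (hX : ∀ n, g (n + 1) ≠ g n → g (n + M + 1) = g (n + M)) :
    Odd ((Finset.range (6 * M)).filter (fun n : ℕ => g ((n : ℤ) + 1) ≠ g n)).card := by
  classical
  set f : ℤ → ZMod 3 := fun n => (Fin.castLE hΓ (Γ.equivFin ⟨g n, hg n⟩) : Fin 3) with hf
  have hfg : ∀ n m, f n = f m ↔ g n = g m := by
    intro n m
    constructor
    · intro h
      have h1 := Fin.castLE_injective hΓ h
      have h2 := Γ.equivFin.injective h1
      exact congrArg Subtype.val h2
    · intro h
      have h1 : (⟨g n, hg n⟩ : Γ) = ⟨g m, hg m⟩ := Subtype.ext h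
      simp only [hf, h1]
  have h1 := discCore M hM f (fun n => (hfg _ _).2 (hper n)) (fun n h => ha n ((hfg _ _).1 h))
    (fun n h => (hfg _ _).2 (hX n fun h' => h ((hfg _ _).2 h')))
  have h2 : (Finset.range (6 * M)).filter (fun n : ℕ => g ((n : ℤ) + 1) ≠ g n) =
      (Finset.range (6 * M)).filter (fun n : ℕ => f ((n : ℤ) + 1) ≠ f n) := by
    ext n
    rw [Finset.mem_filter, Finset.mem_filter, Ne, Ne, hfg]
  rw [h2]
  exact h1

theorem disc2 {α : Type} [DecidableEq α] (Γ : Finset α) (hΓ : Γ.card ≤ 2) (M : ℕ) (hM : 0 < M) (g : ℤ → α)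
    (hg : ∀ n, g n ∈ Γ) (ha : ∀ n, g (n + M) ≠ g n)
    (hX : ∀ n, g (n + 1) ≠ g n → g (n + M + 1) = g (n + M)) : False := by
  classical
  have hno : ∀ n, g (n + 1) = g n := by
    intro n
    by_contra hcon
    have h1 := hX n hcon
    have h2 := ha n
    have h3 := ha (n + 1)
    have h4 : n + 1 + (M : ℤ) = n + M + 1 := by ring
    rw [h4, h1] at h3
    have h5 : ({g n, g (n + 1), g (n + M)} : Finset α) ⊆ Γ := by
      intro a ha'
      simp only [Finset.mem_insert, Finset.mem_singleton] at ha'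
      rcases ha' with rfl | rfl | rfl <;> exact hg _
    have h6 := Finset.card_le_card h5
    rw [Finset.card_insert_of_notMem, Finset.card_pair (Ne.symm h3)] at h6
    · omega
    · simp only [Finset.mem_insert, Finset.mem_singleton, not_or]
      exact ⟨fun h => hcon h.symm, fun h => h2 h.symm⟩
  have hconst : ∀ n : ℕ, g (n : ℤ) = g 0 := by
    intro n
    induction n with
    | zero => simp
    | succ n ih => rw [Nat.cast_succ, hno, ih]
  have h6 := ha 0
  rw [zero_add, hconst M] at h6
  exact h6 rfl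

end Pool.TC
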