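import Pool.Agent.Lib.MP_d47d4c_co.TC.VertexStruct

set_option autoImplicit false

namespace Pool.TC

open Metric Set MeasureTheory

theorem functional_eq (f : ℂ →ₗ[ℝ] ℝ) (z : ℂ) : f z = z.re * f 1 + z.im * f Complex.I := by
  have e : z = z.re • (1 : ℂ) + z.im • Complex.I := by
    rw [Complex.real_smul, Complex.real_smul, mul_one, Complex.re_add_im]
  conv_lhs => rw [e]
  rw [map_add, map_smul, map_smul, smul_eq_mul, smul_eq_mul]

/-- the kernel of a nonzero functional on the plane is a line -/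
theorem exists_ker_line {f : ℂ →ₗ[ℝ] ℝ} (hf : f ≠ 0) :
    ∃ d : ℂ, d ≠ 0 ∧ f d = 0 ∧ ∀ z, f z = 0 → ∃ s : ℝ, z = (s : ℂ) * d := by
  set α := f 1 with hα
  set β := f Complex.I with hβ
  have hab : α ^ 2 + β ^ 2 ≠ 0 := by
    intro h
    have h1 : α = 0 := by nlinarith [sq_nonneg α, sq_nonneg β]
    have h2 : β = 0 := by nlinarith [sq_nonneg α, sq_nonneg β]
    apply hf
    ext z
    rw [functional_eq f z, ← hα, ← hβ, h1, h2, mul_zero, mul_zero, add_zero]
    rfl
  refine ⟨⟨-β, α⟩, ?_, ?_, ?_⟩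
  · intro h
    have h1 : -β = 0 := congrArg Complex.re h
    have h2 : α = 0 := congrArg Complex.im h
    apply hab
    rw [h2, neg_eq_zero.mp h1]
    ring
  · rw [functional_eq f ⟨-β, α⟩]
    show -β * α + α * β = 0
    ring
  · intro z hz
    rw [functional_eq f z] at hz
    refine ⟨(α * z.im - β * z.re) / (α ^ 2 + β ^ 2), ?_⟩
    apply Complex.ext
    · rw [Complex.re_ofReal_mul]
      show z.re = (α * z.im - β * z.re) / (α ^ 2 + β ^ 2) * -β
      field_simp
      linear_combination α * hz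
    · rw [Complex.im_ofReal_mul]
      show z.im = (α * z.im - β * z.re) / (α ^ 2 + β ^ 2) * α
      field_simp
      linear_combination β * hz

namespace TriTiling

variable {ι : Type} (T : TriTiling ι)

/-- separation of two different triangles by a line -/
theorem exists_sep {i j : ι} (hij : i ≠ j) : ∃ (f : ℂ →ₗ[ℝ] ℝ) (c : ℝ), f ≠ 0 ∧ (∀ x ∈ T.K i, f x ≤ c) ∧
    (∀ x ∈ interior (T.K i), f x < c) ∧ (∀ x ∈ T.K j, c ≤ f x) ∧ (∀ x ∈ interior (T.K j), c < f x) := by
  obtain ⟨f, c, h1, h2⟩ := geometric_hahn_banach_open_open (T.K_convex i).interior isOpen_interior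
    (T.K_convex j).interior isOpen_interior (T.disj i j hij)
  refine ⟨f, c, ?_, ?_, h1, ?_, h2⟩
  · intro h0
    obtain ⟨a, ha⟩ := tri_interior_nonempty (T.indep i)
    obtain ⟨b, hb⟩ := tri_interior_nonempty (T.indep j)
    have e1 := h1 a ha
    have e2 := h2 b hb
    have e3 : ∀ z, f z = 0 := fun z => by
      have := LinearMap.congr_fun h0 z
      exact this
    rw [e3] at e1 e2
    linarith
  · intro x hx
    rw [← T.K_closure_interior i] at hx
    have hcl : IsClosed {z : ℂ | f z ≤ c} := isClosed_le f.continuous continuous_const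
    exact hcl.closure_subset_iff.mpr (fun z hz => (h1 z hz).le) hx
  · intro x hx
    rw [← T.K_closure_interior j] at hx
    have hcl : IsClosed {z : ℂ | c ≤ f z} := isClosed_le continuous_const f.continuous
    exact hcl.closure_subset_iff.mpr (fun z hz => (h2 z hz).le) hx

theorem Adj.symm {T : TriTiling ι} {i j : ι} (h : T.Adj i j) : T.Adj j i :=
  ⟨h.1.symm, by rw [inter_comm]; exact h.2⟩

/-- near a point `y` contained in exactly the triangles `i`, `j` the separating line lies in both -/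
theorem both_of_line {y : ℂ} {i j : ι} (hstar : T.star y = {i, j}) {f : ℂ →ₗ[ℝ] ℝ} {c : ℝ} (hf : f ≠ 0)
    (hi : ∀ x ∈ T.K i, f x ≤ c) (hj : ∀ x ∈ T.K j, c ≤ f x) :
    ∃ r > 0, ∀ z ∈ ball y r, f z = c → z ∈ T.K i ∧ z ∈ T.K j := by
  obtain ⟨r, hr, hloc⟩ := T.local_star y
  obtain ⟨ν, hν⟩ : ∃ ν : ℂ, f ν > 0 := by
    by_contra hcon
    push Not at hcon
    apply hf
    ext z
    have h1 := hcon z
    have h2 := hcon (-z)
    rw [map_neg] at h2
    exact le_antisymm h1 (by show (0 : ℝ) ≤ f z; linarith)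
  refine ⟨r, hr, fun z hz hfz => ?_⟩
  have hcover : ∀ z' ∈ ball y r, z' ∈ T.K i ∨ z' ∈ T.K j := by
    intro z' hz'
    obtain ⟨l, hl⟩ := T.cover z'
    have h1 := hloc l ⟨z', hl, hz'⟩
    rw [hstar] at h1
    rcases h1 with rfl | rfl
    · exact Or.inl hl
    · exact Or.inr hl
  have hcont : ∀ σ : ℝ, Filter.Tendsto (fun t : ℝ => z + (σ * t : ℝ) • ν) (nhdsWithin 0 (Ioi 0)) (nhds z) := by
    intro σ
    have h1 : Continuous (fun t : ℝ => z + (σ * t : ℝ) • ν) := by fun_prop
    have h2 := h1.tendsto 0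
    rw [mul_zero, zero_smul, add_zero] at h2
    exact h2.mono_left nhdsWithin_le_nhds
  have hball : ∀ σ : ℝ, ∀ᶠ t in nhdsWithin (0 : ℝ) (Ioi 0), z + (σ * t : ℝ) • ν ∈ ball y r := fun σ =>
    (hcont σ).eventually (isOpen_ball.mem_nhds hz)
  have hval : ∀ σ t : ℝ, f (z + (σ * t : ℝ) • ν) = c + σ * t * f ν := by
    intro σ t
    rw [map_add, map_smul, hfz, smul_eq_mul]
  constructor
  · refine (T.K_closed i).mem_of_tendsto (hcont (-1)) ?_
    filter_upwards [hball (-1), self_mem_nhdsWithin] with t ht ht0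
    rcases hcover _ ht with h | h
    · exact h
    · exfalso
      have := hj _ h
      rw [hval] at this
      have ht0' : (0 : ℝ) < t := ht0
      nlinarith [mul_pos ht0' hν]
  · refine (T.K_closed j).mem_of_tendsto (hcont 1) ?_
    filter_upwards [hball 1, self_mem_nhdsWithin] with t ht ht0
    rcases hcover _ ht with h | h
    · exfalso
      have := hi _ h
      rw [hval] at this
      have ht0' : (0 : ℝ) < t := ht0
      nlinarith [mul_pos ht0' hν]
    · exact h

/-- a common point of two triangles which is not a vertex is interior to a common border -/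
theorem adj_of_nonvertex {y : ℂ} (hy : ¬ T.IsVertex y) {i j : ι} (hij : i ≠ j) (hi : y ∈ T.K i) (hj : y ∈ T.K j) :
    T.Adj i j := by
  have hci : ∀ m, T.p i m ≠ y := fun m h => hy ⟨i, m, h⟩
  have hcj : ∀ m, T.p j m ≠ y := fun m h => hy ⟨j, m, h⟩
  obtain ⟨hstar, -⟩ := T.star_of_two hij hi hj hci hcj
  obtain ⟨f, c, hf, h1, -, h2, -⟩ := T.exists_sep hij
  obtain ⟨r, hr, hline⟩ := T.both_of_line hstar hf h1 h2
  obtain ⟨d, hd, hfd, -⟩ := exists_ker_line hf
  have hdn : 0 < ‖d‖ := norm_pos_iff.mpr hd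
  have hfy : f y = c := le_antisymm (h1 y hi) (h2 y hj)
  have hz := hline (y + (r / (2 * ‖d‖) : ℝ) • d) (by
    rw [mem_ball, dist_eq_norm, add_sub_cancel_left, norm_smul, Real.norm_eq_abs, abs_of_pos (by positivity)]
    field_simp
    linarith) (by
    rw [map_add, map_smul, hfd, smul_zero, add_zero, hfy])
  refine ⟨hij, y, ⟨hi, hj⟩, _, hz, ?_⟩
  intro h
  have h3 : (r / (2 * ‖d‖) : ℝ) • d = 0 := by
    have : y + (r / (2 * ‖d‖) : ℝ) • d = y + 0 := by rw [add_zero]; exact h.symm
    exact add_left_cancel this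
  rcases smul_eq_zero.mp h3 with h4 | h4
  · have : 0 < r / (2 * ‖d‖) := by positivity
    linarith
  · exact hd h4

/-- the common border of two adjacent triangles -/
theorem edge {i j : ι} (h : T.Adj i j) : ∃ u v : ℂ, u ≠ v ∧ T.K i ∩ T.K j = segment ℝ u v ∧ T.IsVertex u ∧ T.IsVertex v ∧
    ∀ x ∈ openSegment ℝ u v, ¬ T.IsVertex x ∧ T.star x = {i, j} := by
  obtain ⟨hij, hnt⟩ := h
  set C := T.K i ∩ T.K j with hC
  have hCc : IsCompact C := (T.K_compact i).inter (T.K_compact j)
  have hCv : Convex ℝ C := (T.K_convex i).inter (T.K_convex j)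
  obtain ⟨f, c, hf, h1, -, h2, -⟩ := T.exists_sep hij
  have hfC : ∀ z ∈ C, f z = c := fun z hz => le_antisymm (h1 z hz.1) (h2 z hz.2)
  obtain ⟨d, hd, hfd, hker⟩ := exists_ker_line hf
  obtain ⟨x, hx, y, hy, hxy⟩ := hnt
  obtain ⟨⟨u, v⟩, ⟨hu, hv⟩, hmax⟩ := (hCc.prod hCc).exists_isMaxOn ⟨(x, y), hx, hy⟩ continuous_dist.continuousOn
  have hmax' : ∀ a ∈ C, ∀ b ∈ C, dist a b ≤ dist u v := fun a ha b hb => hmax (show (a, b) ∈ C ×ˢ C from ⟨ha, hb⟩)
  have huv : u ≠ v := by
    intro h
    have := hmax' x hx y hy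
    rw [h, dist_self] at this
    exact hxy (dist_le_zero.mp this)
  have hline : ∀ z, f z = c → ∃ r : ℝ, z - u = (r : ℂ) * (v - u) := by
    intro z hz
    obtain ⟨s, hs⟩ := hker (z - u) (by rw [map_sub, hz, hfC u hu, sub_self])
    obtain ⟨t, ht⟩ := hker (v - u) (by rw [map_sub, hfC v hv, hfC u hu, sub_self])
    have ht0 : t ≠ 0 := by
      rintro rfl
      rw [Complex.ofReal_zero, zero_mul] at ht
      exact huv (sub_eq_zero.mp ht).symm
    refine ⟨s / t, ?_⟩
    rw [hs, ht]
    have : (t : ℂ) ≠ 0 := by exact_mod_cast ht0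
    push_cast
    field_simp
  have hnorm : 0 < ‖v - u‖ := norm_pos_iff.mpr (sub_ne_zero.mpr huv.symm)
  have hduv : dist u v = ‖v - u‖ := by rw [dist_comm, dist_eq_norm]
  have hseg : C = segment ℝ u v := by
    apply Subset.antisymm
    · intro z hz
      obtain ⟨r, hr⟩ := hline z (hfC z hz)
      have e1 : dist z u ≤ dist u v := hmax' z hz u hu
      have e2 : dist z v ≤ dist u v := hmax' z hz v hv
      have e3 : z - v = ((r - 1 : ℝ) : ℂ) * (v - u) := by
        push_cast
        linear_combination hr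
      rw [dist_eq_norm, hr, norm_mul, Complex.norm_real, Real.norm_eq_abs, hduv] at e1
      rw [dist_eq_norm, e3, norm_mul, Complex.norm_real, Real.norm_eq_abs, hduv] at e2
      have e4 : |r| ≤ 1 := by
        by_contra hcon
        push Not at hcon
        nlinarith
      have e5 : |r - 1| ≤ 1 := by
        by_contra hcon
        push Not at hcon
        nlinarith
      rw [abs_le] at e4 e5
      refine ⟨1 - r, r, by linarith, by linarith, by ring, ?_⟩
      rw [Complex.real_smul, Complex.real_smul]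
      push_cast
      linear_combination -hr
    · exact hCv.segment_subset hu hv
  have hopen : ∀ x ∈ openSegment ℝ u v, ¬ T.IsVertex x ∧ T.star x = {i, j} := by
    intro x hx
    have hxC : x ∈ C := by rw [hseg]; exact openSegment_subset_segment ℝ u v hx
    have hci : ∀ m, T.p i m ≠ x := fun m hm => corner_extreme (T.indep i) m hu.1 hv.1 huv (by rw [hm]; exact hx)
    have hcj : ∀ m, T.p j m ≠ x := fun m hm => corner_extreme (T.indep j) m hu.2 hv.2 huv (by rw [hm]; exact hx)
    exact (T.star_of_two hij hxC.1 hxC.2 hci hcj).symm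
  have hend : ∀ a b : ℂ, a ∈ C → b ∈ C → dist a b = dist u v → T.IsVertex a := by
    intro a b ha hb hab
    by_contra hnv
    obtain ⟨hstar, -⟩ := T.star_of_two hij ha.1 ha.2 (fun m hm => hnv ⟨i, m, hm⟩) (fun m hm => hnv ⟨j, m, hm⟩)
    obtain ⟨r, hr, hl⟩ := T.both_of_line hstar hf h1 h2
    have hdpos : 0 < ‖a - b‖ := by
      rw [← dist_eq_norm, hab, hduv]
      exact hnorm
    have hz := hl (a + (r / (2 * ‖a - b‖) : ℝ) • (a - b)) (by
      rw [mem_ball, dist_eq_norm, add_sub_cancel_left, norm_smul, Real.norm_eq_abs, abs_of_pos (by positivity)]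
      field_simp
      linarith) (by
      rw [map_add, map_smul, map_sub, hfC a ha, hfC b hb, sub_self, smul_zero, add_zero])
    have e1 := hmax' _ (show a + (r / (2 * ‖a - b‖) : ℝ) • (a - b) ∈ C from hz) b hb
    have e2 : a + (r / (2 * ‖a - b‖) : ℝ) • (a - b) - b = (1 + r / (2 * ‖a - b‖) : ℝ) • (a - b) := by
      rw [Complex.real_smul, Complex.real_smul]
      push_cast
      ring
    rw [dist_eq_norm, e2, norm_smul, Real.norm_eq_abs, abs_of_pos (by positivity), ← hab, dist_eq_norm] at e1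
    have e3 : 0 < r / (2 * ‖a - b‖) := by positivity
    nlinarith
  exact ⟨u, v, huv, hseg, hend u v hu hv rfl, hend v u hv hu (dist_comm v u), hopen⟩

end TriTiling

end Pool.TC
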