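import Pool.Agent.Lib.MP_d47d4c_co.TC.Curv

set_option autoImplicit false

namespace Pool.TC

open Metric Set MeasureTheory

theorem growth_aux {N : ℝ → ℝ} {c R1 : ℝ} (hc : 0 < c) (hR1 : 0 ≤ R1) (h0 : ∀ R, 0 ≤ N R) (h1 : ∀ R, 1 ≤ R → 1 ≤ N R)
    (hs : ∀ R, R1 ≤ R → N (R - 1) + c * R ^ 2 ≤ N R) : ∃ C > 0, ∀ R, 1 ≤ R → C * R ^ 3 ≤ N R := by
  have key : ∀ n : ℕ, ∀ R : ℝ, R1 ≤ R - n → 0 ≤ R - n → n * (c * (R - n) ^ 2) ≤ N R := by
    intro n
    induction n with
    | zero => intro R _ _; simpa using h0 R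
    | succ n ih =>
      intro R hR hR0
      push_cast at hR hR0 ⊢
      have e1 := hs R (by have : (0 : ℝ) ≤ n := Nat.cast_nonneg n; linarith)
      have e2 := ih (R - 1) (by linarith) (by linarith)
      have e3 : R - 1 - n = R - (n + 1) := by ring
      rw [e3] at e2
      have e4 : (R - (n + 1)) ^ 2 ≤ R ^ 2 := by
        have : (0 : ℝ) ≤ n := Nat.cast_nonneg n
        nlinarith
      nlinarith [mul_le_mul_of_nonneg_left e4 hc.le]
  set R2 := max 8 (2 * R1) with hR2
  have hR2pos : 0 < R2 := lt_of_lt_of_le (by norm_num) (le_max_left _ _)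
  refine ⟨min (9 * c / 128) (1 / R2 ^ 3), lt_min (by positivity) (by positivity), fun R hR => ?_⟩
  rcases le_total R2 R with h | h
  · have hR8 : 8 ≤ R := (le_max_left _ _).trans h
    have hRR : 2 * R1 ≤ R := (le_max_right _ _).trans h
    set n := ⌊R / 4⌋₊ with hn
    have hn1 : (n : ℝ) ≤ R / 4 := Nat.floor_le (by positivity)
    have hn2 : R / 4 < n + 1 := Nat.lt_floor_add_one _
    have e := key n R (by linarith) (by linarith)
    have e1 : (3 * R / 4) ^ 2 ≤ (R - n) ^ 2 := by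
      apply pow_le_pow_left₀ (by positivity)
      linarith
    have e2 : R / 8 ≤ (n : ℝ) := by linarith
    have e3 : R / 8 * (c * (3 * R / 4) ^ 2) ≤ n * (c * (R - n) ^ 2) := by
      apply mul_le_mul e2 (mul_le_mul_of_nonneg_left e1 hc.le) (by positivity) (by positivity)
    calc min (9 * c / 128) (1 / R2 ^ 3) * R ^ 3 ≤ (9 * c / 128) * R ^ 3 :=
          mul_le_mul_of_nonneg_right (min_le_left _ _) (by positivity)
      _ = R / 8 * (c * (3 * R / 4) ^ 2) := by ring
      _ ≤ N R := e3.trans e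
  · calc min (9 * c / 128) (1 / R2 ^ 3) * R ^ 3 ≤ (1 / R2 ^ 3) * R ^ 3 :=
          mul_le_mul_of_nonneg_right (min_le_right _ _) (by positivity)
      _ ≤ (1 / R2 ^ 3) * R2 ^ 3 := by
          apply mul_le_mul_of_nonneg_left (pow_le_pow_left₀ (by linarith) h 3) (by positivity)
      _ = 1 := by field_simp
      _ ≤ N R := h1 R hR

namespace TriTiling

variable {ι : Type} (T : TriTiling ι)

theorem one_le_count {R : ℝ} (hR : 0 ≤ R) : 1 ≤ T.count R := by
  rw [count, Nat.one_le_iff_ne_zero, ← Nat.pos_iff_ne_zero, ncard_pos (T.count_finite R)]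
  obtain ⟨i, hi⟩ := T.cover 0
  exact ⟨i, 0, hi, mem_closedBall_self hR⟩

/-- many points of positive curvature -/
theorem many_points {P : ℂ → Prop} {A : ℝ} (hA : 1 ≤ A) (hv : ∀ z : ℂ, ∃ x, P x ∧ dist z x ≤ A) {R : ℝ} (hR : 14 * A ≤ R)
    (hfin : {x | P x ∧ x ∈ closedBall (0 : ℂ) R}.Finite) :
    R ^ 2 / (144 * A ^ 2) ≤ (({x | P x ∧ x ∈ closedBall (0 : ℂ) R}.ncard : ℕ) : ℝ) := by
  classical
  choose g hg1 hg2 using hv
  set n := ⌊(R - A) / (6 * A)⌋₊ with hn
  have hA0 : 0 < A := by linarith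
  have hn1 : (n : ℝ) ≤ (R - A) / (6 * A) := Nat.floor_le (by apply div_nonneg <;> linarith)
  have hn2 : (R - A) / (6 * A) < n + 1 := Nat.lt_floor_add_one _
  have hn3 : 6 * A * n + A ≤ R := by
    rw [le_div_iff₀ (by positivity)] at hn1
    linarith
  have hn4 : R / (12 * A) ≤ n := by
    have e1 : R / (12 * A) + 1 ≤ (R - A) / (6 * A) := by
      rw [div_add_one (by positivity), div_le_div_iff₀ (by positivity) (by positivity)]
      nlinarith
    linarith
  set z : ℕ × ℕ → ℂ := fun q => ((3 * A * q.1 : ℝ) : ℂ) + ((3 * A * q.2 : ℝ) : ℂ) * Complex.I with hz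
  have hzre : ∀ q, (z q).re = 3 * A * q.1 := by
    intro q
    simp [hz]
  have hzim : ∀ q, (z q).im = 3 * A * q.2 := by
    intro q
    simp [hz]
  set G : Finset (ℕ × ℕ) := Finset.range n ×ˢ Finset.range n with hG
  have hmaps : ∀ q ∈ G, g (z q) ∈ {x | P x ∧ x ∈ closedBall (0 : ℂ) R} := by
    intro q hq
    refine ⟨hg1 _, ?_⟩
    rw [hG, Finset.mem_product, Finset.mem_range, Finset.mem_range] at hq
    have h1 : ‖z q‖ ≤ 6 * A * n := by
      refine (Complex.norm_le_abs_re_add_abs_im _).trans ?_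
      rw [hzre, hzim, abs_of_nonneg (by positivity), abs_of_nonneg (by positivity)]
      have a1 : (q.1 : ℝ) ≤ n := by exact_mod_cast hq.1.le
      have a2 : (q.2 : ℝ) ≤ n := by exact_mod_cast hq.2.le
      nlinarith
    rw [mem_closedBall]
    have h2 := hg2 (z q)
    rw [dist_comm] at h2
    have h3 := dist_triangle (g (z q)) (z q) 0
    rw [dist_zero_right] at h3
    rw [dist_zero_right (z q)] at h3
    rw [dist_zero_right]
    linarith
  have hinj : ∀ q ∈ G, ∀ q' ∈ G, g (z q) = g (z q') → q = q' := by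
    intro q _ q' _ h
    by_contra hne
    have h1 : dist (z q) (z q') ≤ 2 * A := by
      have a1 := hg2 (z q)
      have a2 := hg2 (z q')
      rw [← h] at a2
      have := dist_triangle_right (z q) (z q') (g (z q))
      linarith
    have h2 : 3 * A ≤ dist (z q) (z q') := by
      rw [dist_eq_norm]
      by_cases hq : q.1 = q'.1
      · have hq2 : q.2 ≠ q'.2 := fun h => hne (Prod.ext hq h)
        refine le_trans ?_ (Complex.abs_im_le_norm _)
        rw [Complex.sub_im, hzim, hzim, ← mul_sub, abs_mul, abs_of_pos (by positivity : (0 : ℝ) < 3 * A)]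
        have : (1 : ℝ) ≤ |(q.2 : ℝ) - q'.2| := by
          have h3 : (1 : ℤ) ≤ |(q.2 : ℤ) - q'.2| := by
            apply Int.one_le_abs
            intro h4
            apply hq2
            omega
          exact_mod_cast h3
        nlinarith
      · refine le_trans ?_ (Complex.abs_re_le_norm _)
        rw [Complex.sub_re, hzre, hzre, ← mul_sub, abs_mul, abs_of_pos (by positivity : (0 : ℝ) < 3 * A)]
        have : (1 : ℝ) ≤ |(q.1 : ℝ) - q'.1| := by
          have h3 : (1 : ℤ) ≤ |(q.1 : ℤ) - q'.1| := by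
            apply Int.one_le_abs
            intro h4
            apply hq
            omega
          exact_mod_cast h3
        nlinarith
    linarith
  have hcard : G.card ≤ {x | P x ∧ x ∈ closedBall (0 : ℂ) R}.ncard := by
    rw [ncard_eq_toFinset_card _ hfin]
    refine Finset.card_le_card_of_injOn (fun q => g (z q)) ?_ ?_
    · intro q hq
      rw [Finset.mem_coe, Finite.mem_toFinset]
      exact hmaps q hq
    · intro q hq q' hq' h
      exact hinj q hq q' hq' h
  rw [hG, Finset.card_product, Finset.card_range] at hcard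
  have h5 : ((n * n : ℕ) : ℝ) ≤ (({x | P x ∧ x ∈ closedBall (0 : ℂ) R}.ncard : ℕ) : ℝ) := by exact_mod_cast hcard
  refine le_trans ?_ h5
  push_cast
  have hRA : 0 ≤ R / (12 * A) := by
    apply div_nonneg <;> linarith
  calc R ^ 2 / (144 * A ^ 2) = (R / (12 * A)) * (R / (12 * A)) := by
        field_simp
        norm_num
    _ ≤ n * n := mul_le_mul hn4 hn4 hRA (Nat.cast_nonneg n)

theorem cubic_growth (hd : ∀ i, ∀ x ∈ T.K i, ∀ y ∈ T.K i, dist x y ≤ 1) (hk : ∀ x, T.IsVertex x → 0 ≤ T.kap x)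
    {A : ℝ} (hA : 1 ≤ A) (hv : ∀ z : ℂ, ∃ x, (T.IsVertex x ∧ 1 ≤ T.kap x) ∧ dist z x ≤ A) :
    ∃ C > 0, ∀ R, 1 ≤ R → C * R ^ 3 ≤ (T.count R : ℝ) := by
  refine growth_aux (c := 1 / (432 * A ^ 2)) (R1 := 14 * A) (by positivity) (by positivity) (fun R => Nat.cast_nonneg _)
    (fun R hR => by exact_mod_cast T.one_le_count (by linarith)) (fun R hR => ?_)
  obtain ⟨h1, h2⟩ := T.curv_sum hd hk R
  have hset : {x | T.IsVertex x ∧ x ∈ closedBall (0 : ℂ) R ∧ 1 ≤ T.kap x} =
      {x | (T.IsVertex x ∧ 1 ≤ T.kap x) ∧ x ∈ closedBall (0 : ℂ) R} := by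
    ext x
    constructor
    · rintro ⟨a, b, c⟩
      exact ⟨⟨a, c⟩, b⟩
    · rintro ⟨⟨a, c⟩, b⟩
      exact ⟨a, b, c⟩
  rw [hset] at h1 h2
  have h3 := many_points hA hv hR h1
  have h4 : 1 / (432 * A ^ 2) * R ^ 2 = (R ^ 2 / (144 * A ^ 2)) / 3 := by
    field_simp
    ring
  rw [h4]
  linarith

end TriTiling

end Pool.TC
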