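import Pool.Agent.Lib.MP_d47d4c_co.TC.SepT
import Pool.Agent.Lib.MP_d47d4c_co.TC.Growth

set_option autoImplicit false

namespace Pool.TC

open Metric Set MeasureTheory

/-- points of a disc at mutual distance at least one: grid bound -/
theorem pack_bound {α : Type} (s : Finset α) (y : α → ℂ) {R : ℝ} (hR : 1 ≤ R) (hy : ∀ a ∈ s, ‖y a‖ ≤ R)
    (hsep : ∀ a ∈ s, ∀ b ∈ s, a ≠ b → 1 ≤ dist (y a) (y b)) : (s.card : ℝ) ≤ 64 * R ^ 2 := by
  classical
  set n : ℤ := ⌈2 * R⌉ with hn
  have hn1 : (2 * R : ℝ) ≤ n := Int.le_ceil _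
  have hn2 : (n : ℝ) < 2 * R + 1 := Int.ceil_lt_add_one _
  have hn0 : 0 ≤ n := Int.ceil_nonneg (by linarith)
  set g : α → ℤ × ℤ := fun a => (⌊2 * (y a).re⌋, ⌊2 * (y a).im⌋) with hg
  have hmaps : ∀ a ∈ s, g a ∈ Finset.Icc (-n) n ×ˢ Finset.Icc (-n) n := by
    intro a ha
    have h1 := Complex.abs_re_le_norm (y a)
    have h2 := Complex.abs_im_le_norm (y a)
    have h3 := hy a ha
    have h4 := abs_le.mp (h1.trans h3)
    have h5 := abs_le.mp (h2.trans h3)
    rw [Finset.mem_product, Finset.mem_Icc, Finset.mem_Icc]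
    refine ⟨⟨?_, ?_⟩, ⟨?_, ?_⟩⟩
    · rw [hg, Int.le_floor]; push_cast; linarith [h4.1]
    · have : ((g a).1 : ℝ) ≤ n := (Int.floor_le _).trans (by linarith [h4.2])
      exact_mod_cast this
    · rw [hg, Int.le_floor]; push_cast; linarith [h5.1]
    · have : ((g a).2 : ℝ) ≤ n := (Int.floor_le _).trans (by linarith [h5.2])
      exact_mod_cast this
  have hinj : ∀ a ∈ s, ∀ b ∈ s, g a = g b → a = b := by
    intro a ha b hb hab
    by_contra hne
    have h1 := hsep a ha b hb hne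
    have e1 : ⌊2 * (y a).re⌋ = ⌊2 * (y b).re⌋ := congrArg Prod.fst hab
    have e2 : ⌊2 * (y a).im⌋ = ⌊2 * (y b).im⌋ := congrArg Prod.snd hab
    have f1 := Int.abs_sub_lt_one_of_floor_eq_floor e1
    have f2 := Int.abs_sub_lt_one_of_floor_eq_floor e2
    rw [abs_lt] at f1 f2
    rw [dist_eq_norm] at h1
    have h2 : ‖y a - y b‖ ^ 2 < 1 := by
      rw [Complex.sq_norm, Complex.normSq_apply, Complex.sub_re, Complex.sub_im]
      nlinarith [f1.1, f1.2, f2.1, f2.2]
    nlinarith [norm_nonneg (y a - y b)]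
  have hcard := Finset.card_le_card_of_injOn g hmaps (fun a ha b hb h => hinj a ha b hb h)
  rw [Finset.card_product, Int.card_Icc] at hcard
  have h6 : ((n + 1 - -n).toNat : ℝ) = 2 * n + 1 := by
    have : ((n + 1 - -n).toNat : ℤ) = 2 * n + 1 := by omega
    exact_mod_cast this
  have h7 : (s.card : ℝ) ≤ (2 * n + 1) * (2 * n + 1) := by
    rw [← h6]
    exact_mod_cast hcard
  have h8 : (2 * n + 1 : ℝ) ≤ 8 * R := by linarith
  have h9 : (0 : ℝ) ≤ 2 * n + 1 := by
    have : (0 : ℝ) ≤ n := by exact_mod_cast hn0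
    linarith
  nlinarith

namespace TriTiling

variable {ι : Type} (T : TriTiling ι)

theorem separated_growth {k : ℕ} {col : ι → Fin k}
    (hs : ∀ i j, i ≠ j → col i = col j → ∀ x ∈ T.K i, ∀ y ∈ T.K j, 1 ≤ dist x y) {R : ℝ} (hR : 1 ≤ R) :
    (T.count R : ℝ) ≤ k * (64 * R ^ 2) := by
  classical
  set I := (T.count_finite R).toFinset with hI
  have hmemI : ∀ i, i ∈ I ↔ (T.K i ∩ closedBall (0 : ℂ) R).Nonempty := fun i => by rw [hI, Finite.mem_toFinset]; rfl
  have hcI : T.count R = I.card := by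
    rw [count, ncard_eq_toFinset_card _ (T.count_finite R)]
  have hex : ∀ i, ∃ y : ℂ, (i ∈ I → y ∈ T.K i ∧ ‖y‖ ≤ R) := by
    intro i
    by_cases h : i ∈ I
    · obtain ⟨y, hy1, hy2⟩ := (hmemI i).mp h
      exact ⟨y, fun _ => ⟨hy1, by rwa [mem_closedBall_zero_iff] at hy2⟩⟩
    · exact ⟨0, fun h' => absurd h' h⟩
  choose y hy using hex
  rw [hcI, Finset.card_eq_sum_card_fiberwise (f := col) (t := Finset.univ) (fun i _ => Finset.mem_coe.mpr (Finset.mem_univ _))]
  push_cast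
  calc ∑ c : Fin k, ((I.filter (fun i => col i = c)).card : ℝ) ≤ ∑ _c : Fin k, 64 * R ^ 2 := by
        refine Finset.sum_le_sum fun c _ => ?_
        refine pack_bound _ y hR (fun i hi => ?_) (fun i hi j hj hij => ?_)
        · exact (hy i (Finset.mem_filter.mp hi).1).2
        · rw [Finset.mem_filter] at hi hj
          exact hs i j hij (hi.2.trans hj.2.symm) _ (hy i hi.1).1 _ (hy j hj.1).1
    _ = k * (64 * R ^ 2) := by rw [Finset.sum_const, Finset.card_univ, Fintype.card_fin, nsmul_eq_mul]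

theorem kap_deg (x : ℂ) : T.kap x = 6 - 2 * ((T.wide x).ncard : ℤ) - T.deg x := by
  rw [kap, T.deg_eq]
  push_cast
  ring

/-- the main theorem for separated colourings -/
theorem separated_main {k : ℕ} {col : ι → Fin k}
    (hs : ∀ i j, i ≠ j → col i = col j → ∀ x ∈ T.K i, ∀ y ∈ T.K j, 1 ≤ dist x y)
    (hd : ∀ i, ∀ x ∈ T.K i, ∀ y ∈ T.K i, dist x y ≤ 1) : 8 ≤ k := by
  by_contra hk
  push Not at hk
  have hdeg5 : ∀ x, T.deg x ≤ 5 := by
    intro x
    have := T.deg_add_two_le hs hd x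
    omega
  have hcase : ∀ x, T.IsVertex x → 0 ≤ T.kap x ∧ (1 ≤ T.kap x ∨ ∃ w, T.IsVertex w ∧ dist x w < 1 ∧ 1 ≤ T.kap w) := by
    intro x hx
    have h3 := T.three_le_deg hx
    have h5 := hdeg5 x
    have hw := T.wide_le_one hx
    rw [T.kap_deg x]
    rcases Nat.eq_zero_or_pos (T.wide x).ncard with h0 | h0
    · rw [h0]
      constructor
      · push_cast; omega
      · left; push_cast; omega
    · have h1 : (T.wide x).ncard = 1 := by omega
      obtain ⟨S, hS⟩ := ncard_eq_one.mp h1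
      have hSw : S ∈ T.wide x := by rw [hS]; exact mem_singleton S
      obtain ⟨w, hwv, hdw, hsum⟩ := T.opposite hs hd hx hSw
      have h3' := T.three_le_deg hwv
      rw [h1]
      constructor
      · push_cast; omega
      · by_cases h4 : T.deg x = 4
        · right
          refine ⟨w, hwv, hdw, ?_⟩
          rw [T.kap_deg w]
          have := T.wide_le_one hwv
          have hd3 : T.deg w = 3 := by omega
          rw [hd3]
          push_cast
          omega
        · left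
          push_cast
          omega
  have hv : ∀ z : ℂ, ∃ x, (T.IsVertex x ∧ 1 ≤ T.kap x) ∧ dist z x ≤ 2 := by
    intro z
    obtain ⟨i, hi⟩ := T.cover z
    have hx : T.IsVertex (T.p i 0) := ⟨i, 0, rfl⟩
    have hzx := hd i z hi _ (T.corner_mem_K i 0)
    rcases (hcase _ hx).2 with h | ⟨w, h1, h2, h3⟩
    · exact ⟨_, ⟨hx, h⟩, by linarith⟩
    · exact ⟨w, ⟨h1, h3⟩, by linarith [dist_triangle z (T.p i 0) w]⟩
  obtain ⟨C, hC, hgrow⟩ := T.cubic_growth hd (fun x hx => (hcase x hx).1) one_le_two hv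
  set R : ℝ := k * 64 / C + 1 with hR
  have hR1 : 1 ≤ R := by
    rw [hR]
    have : 0 ≤ (k : ℝ) * 64 / C := by positivity
    linarith
  have h1 := hgrow R hR1
  have h2 := T.separated_growth hs hR1
  have h3 : C * R = k * 64 + C := by rw [hR]; field_simp
  have h4 : C * R ^ 3 = (C * R) * R ^ 2 := by ring
  rw [h4, h3] at h1
  have h5 : 0 < C * R ^ 2 := by positivity
  nlinarith

/-- same-coloured triangles of a unit-distance avoiding colouring: all distances at least one or all distances at most one -/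
theorem dichotomy {k : ℕ} {col : ι → Fin k}
    (hu : ∀ i j, col i = col j → ∀ x ∈ interior (T.K i), ∀ y ∈ interior (T.K j), dist x y ≠ 1) (i j : ι)
    (hij : col i = col j) : (∀ x ∈ T.K i, ∀ y ∈ T.K j, 1 ≤ dist x y) ∨ (∀ x ∈ T.K i, ∀ y ∈ T.K j, dist x y ≤ 1) := by
  by_contra hcon
  push Not at hcon
  obtain ⟨⟨x, hx, y, hy, hxy⟩, ⟨x', hx', y', hy', hxy'⟩⟩ := hcon
  obtain ⟨a, ha, b, hb, hab⟩ := exists_interior_dist_eq (T.K_convex i) (T.K_convex j) (T.K_closure_interior i).ge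
    (T.K_closure_interior j).ge ⟨x, hx, y, hy, hxy⟩ ⟨x', hx', y', hy', hxy'⟩
  exact hu i j hij a ha b hb hab

theorem diam_le_one {k : ℕ} {col : ι → Fin k}
    (hu : ∀ i j, col i = col j → ∀ x ∈ interior (T.K i), ∀ y ∈ interior (T.K j), dist x y ≠ 1) (i : ι) :
    ∀ x ∈ T.K i, ∀ y ∈ T.K i, dist x y ≤ 1 := by
  rcases T.dichotomy hu i i rfl with h | h
  · intro x hx
    have := h x hx x hx
    rw [dist_self] at this
    linarith
  · exact h

end TriTiling

end Pool.TC
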