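import Pool.Agent.Lib.MP_d47d4c_co.TC.LocalThm
import Pool.Agent.Lib.MP_d47d4c_co.TC.SepMain

set_option autoImplicit false

namespace Pool.TC

open Metric Set MeasureTheory

theorem exists_avoid {a b : ℝ} (hab : a < b) {F : Set ℝ} (hF : F.Finite) : ∃ r, a < r ∧ r < b ∧ r ∉ F := by
  obtain ⟨r, hr, hr2⟩ := ((Ioo_infinite hab).sdiff hF).nonempty
  exact ⟨r, hr.1, hr.2, hr2⟩

namespace TriTiling

variable {ι : Type} (T : TriTiling ι)

/-- a critical pair of points `x`, `y` at `w` for two triangles -/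
def CritPt (w : ℂ) (i j : ι) : Prop :=
  ∃ x ∈ T.K i, ∃ y ∈ T.K j, dist x y = 1 ∧ dist y w = 1 ∧ (x = w ∨ dist x w = 1)

/-- `σ = -1`: radii slightly below one; `σ = 1`: radii slightly above one -/
theorem exists_radius_aux {k : ℕ} {col : ι → Fin k} (w : ℂ) (σ : ℝ)
    (hpair : ∀ i j, ∃ r0 > 0, ∀ r : ℝ, 0 < r → r < r0 →
      (col i = col j → ∀ x ∈ T.K i, ∀ y ∈ T.K j, dist x y = 1 + σ * r → dist y w = 1 + σ * r →
        ¬ (x = w ∨ dist x w = 1 + σ * r))) (hσ : σ = 1 ∨ σ = -1) :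
    ∃ ρ : ℝ, 0 < ρ ∧ ρ < 2 ∧ (∀ i j, col i = col j → ∀ x ∈ T.K i, ∀ y ∈ T.K j, dist x y = ρ → dist y w = ρ →
      ¬ (x = w ∨ dist x w = ρ)) ∧ (∀ x, T.IsVertex x → dist x w ≠ ρ) := by
  classical
  have hfin : {i | (T.K i ∩ closedBall w 2).Nonempty}.Finite := T.near_finite w 2
  obtain ⟨r0, hr0, h0⟩ := exists_common_radius (hfin.toFinset ×ˢ hfin.toFinset)
    (fun q r => col q.1 = col q.2 → ∀ x ∈ T.K q.1, ∀ y ∈ T.K q.2, dist x y = 1 + σ * r → dist y w = 1 + σ * r →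
        ¬ (x = w ∨ dist x w = 1 + σ * r)) (fun q _ => hpair q.1 q.2)
  have hF : ((fun x => σ * (dist x w - 1)) '' {x | T.IsVertex x ∧ dist x w < 2}).Finite :=
    (T.vertex_ball_finite w 2).image _
  obtain ⟨r, hr1, hr2, hr3⟩ := exists_avoid (lt_min hr0 one_pos) hF
  have hr4 : r < 1 := lt_of_lt_of_le hr2 (min_le_right _ _)
  have hσ2 : σ * σ = 1 := by rcases hσ with rfl | rfl <;> norm_num
  have hlt : 0 < 1 + σ * r ∧ 1 + σ * r < 2 := by
    rcases hσ with rfl | rfl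
    · constructor <;> linarith
    · constructor <;> linarith
  refine ⟨1 + σ * r, hlt.1, hlt.2, ?_, ?_⟩
  · intro i j hij x hx y hy h1 h2 h3
    refine h0 r hr1 (lt_of_lt_of_le hr2 (min_le_left _ _)) (i, j) ?_ hij x hx y hy h1 h2 h3
    rw [Finset.mem_product, Finite.mem_toFinset, Finite.mem_toFinset]
    refine ⟨⟨x, hx, ?_⟩, ⟨y, hy, ?_⟩⟩
    · rw [mem_closedBall]
      rcases h3 with h3 | h3
      · rw [h3, dist_self]; norm_num
      · rw [h3]; exact hlt.2.le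
    · rw [mem_closedBall, h2]; exact hlt.2.le
  · intro x hx h
    apply hr3
    refine ⟨x, ⟨hx, by rw [h]; exact hlt.2⟩, ?_⟩
    show σ * (dist x w - 1) = r
    rw [h]
    linear_combination r * hσ2

/-- without critical points there are none at radii near one -/
theorem no_crit_near {w : ℂ} {i j : ι} (h : ¬ T.CritPt w i j) {σ : ℝ} (hσ : σ = 1 ∨ σ = -1) : ∃ r0 > 0, ∀ r : ℝ, 0 < r → r < r0 →
      (∀ x ∈ T.K i, ∀ y ∈ T.K j, dist x y = 1 + σ * r → dist y w = 1 + σ * r → ¬ (x = w ∨ dist x w = 1 + σ * r)) := by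
  have hcpt : IsCompact (T.K i ×ˢ T.K j) := (T.K_compact i).prod (T.K_compact j)
  have hne : (T.K i ×ˢ T.K j).Nonempty := ⟨(T.p i 0, T.p j 0), T.corner_mem_K i 0, T.corner_mem_K j 0⟩
  set ψ : ℂ × ℂ → ℝ := fun q => max |dist q.1 q.2 - 1| (max |dist q.2 w - 1| (min (dist q.1 w) |dist q.1 w - 1|)) with hψ
  have hcont : Continuous ψ := by
    rw [hψ]
    fun_prop
  obtain ⟨⟨u, v⟩, ⟨hu, hv⟩, hmin⟩ := hcpt.exists_isMinOn hne hcont.continuousOn
  have hpos : 0 < ψ (u, v) := by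
    by_contra hcon
    push Not at hcon
    have h1 : |dist u v - 1| ≤ 0 := (le_max_left _ _).trans hcon
    have h2 : |dist v w - 1| ≤ 0 := ((le_max_left _ _).trans (le_max_right _ _)).trans hcon
    have h3 : min (dist u w) |dist u w - 1| ≤ 0 := ((le_max_right _ _).trans (le_max_right _ _)).trans hcon
    apply h
    refine ⟨u, hu, v, hv, ?_, ?_, ?_⟩
    · have := abs_nonpos_iff.mp h1; linarith
    · have := abs_nonpos_iff.mp h2; linarith
    · rcases min_le_iff.mp h3 with h4 | h4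
      · exact Or.inl (dist_le_zero.mp h4)
      · right
        have := abs_nonpos_iff.mp h4; linarith
  refine ⟨ψ (u, v), hpos, fun r hr hr2 x hx y hy h1 h2 h3 => ?_⟩
  have h4 : ψ (u, v) ≤ ψ (x, y) := hmin (show (x, y) ∈ T.K i ×ˢ T.K j from ⟨hx, hy⟩)
  have habs : |(1 + σ * r) - 1| = r := by
    rw [add_sub_cancel_left]
    rcases hσ with rfl | rfl
    · rw [one_mul, abs_of_pos hr]
    · rw [neg_one_mul, abs_neg, abs_of_pos hr]
  have h5 : ψ (x, y) ≤ r := by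
    rw [hψ]
    refine max_le ?_ (max_le ?_ ?_)
    · show |dist x y - 1| ≤ r
      rw [h1, habs]
    · show |dist y w - 1| ≤ r
      rw [h2, habs]
    · show min (dist x w) |dist x w - 1| ≤ r
      rcases h3 with h3 | h3
      · rw [h3, dist_self]
        exact (min_le_left _ _).trans hr.le
      · refine (min_le_right _ _).trans ?_
        rw [h3, habs]
  linarith

theorem exists_radius {k : ℕ} {col : ι → Fin k}
    (hdich : ∀ i j, col i = col j → (∀ x ∈ T.K i, ∀ y ∈ T.K j, 1 ≤ dist x y) ∨ (∀ x ∈ T.K i, ∀ y ∈ T.K j, dist x y ≤ 1))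
    (w : ℂ)
    (h : (∀ i j, col i = col j → (∀ x ∈ T.K i, ∀ y ∈ T.K j, dist x y ≤ 1) → ¬ T.CritPt w i j) ∨
      (∀ i j, col i = col j → (∀ x ∈ T.K i, ∀ y ∈ T.K j, 1 ≤ dist x y) → ¬ T.CritPt w i j)) :
    ∃ ρ : ℝ, 0 < ρ ∧ ρ < 2 ∧ (∀ i j, col i = col j → ∀ x ∈ T.K i, ∀ y ∈ T.K j, dist x y = ρ → dist y w = ρ →
      ¬ (x = w ∨ dist x w = ρ)) ∧ (∀ x, T.IsVertex x → dist x w ≠ ρ) := by
  rcases h with h | h
  · refine T.exists_radius_aux w (-1) ?_ (Or.inr rfl)
    intro i j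
    by_cases hij : col i = col j
    · rcases hdich i j hij with hd | hd
      · refine ⟨1, one_pos, fun r hr _ _ x hx y hy he => ?_⟩
        have := hd x hx y hy
        linarith
      · obtain ⟨r0, hr0, h1⟩ := T.no_crit_near (h i j hij hd) (σ := -1) (Or.inr rfl)
        exact ⟨r0, hr0, fun r hr hr2 _ => h1 r hr hr2⟩
    · exact ⟨1, one_pos, fun r _ _ h' => absurd h' hij⟩
  · refine T.exists_radius_aux w 1 ?_ (Or.inl rfl)
    intro i j
    by_cases hij : col i = col j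
    · rcases hdich i j hij with hd | hd
      · obtain ⟨r0, hr0, h1⟩ := T.no_crit_near (h i j hij hd) (σ := 1) (Or.inl rfl)
        exact ⟨r0, hr0, fun r hr hr2 _ => h1 r hr hr2⟩
      · refine ⟨1, one_pos, fun r hr _ _ x hx y hy he => ?_⟩
        have := hd x hx y hy
        linarith
    · exact ⟨1, one_pos, fun r _ _ h' => absurd h' hij⟩

/-- the main theorem for generic colourings -/
theorem generic_main {k : ℕ} (hk : k ≤ 7) {col : ι → Fin k}
    (htouch : ∀ i j, i ≠ j → (T.K i ∩ T.K j).Nonempty → col i ≠ col j)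
    (hu : ∀ i j, col i = col j → ∀ x ∈ interior (T.K i), ∀ y ∈ interior (T.K j), dist x y ≠ 1)
    (h : ∀ w, 4 ≤ T.deg w →
      (∀ i j, col i = col j → (∀ x ∈ T.K i, ∀ y ∈ T.K j, dist x y ≤ 1) → ¬ T.CritPt w i j) ∨
      (∀ i j, col i = col j → (∀ x ∈ T.K i, ∀ y ∈ T.K j, 1 ≤ dist x y) → ¬ T.CritPt w i j)) :
    ∃ C > 0, ∀ R, 1 ≤ R → C * R ^ 3 ≤ (T.count R : ℝ) := by
  have hd := T.diam_le_one hu
  have hdich := T.dichotomy hu
  have hloc : ∀ w, 4 ≤ T.deg w → T.deg w = 4 ∧ ∃ x, T.IsVertex x ∧ dist x w < 2 ∧ Odd (T.deg x) := by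
    intro w hw4
    obtain ⟨ρ, hρ, hρ2, hav, hno⟩ := T.exists_radius hdich w (h w hw4)
    obtain ⟨h1, x, hx, hxw, hodd⟩ := T.local_theorem hk htouch hρ hav hno hw4
    exact ⟨h1, x, hx, hxw.trans hρ2, hodd⟩
  have hdeg : ∀ x, T.IsVertex x → T.deg x = 3 ∨ T.deg x = 4 := by
    intro x hx
    have h3 := T.three_le_deg hx
    by_cases h4 : 4 ≤ T.deg x
    · exact Or.inr (hloc x h4).1
    · left; omega
  have hcase : ∀ x, T.IsVertex x → 0 ≤ T.kap x ∧ (1 ≤ T.kap x ∨ ∃ w, T.IsVertex w ∧ dist x w < 2 ∧ 1 ≤ T.kap w) := by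
    intro x hx
    have hw := T.wide_le_one hx
    rw [T.kap_deg x]
    rcases hdeg x hx with h3 | h4
    · rw [h3]
      constructor
      · push_cast; omega
      · left; push_cast; omega
    · rw [h4]
      constructor
      · push_cast; omega
      · right
        obtain ⟨-, y, hy, hyx, hodd⟩ := hloc x (by omega)
        refine ⟨y, hy, by rwa [dist_comm], ?_⟩
        rw [T.kap_deg y]
        have hwy := T.wide_le_one hy
        rcases hdeg y hy with h5 | h5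
        · rw [h5]; push_cast; omega
        · rw [h5] at hodd
          exact absurd hodd (by decide)
  have hv : ∀ z : ℂ, ∃ x, (T.IsVertex x ∧ 1 ≤ T.kap x) ∧ dist z x ≤ 3 := by
    intro z
    obtain ⟨i, hi⟩ := T.cover z
    have hx : T.IsVertex (T.p i 0) := ⟨i, 0, rfl⟩
    have hzx := hd i z hi _ (T.corner_mem_K i 0)
    rcases (hcase _ hx).2 with h | ⟨w, h1, h2, h3⟩
    · exact ⟨_, ⟨hx, h⟩, by linarith⟩
    · exact ⟨w, ⟨h1, h3⟩, by linarith [dist_triangle z (T.p i 0) w]⟩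
  exact T.cubic_growth hd (fun x hx => (hcase x hx).1) (by norm_num) hv

end TriTiling

end Pool.TC
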