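import Pool.Agent.Lib.MP_d47d4c_co.TC.Edge

set_option autoImplicit false

namespace Pool.TC

open Metric Set MeasureTheory

theorem TwoNbrs_others : ∀ m1 : Fin 3, ∃ m0 m2 : Fin 3, m0 ≠ m1 ∧ m0 ≠ m2 ∧ m1 ≠ m2 := by
  decide

theorem TwoNbrs_univ : ∀ m0 m1 m2 : Fin 3, m0 ≠ m1 → m0 ≠ m2 → m1 ≠ m2 →
    ∀ m : Fin 3, m = m0 ∨ m = m1 ∨ m = m2 := by
  decide

theorem TwoNbrs_sum (f : Fin 3 → ℝ) {m0 m1 m2 : Fin 3} (h01 : m0 ≠ m1) (h02 : m0 ≠ m2) (h12 : m1 ≠ m2) :
    ∑ m, f m = f m0 + f m1 + f m2 := by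
  have h : (Finset.univ : Finset (Fin 3)) = {m0, m1, m2} := by
    ext m
    simp only [Finset.mem_univ, Finset.mem_insert, Finset.mem_singleton, true_iff]
    exact TwoNbrs_univ m0 m1 m2 h01 h02 h12 m
  rw [h, Finset.sum_insert (by simp [h01, h02]), Finset.sum_insert (by simp [h12]), Finset.sum_singleton]
  ring

theorem TwoNbrs_coord (b : AffineBasis (Fin 3) ℝ ℂ) (m : Fin 3) (x u v : ℂ) (t : ℝ) :
    b.coord m (x + t • (u - v)) = b.coord m x + t * (b.coord m u - b.coord m v) := by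
  have h1 := (b.coord m).map_vadd x (t • (u - v))
  have h2 := (b.coord m).linearMap_vsub u v
  rw [vadd_eq_add, vadd_eq_add, map_smul, smul_eq_mul] at h1
  rw [vsub_eq_sub, vsub_eq_sub] at h2
  rw [add_comm x, h1, h2, add_comm]

theorem TwoNbrs_pos (b : AffineBasis (Fin 3) ℝ ℂ) (m : Fin 3) {x : ℂ} (h : 0 < b.coord m x) :
    ∃ s > 0, ∀ y ∈ ball x s, 0 < b.coord m y := by
  have hc : Continuous (b.coord m) := (b.coord m).continuous_of_finiteDimensional
  obtain ⟨s, hs, hs2⟩ := Metric.isOpen_iff.mp (isOpen_lt continuous_const hc) x h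
  exact ⟨s, hs, fun y hy => hs2 hy⟩

/-- the boundary of `A` near `x` consists of the two rays of directions `d1`, `d2` -/
def TwoNbrs_R (A : Set ℂ) (x d1 d2 : ℂ) : Prop :=
  (∀ a c : ℝ, 0 < a → 0 < c → a • d1 ≠ c • d2) ∧
  (∃ r > 0, ∀ t : ℝ, 0 < t → t < r → x + t • d1 ∈ A ∧ x + t • d1 ∉ interior A) ∧
  (∃ r > 0, ∀ t : ℝ, 0 < t → t < r → x + t • d2 ∈ A ∧ x + t • d2 ∉ interior A) ∧
  (∃ r > 0, ∀ y ∈ A, y ∉ interior A → y ∈ ball x r → y ≠ x →
    ∃ t : ℝ, 0 < t ∧ (y = x + t • d1 ∨ y = x + t • d2)) ∧ d1 ≠ 0 ∧ d2 ≠ 0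

/-- the corner case -/
theorem TwoNbrs_corner {p : Fin 3 → ℂ} {b : AffineBasis (Fin 3) ℝ ℂ}
    (ht : tri p = {z | ∀ m, 0 ≤ b.coord m z}) (hti : interior (tri p) = {z | ∀ m, 0 < b.coord m z})
    {x : ℂ} {m0 m1 m2 : Fin 3} (h01 : m0 ≠ m1) (h02 : m0 ≠ m2) (h12 : m1 ≠ m2)
    (h1 : b.coord m1 x = 0) (h2 : b.coord m2 x = 0) :
    TwoNbrs_R (tri p) x (b m1 - b m0) (b m2 - b m0) := by
  have hall := TwoNbrs_univ m0 m1 m2 h01 h02 h12
  have h0 : b.coord m0 x = 1 := by
    have h3 := b.sum_coord_apply_eq_one x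
    rw [TwoNbrs_sum _ h01 h02 h12, h1, h2] at h3
    linarith
  have e00 : b.coord m0 (b m0) = 1 := b.coord_apply_eq m0
  have e11 : b.coord m1 (b m1) = 1 := b.coord_apply_eq m1
  have e22 : b.coord m2 (b m2) = 1 := b.coord_apply_eq m2
  have e01 : b.coord m0 (b m1) = 0 := b.coord_apply_ne h01
  have e02 : b.coord m0 (b m2) = 0 := b.coord_apply_ne h02
  have e10 : b.coord m1 (b m0) = 0 := b.coord_apply_ne h01.symm
  have e12 : b.coord m1 (b m2) = 0 := b.coord_apply_ne h12
  have e20 : b.coord m2 (b m0) = 0 := b.coord_apply_ne h02.symm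
  have e21 : b.coord m2 (b m1) = 0 := b.coord_apply_ne h12.symm
  refine ⟨?_, ⟨1, one_pos, ?_⟩, ⟨1, one_pos, ?_⟩, ?_, ?_, ?_⟩
  · intro a c ha hc heq
    have h3 := TwoNbrs_coord b m1 x (b m1) (b m0) a
    have h4 := TwoNbrs_coord b m1 x (b m2) (b m0) c
    rw [heq, h4, e11, e10, e12] at h3
    linarith
  · intro t ht0 ht1
    constructor
    · rw [ht]
      intro m
      rw [TwoNbrs_coord]
      rcases hall m with rfl | rfl | rfl
      · rw [h0, e01, e00]
        linarith
      · rw [h1, e11, e10]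
        linarith
      · rw [h2, e21, e20]
        linarith
    · rw [hti]
      intro hcon
      have h3 := hcon m2
      rw [TwoNbrs_coord, h2, e21, e20] at h3
      linarith
  · intro t ht0 ht1
    constructor
    · rw [ht]
      intro m
      rw [TwoNbrs_coord]
      rcases hall m with rfl | rfl | rfl
      · rw [h0, e02, e00]
        linarith
      · rw [h1, e12, e10]
        linarith
      · rw [h2, e22, e20]
        linarith
    · rw [hti]
      intro hcon
      have h3 := hcon m1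
      rw [TwoNbrs_coord, h1, e12, e10] at h3
      linarith
  · obtain ⟨s, hs, hs2⟩ := TwoNbrs_pos b m0 (x := x) (by rw [h0]; exact one_pos)
    refine ⟨s, hs, ?_⟩
    intro y hy hyi hyb hyx
    have hy0 := hs2 y hyb
    rw [ht] at hy
    have hy1 := hy m1
    have hy2 := hy m2
    have hsum := b.sum_coord_apply_eq_one y
    rw [TwoNbrs_sum _ h01 h02 h12] at hsum
    by_cases hz1 : b.coord m1 y = 0
    · -- `y` on the ray of `b m2 - b m0`
      have hyeq : y = x + (b.coord m2 y) • (b m2 - b m0) := by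
        apply b.ext_elem
        intro m
        rw [TwoNbrs_coord]
        rcases hall m with rfl | rfl | rfl
        · rw [h0, e02, e00]
          linarith
        · rw [h1, e12, e10, hz1]
          ring
        · rw [h2, e22, e20]
          ring
      refine ⟨b.coord m2 y, lt_of_le_of_ne hy2 ?_, Or.inr hyeq⟩
      intro h3
      rw [← h3, zero_smul, add_zero] at hyeq
      exact hyx hyeq
    · have hz2 : b.coord m2 y = 0 := by
        by_contra hz2
        apply hyi
        rw [hti]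
        intro m
        rcases hall m with rfl | rfl | rfl
        · exact hy0
        · exact lt_of_le_of_ne hy1 (Ne.symm hz1)
        · exact lt_of_le_of_ne hy2 (Ne.symm hz2)
      refine ⟨b.coord m1 y, lt_of_le_of_ne hy1 (Ne.symm hz1), Or.inl ?_⟩
      apply b.ext_elem
      intro m
      rw [TwoNbrs_coord]
      rcases hall m with rfl | rfl | rfl
      · rw [h0, e01, e00]
        linarith
      · rw [h1, e11, e10]
        ring
      · rw [h2, e21, e20, hz2]
        ring
  · intro h3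
    have h4 := TwoNbrs_coord b m1 x (b m1) (b m0) 1
    rw [h3, smul_zero, add_zero, e11, e10] at h4
    linarith
  · intro h3
    have h4 := TwoNbrs_coord b m2 x (b m2) (b m0) 1
    rw [h3, smul_zero, add_zero, e22, e20] at h4
    linarith

/-- the side case -/
theorem TwoNbrs_side {p : Fin 3 → ℂ} {b : AffineBasis (Fin 3) ℝ ℂ}
    (ht : tri p = {z | ∀ m, 0 ≤ b.coord m z}) (hti : interior (tri p) = {z | ∀ m, 0 < b.coord m z})
    {x : ℂ} {m0 m1 m2 : Fin 3} (h01 : m0 ≠ m1) (h02 : m0 ≠ m2) (h12 : m1 ≠ m2)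
    (h0 : b.coord m0 x = 0) (h1 : 0 < b.coord m1 x) (h2 : 0 < b.coord m2 x) :
    TwoNbrs_R (tri p) x (b m1 - b m2) (b m2 - b m1) := by
  have hall := TwoNbrs_univ m0 m1 m2 h01 h02 h12
  have e11 : b.coord m1 (b m1) = 1 := b.coord_apply_eq m1
  have e22 : b.coord m2 (b m2) = 1 := b.coord_apply_eq m2
  have e01 : b.coord m0 (b m1) = 0 := b.coord_apply_ne h01
  have e02 : b.coord m0 (b m2) = 0 := b.coord_apply_ne h02
  have e12 : b.coord m1 (b m2) = 0 := b.coord_apply_ne h12
  have e21 : b.coord m2 (b m1) = 0 := b.coord_apply_ne h12.symm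
  refine ⟨?_, ⟨b.coord m2 x, h2, ?_⟩, ⟨b.coord m1 x, h1, ?_⟩, ?_, ?_, ?_⟩
  · intro a c ha hc heq
    have h3 := TwoNbrs_coord b m1 x (b m1) (b m2) a
    have h4 := TwoNbrs_coord b m1 x (b m2) (b m1) c
    rw [heq, h4, e11, e12] at h3
    linarith
  · intro t ht0 ht1
    constructor
    · rw [ht]
      intro m
      rw [TwoNbrs_coord]
      rcases hall m with rfl | rfl | rfl
      · rw [h0, e01, e02]
        linarith
      · rw [e11, e12]
        linarith
      · rw [e21, e22]
        linarith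
    · rw [hti]
      intro hcon
      have h3 := hcon m0
      rw [TwoNbrs_coord, h0, e01, e02] at h3
      linarith
  · intro t ht0 ht1
    constructor
    · rw [ht]
      intro m
      rw [TwoNbrs_coord]
      rcases hall m with rfl | rfl | rfl
      · rw [h0, e01, e02]
        linarith
      · rw [e11, e12]
        linarith
      · rw [e21, e22]
        linarith
    · rw [hti]
      intro hcon
      have h3 := hcon m0
      rw [TwoNbrs_coord, h0, e01, e02] at h3
      linarith
  · obtain ⟨s1, hs1, hs1'⟩ := TwoNbrs_pos b m1 h1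
    obtain ⟨s2, hs2, hs2'⟩ := TwoNbrs_pos b m2 h2
    refine ⟨min s1 s2, lt_min hs1 hs2, ?_⟩
    intro y hy hyi hyb hyx
    have hy1 := hs1' y (ball_subset_ball (min_le_left _ _) hyb)
    have hy2 := hs2' y (ball_subset_ball (min_le_right _ _) hyb)
    rw [ht] at hy
    have hz0 : b.coord m0 y = 0 := by
      by_contra hz0
      apply hyi
      rw [hti]
      intro m
      rcases hall m with rfl | rfl | rfl
      · exact lt_of_le_of_ne (hy _) (Ne.symm hz0)
      · exact hy1
      · exact hy2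
    have hsum := b.sum_coord_apply_eq_one y
    rw [TwoNbrs_sum _ h01 h02 h12, hz0] at hsum
    have hsumx := b.sum_coord_apply_eq_one x
    rw [TwoNbrs_sum _ h01 h02 h12, h0] at hsumx
    have hyeq1 : y = x + (b.coord m1 y - b.coord m1 x) • (b m1 - b m2) := by
      apply b.ext_elem
      intro m
      rw [TwoNbrs_coord]
      rcases hall m with rfl | rfl | rfl
      · rw [h0, e01, e02, hz0]
        ring
      · rw [e11, e12]
        ring
      · rw [e21, e22]
        linarith
    have hyeq2 : y = x + (b.coord m2 y - b.coord m2 x) • (b m2 - b m1) := by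
      apply b.ext_elem
      intro m
      rw [TwoNbrs_coord]
      rcases hall m with rfl | rfl | rfl
      · rw [h0, e01, e02, hz0]
        ring
      · rw [e11, e12]
        linarith
      · rw [e21, e22]
        ring
    rcases lt_trichotomy (b.coord m1 y) (b.coord m1 x) with h3 | h3 | h3
    · exact ⟨b.coord m2 y - b.coord m2 x, by linarith, Or.inr hyeq2⟩
    · exfalso
      rw [h3, sub_self, zero_smul, add_zero] at hyeq1
      exact hyx hyeq1
    · exact ⟨b.coord m1 y - b.coord m1 x, by linarith, Or.inl hyeq1⟩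
  · intro h3
    have h4 := TwoNbrs_coord b m1 x (b m1) (b m2) 1
    rw [h3, smul_zero, add_zero, e11, e12] at h4
    linarith
  · intro h3
    have h4 := TwoNbrs_coord b m2 x (b m2) (b m1) 1
    rw [h3, smul_zero, add_zero, e22, e21] at h4
    linarith

theorem TwoNbrs_rays {p : Fin 3 → ℂ} (h : AffineIndependent ℝ p) {x : ℂ} (hx : x ∈ tri p)
    (hi : x ∉ interior (tri p)) : ∃ d1 d2 : ℂ, TwoNbrs_R (tri p) x d1 d2 := by
  obtain ⟨b, -, ht, hti⟩ := exists_bary h
  have hx' := hx
  rw [ht] at hx'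
  obtain ⟨m1, hm1⟩ : ∃ m1, b.coord m1 x = 0 := by
    by_contra hcon
    push Not at hcon
    apply hi
    rw [hti]
    exact fun m => lt_of_le_of_ne (hx' m) (Ne.symm (hcon m))
  obtain ⟨m0, m2, h01, h02, h12⟩ := TwoNbrs_others m1
  by_cases hm2 : b.coord m2 x = 0
  · exact ⟨_, _, TwoNbrs_corner ht hti h01 h02 h12 hm1 hm2⟩
  · by_cases hm0 : b.coord m0 x = 0
    · exact ⟨_, _, TwoNbrs_corner ht hti h12.symm h02.symm h01.symm hm1 hm0⟩
    · exact ⟨_, _, TwoNbrs_side ht hti h01.symm h12 h02 hm1 (lt_of_le_of_ne (hx' m0) (Ne.symm hm0))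
        (lt_of_le_of_ne (hx' m2) (Ne.symm hm2))⟩

namespace TriTiling

variable {ι : Type} (T : TriTiling ι)

/-- finitely many vertices near a point -/
theorem TwoNbrs_vertex_finite (x : ℂ) : {z | T.IsVertex z ∧ z ∈ closedBall x 1}.Finite := by
  have h1 : ({i | (T.K i ∩ closedBall x 1).Nonempty} ×ˢ (univ : Set (Fin 3))).Finite :=
    (T.near_finite x 1).prod finite_univ
  refine (h1.image fun q : ι × Fin 3 => T.p q.1 q.2).subset ?_
  rintro z ⟨⟨i, m, rfl⟩, hz⟩
  exact ⟨(i, m), ⟨⟨T.p i m, T.corner_mem_K i m, hz⟩, mem_univ _⟩, rfl⟩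

/-- a point on a ray, close to `x`, which is not a vertex -/
theorem TwoNbrs_exists_t (x : ℂ) {d : ℂ} (hd : d ≠ 0) {r : ℝ} (hr : 0 < r) :
    ∃ t : ℝ, 0 < t ∧ t < r ∧ ¬ T.IsVertex (x + t • d) ∧ x + t • d ∈ ball x r := by
  have hnd : 0 < ‖d‖ := norm_pos_iff.mpr hd
  set e : ℝ := min r (min (r / ‖d‖) (1 / ‖d‖)) with he
  have hepos : 0 < e := lt_min hr (lt_min (by positivity) (by positivity))
  have hinj : Function.Injective (fun t : ℝ => x + t • d) := by
    intro s t hst
    have h1 : s • d = t • d := add_left_cancel hst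
    exact smul_left_injective ℝ hd h1
  have hfin : ((fun t : ℝ => x + t • d) ⁻¹' {z | T.IsVertex z ∧ z ∈ closedBall x 1}).Finite :=
    (T.TwoNbrs_vertex_finite x).preimage hinj.injOn
  obtain ⟨t, ht, htn⟩ := (Ioo_infinite hepos).exists_notMem_finite hfin
  have h2 : t < r := ht.2.trans_le (min_le_left _ _)
  have h3 : t < r / ‖d‖ := ht.2.trans_le ((min_le_right _ _).trans (min_le_left _ _))
  have h4 : t < 1 / ‖d‖ := ht.2.trans_le ((min_le_right _ _).trans (min_le_right _ _))
  have h5 : dist (x + t • d) x = t * ‖d‖ := by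
    rw [dist_eq_norm, add_sub_cancel_left, norm_smul, Real.norm_eq_abs, abs_of_pos ht.1]
  rw [lt_div_iff₀ hnd] at h3 h4
  refine ⟨t, ht.1, h2, ?_, ?_⟩
  · intro hv
    apply htn
    refine ⟨hv, ?_⟩
    rw [mem_closedBall, h5]
    exact h4.le
  · rw [mem_ball, h5]
    exact h3

/-- the neighbour along a boundary ray -/
theorem TwoNbrs_nbr {x : ℂ} {i : ι} (hi : i ∈ T.star x) {d : ℂ} (hd : d ≠ 0)
    (hray : ∃ r > 0, ∀ t : ℝ, 0 < t → t < r → x + t • d ∈ T.K i ∧ x + t • d ∉ interior (T.K i)) :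
    ∃ j, j ∈ T.star x ∧ T.Adj i j ∧ ∃ t : ℝ, 0 < t ∧ x + t • d ∈ T.K j ∧ x + t • d ∈ T.K i := by
  obtain ⟨r, hr, h⟩ := hray
  obtain ⟨r0, hr0, hloc⟩ := T.local_star x
  obtain ⟨t, ht0, htr, htv, htb⟩ := T.TwoNbrs_exists_t x hd (lt_min hr hr0)
  obtain ⟨h1, h2⟩ := h t ht0 (htr.trans_le (min_le_left _ _))
  have h3 : ∀ l, x + t • d ∉ interior (T.K l) := by
    intro l hl
    have h4 := T.eq_of_interior hl h1
    subst h4
    exact h2 hl
  have h5 := T.deg_eq_two htv h3
  rw [deg, ncard_eq_two] at h5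
  obtain ⟨a, c, hac, hst⟩ := h5
  have h6 : i ∈ T.star (x + t • d) := h1
  have hball : x + t • d ∈ ball x r0 := ball_subset_ball (min_le_right _ _) htb
  have hne : x ≠ x + t • d := by
    intro h7
    have h8 : t • d = 0 := by
      have := h7.symm
      rwa [add_eq_left] at this
    rcases smul_eq_zero.mp h8 with h9 | h9
    · exact ht0.ne' h9
    · exact hd h9
  have key : ∀ j, j ∈ T.star (x + t • d) → i ≠ j → ∃ j, j ∈ T.star x ∧ T.Adj i j ∧
      ∃ t : ℝ, 0 < t ∧ x + t • d ∈ T.K j ∧ x + t • d ∈ T.K i := by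
    intro j hj hij
    have hjx : j ∈ T.star x := hloc j ⟨x + t • d, hj, hball⟩
    exact ⟨j, hjx, ⟨hij, ⟨x, ⟨hi, hjx⟩, x + t • d, ⟨h1, hj⟩, hne⟩⟩, t, ht0, hj, h1⟩
  rw [hst] at h6
  rcases h6 with h6 | h6
  · refine key c ?_ ?_
    · rw [hst]
      exact Or.inr rfl
    · rw [h6]
      exact hac
  · have h6' : i = c := h6
    refine key a ?_ ?_
    · rw [hst]
      exact Or.inl rfl
    · rw [h6']
      exact hac.symm

/-- the common border of two triangles with the common vertex `x` starts at `x` -/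
theorem TwoNbrs_edge {x : ℂ} (hx : T.IsVertex x) {i j : ι} (hi : i ∈ T.star x) (hj : j ∈ T.star x)
    (h : T.Adj i j) : ∃ v : ℂ, v ≠ x ∧ T.K i ∩ T.K j = segment ℝ x v ∧
      ∀ y ∈ openSegment ℝ x v, T.star y = {i, j} := by
  obtain ⟨u, v, huv, hseg, -, -, hop⟩ := T.edge h
  have h1 : x ∈ segment ℝ u v := by
    rw [← hseg]
    exact ⟨hi, hj⟩
  rw [← insert_endpoints_openSegment] at h1
  rcases h1 with h1 | h1 | h1
  · subst h1
    exact ⟨v, huv.symm, hseg, fun y hy => (hop y hy).2⟩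
  · have h1' : x = v := h1
    subst h1'
    refine ⟨u, huv, ?_, ?_⟩
    · rw [hseg, segment_symm]
    · intro y hy
      rw [openSegment_symm] at hy
      exact (hop y hy).2
  · exact absurd hx (hop x h1).1

theorem TwoNbrs_mem_seg {x v y : ℂ} (hy : y ∈ segment ℝ x v) : ∃ s : ℝ, 0 ≤ s ∧ s ≤ 1 ∧ y = x + s • (v - x) := by
  rw [segment_eq_image'] at hy
  obtain ⟨s, hs, rfl⟩ := hy
  exact ⟨s, hs.1, hs.2, rfl⟩

theorem TwoNbrs_mem_open {x v : ℂ} {s : ℝ} (h0 : 0 < s) (h1 : s < 1) : x + s • (v - x) ∈ openSegment ℝ x v := by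
  rw [openSegment_eq_image']
  exact ⟨s, ⟨h0, h1⟩, rfl⟩

/-- two neighbours along the same ray are equal -/
theorem TwoNbrs_unique {x : ℂ} (hx : T.IsVertex x) {i j l : ι} (hi : i ∈ T.star x) (hj : j ∈ T.star x)
    (hl : l ∈ T.star x) (hij : T.Adj i j) (hil : T.Adj i l) {v : ℂ} (hseg : T.K i ∩ T.K j = segment ℝ x v)
    (hop : ∀ y ∈ openSegment ℝ x v, T.star y = {i, j}) {d : ℂ} {a t : ℝ} (ha : 0 < a) (hv : v - x = a • d) (ht : 0 < t)
    (htl : x + t • d ∈ T.K l) : l = j := by
  -- the point `x + s (v - x)` with `s` small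
  set s : ℝ := min (1 / 2) (t / (2 * a)) with hs
  have hs0 : 0 < s := lt_min (by norm_num) (by positivity)
  have hs1 : s < 1 := lt_of_le_of_lt (min_le_left _ _) (by norm_num)
  have hst : s * a ≤ t / 2 := by
    have h1 : s ≤ t / (2 * a) := min_le_right _ _
    rw [le_div_iff₀ (by positivity)] at h1
    linarith
  have hy := hop _ (TwoNbrs_mem_open (x := x) (v := v) hs0 hs1)
  have hyl : x + s • (v - x) ∈ T.K l := by
    have h2 : x + s • (v - x) = (1 - s * a / t) • x + (s * a / t) • (x + t • d) := by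
      rw [hv]
      simp only [Complex.real_smul]
      push_cast
      have ht' : (t : ℂ) ≠ 0 := by exact_mod_cast ht.ne'
      field_simp
      ring
    rw [h2]
    refine T.K_convex l hl htl ?_ (by positivity) (by ring)
    have h3 : s * a / t ≤ 1 := by
      rw [div_le_one ht]
      linarith
    linarith
  have hyl' : l ∈ T.star (x + s • (v - x)) := hyl
  rw [hy] at hyl'
  rcases hyl' with h3 | h3
  · exact absurd h3.symm hil.1
  · exact h3

/-- a triangle containing the vertex `x` has exactly two neighbours containing `x` -/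
theorem two_nbrs {x : ℂ} (hx : T.IsVertex x) {i : ι} (hi : i ∈ T.star x) : {j | j ∈ T.star x ∧ T.Adj i j}.ncard = 2 := by
  obtain ⟨d1, d2, hne, hr1, hr2, ⟨r, hr, hb⟩, hd1, hd2⟩ :=
    TwoNbrs_rays (T.indep i) hi (T.vertex_not_interior hx i)
  obtain ⟨j1, hj1, ha1, t1, ht1, hz1, hz1i⟩ := T.TwoNbrs_nbr hi hd1 hr1
  obtain ⟨j2, hj2, ha2, t2, ht2, hz2, hz2i⟩ := T.TwoNbrs_nbr hi hd2 hr2
  have hj12 : j1 ≠ j2 := by
    intro h12
    subst h12
    obtain ⟨v, hvx, hseg, -⟩ := T.TwoNbrs_edge hx hi hj1 ha1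
    have h1 : x + t1 • d1 ∈ segment ℝ x v := by
      rw [← hseg]
      exact ⟨hz1i, hz1⟩
    have h2 : x + t2 • d2 ∈ segment ℝ x v := by
      rw [← hseg]
      exact ⟨hz2i, hz2⟩
    obtain ⟨s1, hs1, -, he1⟩ := TwoNbrs_mem_seg h1
    obtain ⟨s2, hs2, -, he2⟩ := TwoNbrs_mem_seg h2
    have he1' : t1 • d1 = s1 • (v - x) := add_left_cancel he1
    have he2' : t2 • d2 = s2 • (v - x) := add_left_cancel he2
    have hs1' : 0 < s1 := by
      refine lt_of_le_of_ne hs1 ?_
      intro h3
      rw [← h3, zero_smul] at he1'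
      rcases smul_eq_zero.mp he1' with h4 | h4
      · exact ht1.ne' h4
      · exact hd1 h4
    have hs2' : 0 < s2 := by
      refine lt_of_le_of_ne hs2 ?_
      intro h3
      rw [← h3, zero_smul] at he2'
      rcases smul_eq_zero.mp he2' with h4 | h4
      · exact ht2.ne' h4
      · exact hd2 h4
    refine hne (s2 * t1) (s1 * t2) (mul_pos hs2' ht1) (mul_pos hs1' ht2) ?_
    rw [mul_smul, mul_smul, he1', he2', smul_smul, smul_smul, mul_comm]
  have hset : {j | j ∈ T.star x ∧ T.Adj i j} = {j1, j2} := by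
    ext j
    constructor
    · rintro ⟨hj, haj⟩
      obtain ⟨v, hvx, hseg, hop⟩ := T.TwoNbrs_edge hx hi hj haj
      have hnv : 0 < ‖v - x‖ := norm_pos_iff.mpr (sub_ne_zero.mpr hvx)
      -- a point of the border close to `x`
      set s : ℝ := min (1 / 2) (r / (2 * ‖v - x‖)) with hs
      have hs0 : 0 < s := lt_min (by norm_num) (by positivity)
      have hs1 : s < 1 := lt_of_le_of_lt (min_le_left _ _) (by norm_num)
      have hsr : s * ‖v - x‖ ≤ r / 2 := by
        have h1 : s ≤ r / (2 * ‖v - x‖) := min_le_right _ _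
        rw [le_div_iff₀ (by positivity)] at h1
        linarith
      have hmem : x + s • (v - x) ∈ T.K i ∩ T.K j := by
        rw [hseg]
        exact openSegment_subset_segment _ _ _ (TwoNbrs_mem_open hs0 hs1)
      have hni : x + s • (v - x) ∉ interior (T.K i) := fun h => T.not_mem_of_interior haj.1 h hmem.2
      have hball : x + s • (v - x) ∈ ball x r := by
        rw [mem_ball, dist_eq_norm, add_sub_cancel_left, norm_smul, Real.norm_eq_abs, abs_of_pos hs0]
        linarith
      have hyx : x + s • (v - x) ≠ x := by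
        intro h
        rw [add_eq_left] at h
        rcases smul_eq_zero.mp h with h4 | h4
        · exact hs0.ne' h4
        · exact hvx (sub_eq_zero.mp h4)
      obtain ⟨t, ht, he | he⟩ := hb _ hmem.1 hni hball hyx
      · left
        have he' : s • (v - x) = t • d1 := add_left_cancel he
        have hv : v - x = (t / s) • d1 := by
          rw [div_eq_inv_mul, mul_smul, ← he', smul_smul, inv_mul_cancel₀ hs0.ne', one_smul]
        exact (T.TwoNbrs_unique hx hi hj hj1 haj ha1 hseg hop (div_pos ht hs0) hv ht1 hz1).symm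
      · right
        have he' : s • (v - x) = t • d2 := add_left_cancel he
        have hv : v - x = (t / s) • d2 := by
          rw [div_eq_inv_mul, mul_smul, ← he', smul_smul, inv_mul_cancel₀ hs0.ne', one_smul]
        exact (T.TwoNbrs_unique hx hi hj hj2 haj ha2 hseg hop (div_pos ht hs0) hv ht2 hz2).symm
    · rintro (rfl | h)
      · exact ⟨hj1, ha1⟩
      · have h' : j = j2 := h
        subst h'
        exact ⟨hj2, ha2⟩
  rw [hset, ncard_pair hj12]

end TriTiling

end Pool.TC
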