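import Pool.Agent.Lib.MP_d47d4c_co.TC.Cross
import Pool.Agent.Lib.MP_d47d4c_co.TC.TwoNbrs

set_option autoImplicit false

namespace Pool.TC

open Metric Set MeasureTheory

namespace TriTiling

variable {ι : Type} (T : TriTiling ι)

theorem vertex_ball_finite (w : ℂ) (ρ : ℝ) : {x | T.IsVertex x ∧ dist x w < ρ}.Finite := by
  have h1 : ({i | (T.K i ∩ closedBall w ρ).Nonempty} ×ˢ (univ : Set (Fin 3))).Finite :=
    (T.near_finite w ρ).prod finite_univ
  refine (h1.image fun q : ι × Fin 3 => T.p q.1 q.2).subset ?_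
  rintro z ⟨⟨i, m, rfl⟩, hz⟩
  exact ⟨(i, m), ⟨⟨T.p i m, T.corner_mem_K i m, mem_closedBall.mpr hz.le⟩, mem_univ _⟩, rfl⟩

private lemma Handshake_adj_symm {i j : ι} (h : T.Adj i j) : T.Adj j i := by
  obtain ⟨h1, h2⟩ := h
  exact ⟨h1.symm, by rwa [inter_comm]⟩

/-- the number of adjacent pairs in the star of a vertex is the degree -/
private lemma Handshake_pairs [DecidableEq ι] {x : ℂ} (hx : T.IsVertex x) {P : Finset (Sym2 ι)}
    (hP : ∀ i j, T.Adj i j → i ∈ T.star x → j ∈ T.star x → s(i, j) ∈ P)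
    (hP2 : ∀ e ∈ P, ∃ i j, T.Adj i j ∧ e = s(i, j)) [DecidablePred fun e : Sym2 ι => ∀ i ∈ e, i ∈ T.star x] :
    (P.filter fun e => ∀ i ∈ e, i ∈ T.star x).card = T.deg x := by
  classical
  set St : Finset ι := (T.star_finite x).toFinset with hSt
  have hmem : ∀ i, i ∈ St ↔ i ∈ T.star x := fun i => by rw [hSt, Set.Finite.mem_toFinset]
  have hdeg : T.deg x = St.card := by
    rw [TriTiling.deg, hSt, Set.ncard_eq_toFinset_card _ (T.star_finite x)]
  set D : Finset (ι × ι) := (St ×ˢ St).filter fun q => T.Adj q.1 q.2 with hD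
  have hD1 : D.card = 2 * St.card := by
    have h1 : ∀ q ∈ D, q.1 ∈ St := fun q hq =>
      (Finset.mem_product.mp (Finset.mem_filter.mp hq).1).1
    rw [Finset.card_eq_sum_card_fiberwise h1]
    have h2 : ∀ i ∈ St, (D.filter fun q => q.1 = i).card = 2 := by
      intro i hi
      rw [← T.two_nbrs hx ((hmem i).mp hi), ← Set.ncard_coe_finset]
      have h3 : ((D.filter fun q => q.1 = i : Finset (ι × ι)) : Set (ι × ι)) =
          (fun j => (i, j)) '' {j | j ∈ T.star x ∧ T.Adj i j} := by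
        ext ⟨a, b⟩
        simp only [Finset.coe_filter, Set.mem_setOf_eq, hD, Finset.mem_filter, Finset.mem_product, Set.mem_image,
          Prod.mk.injEq, hmem]
        constructor
        · rintro ⟨⟨⟨h4, h5⟩, h6⟩, h7⟩
          subst h7
          exact ⟨b, ⟨h5, h6⟩, rfl, rfl⟩
        · rintro ⟨j, ⟨h4, h5⟩, h6, h7⟩
          subst h6 h7
          exact ⟨⟨⟨(hmem _).mp hi, h4⟩, h5⟩, rfl⟩
      rw [h3, Set.ncard_image_of_injective]
      intro a b hab
      exact (Prod.mk.inj hab).2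
    rw [Finset.sum_congr rfl h2, Finset.sum_const, smul_eq_mul, mul_comm]
  have hD2 : D.card = 2 * (P.filter fun e => ∀ i ∈ e, i ∈ T.star x).card := by
    have h1 : ∀ q ∈ D, s(q.1, q.2) ∈ (P.filter fun e => ∀ i ∈ e, i ∈ T.star x) := by
      intro q hq
      obtain ⟨h2, h3⟩ := Finset.mem_filter.mp hq
      obtain ⟨h4, h5⟩ := Finset.mem_product.mp h2
      rw [Finset.mem_filter]
      refine ⟨hP _ _ h3 ((hmem _).mp h4) ((hmem _).mp h5), ?_⟩
      intro i hi
      rcases Sym2.mem_iff.mp hi with h6 | h6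
      · rw [h6]
        exact (hmem _).mp h4
      · rw [h6]
        exact (hmem _).mp h5
    rw [Finset.card_eq_sum_card_fiberwise h1]
    have h2 : ∀ e ∈ (P.filter fun e => ∀ i ∈ e, i ∈ T.star x), (D.filter fun q => s(q.1, q.2) = e).card = 2 := by
      intro e he
      obtain ⟨he1, he2⟩ := Finset.mem_filter.mp he
      obtain ⟨i, j, hij, rfl⟩ := hP2 e he1
      have hi : i ∈ T.star x := he2 i (Sym2.mem_mk_left i j)
      have hj : j ∈ T.star x := he2 j (Sym2.mem_mk_right i j)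
      have h3 : (D.filter fun q => s(q.1, q.2) = s(i, j)) = {(i, j), (j, i)} := by
        ext ⟨a, b⟩
        simp only [hD, Finset.mem_filter, Finset.mem_product, Finset.mem_insert, Finset.mem_singleton,
          Prod.mk.injEq, hmem, Sym2.eq_iff]
        constructor
        · rintro ⟨-, h4⟩
          exact h4
        · rintro (⟨h4, h5⟩ | ⟨h4, h5⟩)
          · subst h4 h5
            exact ⟨⟨⟨hi, hj⟩, hij⟩, Or.inl ⟨rfl, rfl⟩⟩
          · subst h4 h5
            exact ⟨⟨⟨hj, hi⟩, T.Handshake_adj_symm hij⟩, Or.inr ⟨rfl, rfl⟩⟩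
      rw [h3, Finset.card_pair]
      intro h4
      exact hij.1 (Prod.mk.inj h4).1
    rw [Finset.sum_congr rfl h2, Finset.sum_const, smul_eq_mul, mul_comm]
  omega

end TriTiling

namespace CircleSampling

variable {ι : Type} {T : TriTiling ι} {w : ℂ} {ρ : ℝ} (S : CircleSampling T w ρ)

/-- the fibre of an adjacent pair -/
private lemma Handshake_fibre [DecidableEq ι] (hρ : 0 < ρ) (hno : ∀ x, T.IsVertex x → dist x w ≠ ρ) {i j : ι}
    (hij : T.Adj i j) :
    (((Finset.range (6 * S.M)).filter (fun n : ℕ => S.a ((n : ℤ) + 1) ≠ S.a n)).filter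
        (fun n : ℕ => s(S.a n, S.a ((n : ℤ) + 1)) = s(i, j))).card % 2 =
      {x | x ∈ (T.vertex_ball_finite w ρ).toFinset ∧ ∀ l ∈ s(i, j), l ∈ T.star x}.ncard % 2 := by
  classical
  obtain ⟨u, v, huv, hK, hu, hv, hop⟩ := T.edge hij
  have hcp := S.cross_parity hρ hij huv hK hop (hno u hu) (hno v hv)
  have h1 : (((Finset.range (6 * S.M)).filter (fun n : ℕ => S.a ((n : ℤ) + 1) ≠ S.a n)).filter
        (fun n : ℕ => s(S.a n, S.a ((n : ℤ) + 1)) = s(i, j))).card =
      {n : ℕ | n < 6 * S.M ∧ ((S.a n = i ∧ S.a (n + 1) = j) ∨ (S.a n = j ∧ S.a (n + 1) = i))}.ncard := by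
    rw [← Set.ncard_coe_finset]
    congr 1
    ext n
    simp only [Finset.coe_filter, Set.mem_setOf_eq, Finset.mem_filter, Finset.mem_range, Sym2.eq_iff]
    constructor
    · rintro ⟨⟨h1, -⟩, h2⟩
      exact ⟨h1, h2⟩
    · rintro ⟨h1, h2⟩
      refine ⟨⟨h1, ?_⟩, h2⟩
      rcases h2 with ⟨h3, h4⟩ | ⟨h3, h4⟩
      · rw [h3, h4]
        exact hij.1.symm
      · rw [h3, h4]
        exact hij.1
  have h2 : ∀ x, (x ∈ (T.vertex_ball_finite w ρ).toFinset ∧ ∀ l ∈ s(i, j), l ∈ T.star x) ↔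
      ((x = u ∨ x = v) ∧ dist x w < ρ) := by
    intro x
    rw [Set.Finite.mem_toFinset, Set.mem_setOf_eq]
    constructor
    · rintro ⟨⟨h3, h4⟩, h5⟩
      refine ⟨?_, h4⟩
      have h6 : x ∈ segment ℝ u v := by
        rw [← hK]
        exact ⟨h5 i (Sym2.mem_mk_left i j), h5 j (Sym2.mem_mk_right i j)⟩
      by_contra hcon
      push Not at hcon
      exact (hop x (mem_openSegment_of_ne_left_right (Ne.symm hcon.1) (Ne.symm hcon.2) h6)).1 h3
    · rintro ⟨h3, h4⟩
      have h5 : T.IsVertex x ∧ x ∈ segment ℝ u v := by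
        rcases h3 with h3 | h3
        · rw [h3]
          exact ⟨hu, left_mem_segment ℝ u v⟩
        · rw [h3]
          exact ⟨hv, right_mem_segment ℝ u v⟩
      refine ⟨⟨h5.1, h4⟩, ?_⟩
      have h6 := h5.2
      rw [← hK] at h6
      intro l hl
      rcases Sym2.mem_iff.mp hl with h7 | h7
      · rw [h7]
        exact h6.1
      · rw [h7]
        exact h6.2
  rw [h1, hcp]
  have h3 : {x | x ∈ (T.vertex_ball_finite w ρ).toFinset ∧ ∀ l ∈ s(i, j), l ∈ T.star x} =
      ((({u, v} : Finset ℂ).filter fun x => dist x w < ρ : Finset ℂ) : Set ℂ) := by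
    ext x
    rw [Set.mem_setOf_eq, h2]
    simp
  rw [h3, Set.ncard_coe_finset, Finset.card_filter, Finset.sum_pair huv]

/-- the number of changes along the circle has the parity of the sum of the degrees inside -/
theorem handshake [DecidableEq ι] (hρ : 0 < ρ) (hno : ∀ x, T.IsVertex x → dist x w ≠ ρ) :
    ((Finset.range (6 * S.M)).filter (fun n : ℕ => S.a ((n : ℤ) + 1) ≠ S.a n)).card % 2 =
      (∑ x ∈ (T.vertex_ball_finite w ρ).toFinset, T.deg x) % 2 := by
  classical
  set V := (T.vertex_ball_finite w ρ).toFinset with hV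
  set F := (Finset.range (6 * S.M)).filter (fun n : ℕ => S.a ((n : ℤ) + 1) ≠ S.a n) with hF
  set J : Finset ι := ((Finset.range (6 * S.M + 1)).image fun n : ℕ => S.a n) ∪
    V.biUnion fun x => (T.star_finite x).toFinset with hJ
  set P : Finset (Sym2 ι) := ((J ×ˢ J).filter fun q => T.Adj q.1 q.2).image fun q => s(q.1, q.2) with hP
  have hPmem : ∀ i j, T.Adj i j → i ∈ J → j ∈ J → s(i, j) ∈ P := by
    intro i j hij hi hj
    rw [hP, Finset.mem_image]
    exact ⟨(i, j), Finset.mem_filter.mpr ⟨Finset.mem_product.mpr ⟨hi, hj⟩, hij⟩, rfl⟩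
  have hP2 : ∀ e ∈ P, ∃ i j, T.Adj i j ∧ e = s(i, j) := by
    intro e he
    rw [hP, Finset.mem_image] at he
    obtain ⟨q, hq, rfl⟩ := he
    exact ⟨q.1, q.2, (Finset.mem_filter.mp hq).2, rfl⟩
  have hstarJ : ∀ x ∈ V, ∀ i ∈ T.star x, i ∈ J := by
    intro x hx i hi
    rw [hJ, Finset.mem_union]
    right
    rw [Finset.mem_biUnion]
    exact ⟨x, hx, (Set.Finite.mem_toFinset _).mpr hi⟩
  have hFP : ∀ n ∈ F, s(S.a n, S.a ((n : ℤ) + 1)) ∈ P := by
    intro n hn
    rw [hF, Finset.mem_filter, Finset.mem_range] at hn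
    obtain ⟨hn1, hn2⟩ := hn
    obtain ⟨s, -, -, -, h1, h2⟩ := S.change_mem (n := (n : ℤ)) hn2.symm
    have hnv : ¬ T.IsVertex (cp w ρ s) := fun h => hno _ h (dist_cp w hρ s)
    refine hPmem _ _ (T.adj_of_nonvertex hnv hn2.symm h1 h2) ?_ ?_
    · rw [hJ, Finset.mem_union]
      left
      rw [Finset.mem_image]
      exact ⟨n, Finset.mem_range.mpr (by omega), rfl⟩
    · rw [hJ, Finset.mem_union]
      left
      rw [Finset.mem_image]
      exact ⟨n + 1, Finset.mem_range.mpr (by omega), by push_cast; rfl⟩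
  rw [Finset.card_eq_sum_card_fiberwise hFP, Finset.sum_nat_mod]
  have hfib : ∀ e ∈ P, (F.filter fun n : ℕ => s(S.a n, S.a ((n : ℤ) + 1)) = e).card % 2 =
      (V.filter fun x => ∀ l ∈ e, l ∈ T.star x).card % 2 := by
    intro e he
    obtain ⟨i, j, hij, rfl⟩ := hP2 e he
    rw [hF, S.Handshake_fibre hρ hno hij, ← Set.ncard_coe_finset, Finset.coe_filter]
  rw [Finset.sum_congr rfl hfib, ← Finset.sum_nat_mod]
  congr 1
  have hex : ∑ e ∈ P, (V.filter fun x => ∀ l ∈ e, l ∈ T.star x).card =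
      ∑ x ∈ V, (P.filter fun e => ∀ l ∈ e, l ∈ T.star x).card := by
    simp only [Finset.card_filter]
    exact Finset.sum_comm
  rw [hex]
  refine Finset.sum_congr rfl fun x hx => ?_
  have hxv : T.IsVertex x := by
    have h1 := hx
    rw [hV, Set.Finite.mem_toFinset] at h1
    exact h1.1
  exact T.Handshake_pairs hxv (fun i j hij hi hj => hPmem i j hij (hstarJ x hx i hi) (hstarJ x hx j hj)) hP2

end CircleSampling

end Pool.TC
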