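import Pool.Agent.Lib.MP_d47d4c_co.TC.Area

set_option autoImplicit false

namespace Pool.TC

open Metric Set MeasureTheory

namespace TriTiling

variable {ι : Type} (T : TriTiling ι)

theorem K_compact (i : ι) : IsCompact (T.K i) := tri_compact _

theorem K_closed (i : ι) : IsClosed (T.K i) := (T.K_compact i).isClosed

theorem K_convex (i : ι) : Convex ℝ (T.K i) := tri_convex _

theorem K_closure_interior (i : ι) : closure (interior (T.K i)) = T.K i := tri_closure_interior (T.indep i)

theorem corner_mem_K (i : ι) (m : Fin 3) : T.p i m ∈ T.K i := corner_mem _ _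

theorem p_injective (i : ι) : Function.Injective (T.p i) := (T.indep i).injective

/-- an interior point of one triangle lies in no other triangle -/
theorem not_mem_of_interior {i j : ι} (hij : i ≠ j) {x : ℂ} (hx : x ∈ interior (T.K i)) : x ∉ T.K j := by
  intro hj
  rw [← T.K_closure_interior j] at hj
  obtain ⟨y, hy1, hy2⟩ := mem_closure_iff.mp hj _ isOpen_interior hx
  exact Set.disjoint_left.mp (T.disj i j hij) hy1 hy2

theorem eq_of_interior {i j : ι} {x : ℂ} (hx : x ∈ interior (T.K i)) (hj : x ∈ T.K j) : j = i := by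
  by_contra h
  exact T.not_mem_of_interior (fun h' => h h'.symm) hx hj

theorem inter_null {i j : ι} (hij : i ≠ j) : volume (T.K i ∩ T.K j) = 0 := by
  refine measure_mono_null ?_ (tri_frontier_null (T.p i))
  rintro x ⟨h1, h2⟩
  rw [frontier, mem_sdiff]
  exact ⟨subset_closure h1, fun h => T.not_mem_of_interior hij h h2⟩

theorem near_finite (w : ℂ) (r : ℝ) : {i | (T.K i ∩ closedBall w r).Nonempty}.Finite := by
  refine (T.locfin (‖w‖ + r)).subset ?_
  rintro i ⟨x, hx1, hx2⟩
  refine ⟨x, hx1, ?_⟩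
  rw [mem_closedBall_zero_iff]
  rw [mem_closedBall, dist_eq_norm] at hx2
  calc ‖x‖ = ‖w + (x - w)‖ := by ring_nf
    _ ≤ ‖w‖ + ‖x - w‖ := norm_add_le _ _
    _ ≤ ‖w‖ + r := by linarith

theorem star_finite (x : ℂ) : (T.star x).Finite := by
  refine (T.near_finite x 0).subset ?_
  intro i hi
  exact ⟨x, hi, mem_closedBall_self le_rfl⟩

theorem star_nonempty (x : ℂ) : (T.star x).Nonempty := T.cover x

/-- near `x` only the triangles containing `x` occur -/
theorem local_star (x : ℂ) : ∃ r0 > 0, ∀ i, (T.K i ∩ ball x r0).Nonempty → i ∈ T.star x := by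
  have hF := T.near_finite x 1
  set F := {i | (T.K i ∩ closedBall x 1).Nonempty} with hFdef
  have hopen : IsOpen (⋂ i ∈ F \ T.star x, (T.K i)ᶜ) :=
    (hF.subset sdiff_subset).isOpen_biInter fun i _ => (T.K_closed i).isOpen_compl
  have hx : x ∈ ⋂ i ∈ F \ T.star x, (T.K i)ᶜ := by
    rw [mem_iInter₂]
    intro i hi
    exact hi.2
  obtain ⟨r, hr, hr2⟩ := Metric.isOpen_iff.mp hopen x hx
  refine ⟨min r 1, lt_min hr one_pos, ?_⟩
  rintro i ⟨y, hy1, hy2⟩
  by_contra hcon
  have h1 : y ∈ ball x r := ball_subset_ball (min_le_left _ _) hy2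
  have h2 := hr2 h1
  rw [mem_iInter₂] at h2
  refine h2 i ⟨⟨y, hy1, ?_⟩, hcon⟩ hy1
  exact ball_subset_closedBall (ball_subset_ball (min_le_right _ _) hy2)

/-- the areas near `x` add up to the area of the disc -/
theorem local_area (x : ℂ) : ∃ r0 > 0, ∀ r, 0 < r → r < r0 →
    ∑ i ∈ (T.star_finite x).toFinset, volume.real (T.K i ∩ ball x r) = Real.pi * r ^ 2 := by
  obtain ⟨r0, hr0, h⟩ := T.local_star x
  refine ⟨r0, hr0, fun r h1 h2 => ?_⟩
  have hU : ⋃ i ∈ (T.star_finite x).toFinset, (T.K i ∩ ball x r) = ball x r := by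
    ext y
    simp only [mem_iUnion, exists_prop, Finite.mem_toFinset]
    constructor
    · rintro ⟨i, _, hi⟩
      exact hi.2
    · intro hy
      obtain ⟨i, hi⟩ := T.cover y
      exact ⟨i, h i ⟨y, hi, ball_subset_ball h2.le hy⟩, hi, hy⟩
  have h3 : volume (⋃ i ∈ (T.star_finite x).toFinset, (T.K i ∩ ball x r)) =
      ∑ i ∈ (T.star_finite x).toFinset, volume (T.K i ∩ ball x r) := by
    refine measure_biUnion_finset₀ ?_ ?_
    · intro i _ j _ hij
      refine measure_mono_null ?_ (T.inter_null hij)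
      rintro y ⟨a, b⟩
      exact ⟨a.1, b.1⟩
    · intro i _
      exact ((T.K_closed i).measurableSet.inter measurableSet_ball).nullMeasurableSet
  rw [hU] at h3
  rw [← ball_area h1.le, Measure.real, h3, ENNReal.toReal_sum]
  · rfl
  · intro i _
    exact (lt_of_le_of_lt (measure_mono inter_subset_right) measure_ball_lt_top).ne

/-- the angle of triangle `i` at its corner `m` -/
noncomputable def ang (i : ι) : Fin 3 → ℝ := (area_law (T.indep i)).choose

theorem ang_pos (i : ι) (m : Fin 3) : 0 < T.ang i m := (area_law (T.indep i)).choose_spec.1 m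

theorem ang_sum (i : ι) : T.ang i 0 + T.ang i 1 + T.ang i 2 = Real.pi := (area_law (T.indep i)).choose_spec.2.1

theorem ang_area (i : ι) : ∃ r0 > 0, ∀ m, ∀ r, 0 < r → r < r0 →
    volume.real (T.K i ∩ ball (T.p i m) r) = T.ang i m * r ^ 2 / 2 := (area_law (T.indep i)).choose_spec.2.2

theorem ang_lt (i : ι) (m : Fin 3) : T.ang i m < Real.pi := by
  have h := T.ang_sum i
  have h0 := T.ang_pos i 0
  have h1 := T.ang_pos i 1
  have h2 := T.ang_pos i 2
  fin_cases m <;> simp <;> linarith

end TriTiling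

end Pool.TC
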