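import Pool.Agent.Lib.MP_d47d4c_co.TC.Handshake
import Pool.Agent.Lib.MP_d47d4c_co.TC.Disc

set_option autoImplicit false

namespace Pool.TC

open Metric Set MeasureTheory

namespace TriTiling

variable {ι : Type} (T : TriTiling ι)

/-- Local theorem: with at most seven colours and a radius `ρ` such that no equally coloured triangles contain the centre `w`
and a point of the circle, or two points at distance `ρ` of the circle, the degree of `w`, if at least four, is four and a
vertex of odd degree has distance `< ρ`. -/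
theorem local_theorem {k : ℕ} (hk : k ≤ 7) {col : ι → Fin k}
    (htouch : ∀ i j, i ≠ j → (T.K i ∩ T.K j).Nonempty → col i ≠ col j) {w : ℂ} {ρ : ℝ} (hρ : 0 < ρ)
    (havoid : ∀ i j, col i = col j → ∀ x ∈ T.K i, ∀ y ∈ T.K j, dist x y = ρ → dist y w = ρ → ¬ (x = w ∨ dist x w = ρ))
    (hno : ∀ x, T.IsVertex x → dist x w ≠ ρ) (hdeg : 4 ≤ T.deg w) :
    T.deg w = 4 ∧ ∃ x, T.IsVertex x ∧ dist x w < ρ ∧ Odd (T.deg x) := by
  classical
  obtain ⟨S⟩ := exists_circleSampling T w hρ
  have hcolstar : InjOn col (T.star w) := by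
    intro i hi j hj hij
    by_contra hne
    exact htouch i j hne ⟨w, hi, hj⟩ hij
  set Γ : Finset (Fin k) := Finset.univ \ ((T.star_finite w).toFinset.image col) with hΓ
  have hcard : Γ.card + T.deg w = k := by
    have h1 : ((T.star_finite w).toFinset.image col).card = T.deg w := by
      rw [Finset.card_image_of_injOn (by
        intro i hi j hj h
        rw [Finset.mem_coe, Finite.mem_toFinset] at hi hj
        exact hcolstar hi hj h), deg, ncard_eq_toFinset_card _ (T.star_finite w)]
    have h2 := Finset.card_sdiff_add_card_eq_card (Finset.subset_univ ((T.star_finite w).toFinset.image col))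
    rw [h1, Finset.card_univ, Fintype.card_fin] at h2
    exact h2
  have hmemΓ : ∀ i θ, cp w ρ θ ∈ T.K i → col i ∈ Γ := by
    intro i θ hi
    rw [hΓ, Finset.mem_sdiff]
    refine ⟨Finset.mem_univ _, fun h => ?_⟩
    rw [Finset.mem_image] at h
    obtain ⟨j, hj, hji⟩ := h
    rw [Finite.mem_toFinset] at hj
    exact havoid j i hji w hj _ hi (by rw [dist_comm]; exact dist_cp w hρ θ) (dist_cp w hρ θ) (Or.inl rfl)
  have hshift : ∀ i j θ, cp w ρ θ ∈ T.K i → cp w ρ (θ + Real.pi / 3) ∈ T.K j → col i ≠ col j := by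
    intro i j θ hi hj h
    exact havoid i j h _ hi _ hj (dist_cp_shift w hρ θ) (dist_cp w hρ _) (Or.inr (dist_cp w hρ _))
  have hin : ∀ n, cp w ρ (S.t n) ∈ T.K (S.a n) := fun n => interior_subset (S.inside n)
  set g : ℤ → Fin k := fun n => col (S.a n) with hg
  have hgΓ : ∀ n, g n ∈ Γ := fun n => hmemΓ _ _ (hin n)
  have hgper : ∀ n, g (n + 6 * S.M) = g n := fun n => by rw [hg]; simp only [S.a_period]
  have hga : ∀ n, g (n + S.M) ≠ g n := by
    intro n h
    refine hshift (S.a n) (S.a (n + S.M)) (S.t n) (hin n) ?_ h.symm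
    rw [← S.t_shift]
    exact hin _
  have hchange : ∀ n, S.a (n + 1) ≠ S.a n → g (n + 1) ≠ g n := by
    intro n h
    obtain ⟨s, -, -, -, h1, h2⟩ := S.change_mem (fun h' => h h'.symm)
    exact htouch _ _ h ⟨_, h2, h1⟩
  have hcard3 : Γ.card ≤ 3 := by omega
  have hX : ∀ n, g (n + 1) ≠ g n → g (n + S.M + 1) = g (n + S.M) := by
    intro n h
    by_contra h'
    have ha1 : S.a n ≠ S.a (n + 1) := fun h0 => h (by rw [hg]; simp only [h0])
    have ha2 : S.a (n + S.M) ≠ S.a (n + S.M + 1) := fun h0 => h' (by rw [hg]; simp only [h0])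
    obtain ⟨s, s1, s2, s3, s4, s5⟩ := S.change_mem ha1
    obtain ⟨s', s1', s2', s3', s4', s5'⟩ := S.change_mem ha2
    have hs := S.shift n s s' s1 s2 s1' s2' s3 s3'
    rw [hs] at s4' s5'
    have n1 : g n ≠ g (n + S.M) := hshift _ _ s s4 s4'
    have n2 : g n ≠ g (n + S.M + 1) := hshift _ _ s s4 s5'
    have n3 : g (n + 1) ≠ g (n + S.M) := hshift _ _ s s5 s4'
    have n4 : g (n + 1) ≠ g (n + S.M + 1) := hshift _ _ s s5 s5'
    have h4 : ({g n, g (n + 1), g (n + S.M), g (n + S.M + 1)} : Finset (Fin k)) ⊆ Γ := by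
      intro c hc
      simp only [Finset.mem_insert, Finset.mem_singleton] at hc
      rcases hc with rfl | rfl | rfl | rfl <;> exact hgΓ _
    have h5 := Finset.card_le_card h4
    have h6 : ({g n, g (n + 1), g (n + S.M), g (n + S.M + 1)} : Finset (Fin k)).card = 4 := by
      rw [Finset.card_insert_of_notMem, Finset.card_insert_of_notMem, Finset.card_insert_of_notMem,
        Finset.card_singleton]
      · rw [Finset.mem_singleton]
        exact fun h0 => h' h0.symm
      · rw [Finset.mem_insert, Finset.mem_singleton]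
        rintro (h0 | h0)
        · exact n3 h0
        · exact n4 h0
      · rw [Finset.mem_insert, Finset.mem_insert, Finset.mem_singleton]
        rintro (h0 | h0 | h0)
        · exact h h0.symm
        · exact n1 h0
        · exact n2 h0
    omega
  have hdeg4 : T.deg w = 4 := by
    by_contra hne
    have hcard2 : Γ.card ≤ 2 := by omega
    exact disc2 Γ hcard2 S.M S.hM g hgΓ hga hX
  refine ⟨hdeg4, ?_⟩
  have hodd := disc3 Γ hcard3 S.M S.hM g hgΓ hgper hga hX
  have hfil : (Finset.range (6 * S.M)).filter (fun n : ℕ => g ((n : ℤ) + 1) ≠ g n) =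
      (Finset.range (6 * S.M)).filter (fun n : ℕ => S.a ((n : ℤ) + 1) ≠ S.a n) := by
    refine Finset.filter_congr fun n _ => ?_
    constructor
    · intro h h0
      exact h (by rw [hg]; simp only [h0])
    · exact hchange n
  rw [hfil] at hodd
  have hhs := S.handshake hρ hno
  by_contra hcon
  push Not at hcon
  have heven : Even (∑ x ∈ (T.vertex_ball_finite w ρ).toFinset, T.deg x) := by
    refine Finset.even_sum _ fun x hx => ?_
    rw [Finite.mem_toFinset] at hx
    exact Nat.not_odd_iff_even.mp (hcon x hx.1 hx.2)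
  rw [Nat.odd_iff] at hodd
  rw [Nat.even_iff] at heven
  omega

end TriTiling

end Pool.TC
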