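import Pool.Agent.Lib.MP_d47d4c_co.TC.VertexStruct

set_option autoImplicit false

namespace Pool.TC

open Metric Set MeasureTheory

namespace TriTiling

variable {ι : Type} (T : TriTiling ι)

/-- a set of pairwise close triangles has at most `k` members -/
theorem card_le_of_close {k : ℕ} {col : ι → Fin k}
    (hs : ∀ i j, i ≠ j → col i = col j → ∀ x ∈ T.K i, ∀ y ∈ T.K j, 1 ≤ dist x y) {s : Set ι}
    (h : ∀ i ∈ s, ∀ j ∈ s, i ≠ j → ∃ x ∈ T.K i, ∃ y ∈ T.K j, dist x y < 1) : s.ncard ≤ k := by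
  have hinj : InjOn col s := by
    intro i hi j hj hij
    by_contra hne
    obtain ⟨x, hx, y, hy, hxy⟩ := h i hi j hj hne
    exact absurd (hs i j hne hij x hx y hy) (not_le.mpr hxy)
  calc s.ncard = (col '' s).ncard := hinj.ncard_image.symm
    _ ≤ (univ : Set (Fin k)).ncard := ncard_le_ncard (subset_univ _) finite_univ
    _ = k := by rw [ncard_univ, Nat.card_eq_fintype_card, Fintype.card_fin]

/-- the points of the unit circle around `x` in triangles of the star of `x` -/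
theorem sphere_star_finite (hd : ∀ i, ∀ x ∈ T.K i, ∀ y ∈ T.K i, dist x y ≤ 1) (x : ℂ) :
    {z | dist z x = 1 ∧ ∃ i ∈ T.star x, z ∈ T.K i}.Finite := by
  have h : {z | dist z x = 1 ∧ ∃ i ∈ T.star x, z ∈ T.K i} ⊆
      (fun q : ι × Fin 3 => T.p q.1 q.2) '' ((T.star x) ×ˢ (univ : Set (Fin 3))) := by
    rintro z ⟨hz, i, hi, hzi⟩
    obtain ⟨m, hm⟩ := corner_of_dist_max hzi hz (fun y hy => hd i y hy x hi)
    exact ⟨(i, m), ⟨hi, mem_univ _⟩, hm⟩
  exact (((T.star_finite x).prod finite_univ).image _).subset h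

/-- small rotations avoid a finite set -/
theorem exists_rotation {x y : ℂ} (hxy : dist y x = 1) {F : Set ℂ} (hF : F.Finite) {δ : ℝ} (hδ : 0 < δ) (hδ1 : δ ≤ 1)
    (σ : ℝ) (hσ : σ = 1 ∨ σ = -1) :
    ∃ t, 0 < t ∧ t < δ ∧ x + (y - x) * Complex.exp ((σ * t : ℝ) * Complex.I) ∉ F := by
  by_contra hcon
  push Not at hcon
  have hinj : InjOn (fun t : ℝ => x + (y - x) * Complex.exp ((σ * t : ℝ) * Complex.I)) (Ioo 0 δ) := by
    intro t ht t' ht' h
    have hne : y - x ≠ 0 := by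
      intro h0
      rw [dist_eq_norm, h0, norm_zero] at hxy
      exact zero_ne_one hxy
    have h1 : Complex.exp ((σ * t : ℝ) * Complex.I) = Complex.exp ((σ * t' : ℝ) * Complex.I) :=
      mul_left_cancel₀ hne (add_left_cancel h)
    have hpi := Real.pi_gt_three
    have a : ∀ s : ℝ, s ∈ Ioo 0 δ → -Real.pi < σ * s ∧ σ * s ≤ Real.pi := by
      intro s hs
      rcases hσ with rfl | rfl
      · constructor <;> linarith [hs.1, hs.2]
      · constructor <;> linarith [hs.1, hs.2]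
    have h2 : ((σ * t : ℝ) : ℂ) * Complex.I = ((σ * t' : ℝ) : ℂ) * Complex.I := by
      refine Complex.exp_inj_of_neg_pi_lt_of_le_pi ?_ ?_ ?_ ?_ h1
      · simpa using (a t ht).1
      · simpa using (a t ht).2
      · simpa using (a t' ht').1
      · simpa using (a t' ht').2
    have h3 : σ * t = σ * t' := by
      have := mul_right_cancel₀ Complex.I_ne_zero h2
      exact_mod_cast this
    rcases hσ with rfl | rfl
    · linarith
    · linarith
  have hinf : (Ioo (0 : ℝ) δ).Infinite := Ioo_infinite hδ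
  have h1 : ((fun t : ℝ => x + (y - x) * Complex.exp ((σ * t : ℝ) * Complex.I)) '' (Ioo 0 δ)).Infinite := hinf.image hinj
  apply h1
  refine hF.subset ?_
  rintro z ⟨t, ht, rfl⟩
  exact hcon t ht.1 ht.2

theorem dist_rotation (x y : ℂ) (t : ℝ) : dist (x + (y - x) * Complex.exp (t * Complex.I)) x = dist y x := by
  rw [dist_eq_norm, dist_eq_norm, add_sub_cancel_left, norm_mul, Complex.norm_exp_ofReal_mul_I, mul_one]

theorem dist_rotation_self {x y : ℂ} (hxy : dist y x = 1) (t : ℝ) :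
    dist (x + (y - x) * Complex.exp (t * Complex.I)) y ≤ |t| := by
  have h1 : x + (y - x) * Complex.exp (t * Complex.I) - y = (y - x) * (Complex.exp (t * Complex.I) - 1) := by ring
  rw [dist_eq_norm] at hxy
  rw [dist_eq_norm, h1, norm_mul, hxy, one_mul]
  have := Real.norm_exp_I_mul_ofReal_sub_one_le (x := t)
  rw [mul_comm] at this
  simpa using this

/-- every point of the unit circle around `x` lies in a triangle outside the star of `x` that meets the open disc -/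
theorem circle_cover (hd : ∀ i, ∀ x ∈ T.K i, ∀ y ∈ T.K i, dist x y ≤ 1) (x : ℂ) {y : ℂ} (hy : dist y x = 1) :
    ∃ Q, Q ∉ T.star x ∧ y ∈ T.K Q ∧ (T.K Q ∩ ball x 1).Nonempty := by
  obtain ⟨r0, hr0, hloc⟩ := T.local_star y
  obtain ⟨t, ht0, htδ, htF⟩ := exists_rotation hy (T.sphere_star_finite hd x) (δ := min 1 r0) (lt_min one_pos hr0)
    (min_le_left _ _) 1 (Or.inl rfl)
  set y' : ℂ := x + (y - x) * Complex.exp ((1 * t : ℝ) * Complex.I) with hy'
  have h1 : dist y' x = 1 := by rw [hy', dist_rotation, hy]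
  have h2 : dist y' y < r0 := by
    have := dist_rotation_self hy (1 * t)
    rw [one_mul, abs_of_pos ht0] at this
    rw [hy', one_mul]
    exact lt_of_le_of_lt this (lt_of_lt_of_le htδ (min_le_right _ _))
  -- a point slightly inside
  obtain ⟨r1, hr1, hloc1⟩ := T.local_star y'
  set ε := min (r1 / 2) (1 / 2) with hε
  have hε0 : 0 < ε := lt_min (half_pos hr1) (by norm_num)
  set z : ℂ := y' + (ε : ℂ) * (x - y') with hz
  have hxy' : ‖x - y'‖ = 1 := by rw [← dist_eq_norm, dist_comm]; exact h1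
  have h3 : z ∈ ball y' r1 := by
    rw [mem_ball, dist_eq_norm, hz, add_sub_cancel_left, norm_mul, Complex.norm_real, Real.norm_eq_abs, abs_of_pos hε0,
      hxy', mul_one]
    exact lt_of_le_of_lt (min_le_left _ _) (half_lt_self hr1)
  have h4 : z ∈ ball x 1 := by
    have e : z - x = ((1 - ε : ℝ) : ℂ) * (y' - x) := by rw [hz]; push_cast; ring
    have hε1 : ε ≤ 1 / 2 := min_le_right _ _
    rw [mem_ball, dist_eq_norm, e, norm_mul, Complex.norm_real, Real.norm_eq_abs, abs_of_pos (by linarith), ← dist_eq_norm,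
      h1]
    linarith
  obtain ⟨Q, hQ⟩ := T.cover z
  have hQ1 : Q ∈ T.star y' := hloc1 Q ⟨z, hQ, h3⟩
  refine ⟨Q, ?_, ?_, ⟨z, hQ, h4⟩⟩
  · intro hQx
    exact htF ⟨h1, Q, hQx, hQ1⟩
  · exact hloc Q ⟨y', hQ1, h2⟩

theorem deg_add_two_le {k : ℕ} {col : ι → Fin k}
    (hs : ∀ i j, i ≠ j → col i = col j → ∀ x ∈ T.K i, ∀ y ∈ T.K j, 1 ≤ dist x y)
    (hd : ∀ i, ∀ x ∈ T.K i, ∀ y ∈ T.K i, dist x y ≤ 1) (x : ℂ) : T.deg x + 2 ≤ k := by
  classical
  set B : Set ι := {Q | Q ∉ T.star x ∧ (T.K Q ∩ sphere x 1).Nonempty ∧ (T.K Q ∩ ball x 1).Nonempty} with hB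
  have hBfin : B.Finite := by
    refine (T.near_finite x 1).subset ?_
    rintro Q ⟨_, ⟨y, hy1, hy2⟩, _⟩
    exact ⟨y, hy1, sphere_subset_closedBall hy2⟩
  have hcov : ∀ y ∈ sphere x 1, ∃ Q ∈ B, y ∈ T.K Q := by
    intro y hy
    obtain ⟨Q, h1, h2, h3⟩ := T.circle_cover hd x (mem_sphere.mp hy)
    exact ⟨Q, ⟨h1, ⟨y, h2, hy⟩, h3⟩, h2⟩
  have hconn : IsPreconnected (sphere x 1) := by
    apply isPreconnected_sphere
    rw [Complex.rank_real_complex]
    exact Nat.one_lt_ofNat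
  obtain ⟨Q, hQB, Q', hQB', hne, z, hzQ, hzQ'⟩ : ∃ Q ∈ B, ∃ Q' ∈ B, Q ≠ Q' ∧ ∃ z, z ∈ T.K Q ∧ z ∈ T.K Q' := by
    have hx1 : x + 1 ∈ sphere x 1 := by
      rw [mem_sphere, dist_eq_norm, add_sub_cancel_left, norm_one]
    have hx2 : x - 1 ∈ sphere x 1 := by
      rw [mem_sphere, dist_eq_norm, sub_sub_cancel_left, norm_neg, norm_one]
    obtain ⟨Q0, hQ0, hQ0'⟩ := hcov _ hx1
    obtain ⟨Q1, hQ1, hQ1'⟩ := hcov _ hx2
    have hQ01 : Q1 ≠ Q0 := by
      rintro rfl
      have := hd Q1 _ hQ0' _ hQ1'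
      rw [dist_eq_norm] at this
      have e : x + 1 - (x - 1) = 2 := by ring
      rw [e] at this
      norm_num at this
    have hV : IsClosed (⋃ Q ∈ B \ {Q0}, T.K Q) :=
      (hBfin.subset sdiff_subset).isClosed_biUnion fun Q _ => T.K_closed Q
    obtain ⟨z, hz1, hz2, hz3⟩ := isPreconnected_closed_iff.mp hconn (T.K Q0) (⋃ Q ∈ B \ {Q0}, T.K Q) (T.K_closed Q0) hV
      (by
        intro y hy
        obtain ⟨Q, hQ, hyQ⟩ := hcov y hy
        by_cases h : Q = Q0
        · left; rw [← h]; exact hyQ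
        · right
          exact mem_biUnion (show Q ∈ B \ {Q0} from ⟨hQ, h⟩) hyQ)
      ⟨_, hx1, hQ0'⟩ ⟨_, hx2, mem_biUnion (show Q1 ∈ B \ {Q0} from ⟨hQ1, hQ01⟩) hQ1'⟩
    rw [mem_iUnion₂] at hz3
    obtain ⟨Q, hQ, hzQ⟩ := hz3
    exact ⟨Q, hQ.1, Q0, hQ0, hQ.2, z, hzQ, hz2⟩
  have hcard := T.card_le_of_close hs (s := insert Q (insert Q' (T.star x))) (by
    have hxQ : ∀ P, P = Q ∨ P = Q' → ∀ i ∈ T.star x, ∃ a ∈ T.K P, ∃ b ∈ T.K i, dist a b < 1 := by
      intro P hP i hi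
      have hPB : P ∈ B := by
        rcases hP with rfl | rfl
        · exact hQB
        · exact hQB'
      obtain ⟨a, ha1, ha2⟩ := hPB.2.2
      exact ⟨a, ha1, x, hi, mem_ball.mp ha2⟩
    have hQQ : dist z z < 1 := by rw [dist_self]; exact one_pos
    have hxx : dist x x < 1 := by rw [dist_self]; exact one_pos
    intro i hi j hj hij
    rcases hi with rfl | rfl | hi
    · rcases hj with rfl | rfl | hj
      · exact absurd rfl hij
      · exact ⟨z, hzQ, z, hzQ', hQQ⟩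
      · exact hxQ _ (Or.inl rfl) j hj
    · rcases hj with rfl | rfl | hj
      · exact ⟨z, hzQ', z, hzQ, hQQ⟩
      · exact absurd rfl hij
      · exact hxQ _ (Or.inr rfl) j hj
    · rcases hj with rfl | rfl | hj
      · obtain ⟨a, ha, b, hb, hab⟩ := hxQ _ (Or.inl rfl) i hi
        exact ⟨b, hb, a, ha, by rwa [dist_comm]⟩
      · obtain ⟨a, ha, b, hb, hab⟩ := hxQ _ (Or.inr rfl) i hi
        exact ⟨b, hb, a, ha, by rwa [dist_comm]⟩
      · exact ⟨x, hi, x, hj, hxx⟩)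
  have h1 : Q' ∉ T.star x := hQB'.1
  have h2 : Q ∉ insert Q' (T.star x) := by
    rintro (h | h)
    · exact hne h
    · exact hQB.1 h
  rw [ncard_insert_of_notMem h2 ((T.star_finite x).insert _), ncard_insert_of_notMem h1 (T.star_finite x)] at hcard
  exact hcard

end TriTiling

end Pool.TC
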