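import Pool.Agent.Lib.MP_d47d4c_co.TC.SepStar

set_option autoImplicit false

namespace Pool.TC

open Metric Set MeasureTheory

/-- the two intersection points of the unit circles around `v` and `w` -/
theorem exists_circle_inter {v w : ℂ} (hvw : v ≠ w) (hd : dist v w < 1) (c : ℂ →ᵃ[ℝ] ℝ) (hv : c v = 0) (hw : c w = 1) :
    ∃ q : ℂ, dist q v = 1 ∧ dist q w = 1 ∧ 0 < c q := by
  set d := dist v w with hdd
  have hd0 : 0 < d := dist_pos.mpr hvw
  set h := Real.sqrt (1 - d ^ 2 / 4) with hh
  have hh2 : h ^ 2 = 1 - d ^ 2 / 4 := Real.sq_sqrt (by nlinarith)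
  set n : ℂ := Complex.I * (w - v) / d with hn
  have hnw : ‖w - v‖ = d := by rw [← dist_eq_norm, dist_comm]
  have key : ∀ s : ℝ, s ^ 2 = h ^ 2 → dist ((v + w) / 2 + s * n) v = 1 ∧ dist ((v + w) / 2 + s * n) w = 1 := by
    intro s hs
    have hdC : (d : ℂ) ≠ 0 := by exact_mod_cast hd0.ne'
    have e1 : (v + w) / 2 + s * n - v = (w - v) * ((1 / 2 : ℝ) + (s / d : ℝ) * Complex.I) := by
      rw [hn]; push_cast; field_simp; ring
    have e2 : (v + w) / 2 + s * n - w = (w - v) * ((-(1 / 2) : ℝ) + (s / d : ℝ) * Complex.I) := by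
      rw [hn]; push_cast; field_simp; ring
    have e3 : ∀ a : ℝ, a ^ 2 = 1 / 4 → ‖((a : ℝ) + (s / d : ℝ) * Complex.I : ℂ)‖ = 1 / d := by
      intro a ha
      have h1 : ‖((a : ℝ) + (s / d : ℝ) * Complex.I : ℂ)‖ ^ 2 = (1 / d) ^ 2 := by
        rw [Complex.sq_norm, Complex.normSq_add_mul_I, ha, div_pow, hs, hh2]
        field_simp
        ring
      exact (pow_left_inj₀ (norm_nonneg _) (by positivity) two_ne_zero).mp h1
    constructor
    · rw [dist_eq_norm, e1, norm_mul, hnw, e3 _ (by norm_num)]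
      field_simp
    · rw [dist_eq_norm, e2, norm_mul, hnw, e3 _ (by norm_num)]
      field_simp
  have hsum : c ((v + w) / 2 + h * n) + c ((v + w) / 2 + (-h : ℝ) * n) = 1 := by
    have hmid : c ((v + w) / 2) = 1 / 2 := by
      have e : (v + w) / 2 = AffineMap.lineMap v w (1 / 2 : ℝ) := by
        rw [AffineMap.lineMap_apply, vsub_eq_sub, vadd_eq_add, Complex.real_smul]
        push_cast
        ring
      rw [e, AffineMap.apply_lineMap, hv, hw, AffineMap.lineMap_apply]
      simp
    have h1 : ∀ y : ℂ, c ((v + w) / 2 + y) = c.linear y + 1 / 2 := by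
      intro y
      have := c.map_vadd ((v + w) / 2) y
      rw [vadd_eq_add, vadd_eq_add, hmid] at this
      rw [add_comm, this]
    rw [h1, h1]
    have h2 : ((-h : ℝ) : ℂ) * n = -((h : ℂ) * n) := by push_cast; ring
    rw [h2, map_neg]
    ring
  rcases lt_or_ge 0 (c ((v + w) / 2 + h * n)) with h1 | h1
  · exact ⟨_, (key h rfl).1, (key h rfl).2, h1⟩
  · refine ⟨(v + w) / 2 + (-h : ℝ) * n, (key (-h) (by ring)).1, (key (-h) (by ring)).2, by linarith⟩

/-- rotating an intersection point of the two circles around `w` towards `v` -/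
theorem exists_rotation_inside {v w q : ℂ} (hvw : v ≠ w) (hd : dist v w < 1) (hqv : dist q v = 1) (hqw : dist q w = 1) :
    ∃ σ : ℝ, (σ = 1 ∨ σ = -1) ∧ ∃ δ > 0, ∀ t, 0 < t → t < δ →
      dist (w + (q - w) * Complex.exp ((σ * t : ℝ) * Complex.I)) v < 1 := by
  set a : ℂ := (starRingEnd ℂ) (v - w) * (q - w) with ha
  have hd0 : 0 < dist v w := dist_pos.mpr hvw
  have hnq : ‖q - w‖ = 1 := by rw [← dist_eq_norm]; exact hqw
  have hnv : ‖v - w‖ = dist v w := (dist_eq_norm v w).symm
  have hexp : ∀ z : ℂ, ‖z - w‖ = 1 → (dist z v) ^ 2 = 1 + (dist v w) ^ 2 - 2 * ((starRingEnd ℂ) (v - w) * (z - w)).re := by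
    intro z hz
    have e : z - v = (z - w) - (v - w) := by ring
    rw [dist_eq_norm, e, ← hnv]
    have h1 : ‖(z - w) - (v - w)‖ ^ 2 = ‖z - w‖ ^ 2 + ‖v - w‖ ^ 2 - 2 * ((starRingEnd ℂ) (v - w) * (z - w)).re := by
      rw [Complex.sq_norm, Complex.sq_norm, Complex.sq_norm, Complex.normSq_sub]
      congr 2
      simp [Complex.mul_re]
      ring
    rw [h1, hz]
    ring
  have hare : a.re = (dist v w) ^ 2 / 2 := by
    have := hexp q hnq
    rw [hqv] at this
    rw [ha]
    linarith
  have hanorm : ‖a‖ = dist v w := by rw [ha, norm_mul, hnq, mul_one, Complex.norm_conj, hnv]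
  have haim : a.im ≠ 0 := by
    intro h0
    have h1 : ‖a‖ ^ 2 = a.re ^ 2 := by
      rw [Complex.sq_norm, Complex.normSq_apply, h0]
      ring
    rw [hanorm, hare] at h1
    nlinarith [mul_pos hd0 hd0, mul_self_lt_mul_self hd0.le hd]
  have hpos : 0 < |a.im| := abs_pos.mpr haim
  have hare0 : 0 < a.re := by rw [hare]; positivity
  obtain ⟨σ, hσ, hσ2⟩ : ∃ σ : ℝ, (σ = 1 ∨ σ = -1) ∧ -(σ * a.im) = |a.im| := by
    rcases lt_or_gt_of_ne haim with h | h
    · exact ⟨1, Or.inl rfl, by rw [abs_of_neg h]; ring⟩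
    · exact ⟨-1, Or.inr rfl, by rw [abs_of_pos h]; ring⟩
  refine ⟨σ, hσ, min 1 (|a.im| / a.re), lt_min one_pos (div_pos hpos hare0), fun t ht ht2 => ?_⟩
  have ht1 : t < 1 := lt_of_lt_of_le ht2 (min_le_left _ _)
  have ht3 : t * a.re < |a.im| := by
    have := lt_of_lt_of_le ht2 (min_le_right _ _)
    rwa [lt_div_iff₀ hare0] at this
  have hz : ‖w + (q - w) * Complex.exp ((σ * t : ℝ) * Complex.I) - w‖ = 1 := by
    rw [add_sub_cancel_left, norm_mul, hnq, one_mul, Complex.norm_exp_ofReal_mul_I]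
  have h1 := hexp _ hz
  rw [add_sub_cancel_left, ← mul_assoc, ← ha] at h1
  have h2 : (a * Complex.exp ((σ * t : ℝ) * Complex.I)).re = a.re * Real.cos (σ * t) - a.im * Real.sin (σ * t) := by
    have e1 : (Complex.exp ((σ * t : ℝ) * Complex.I)).re = Real.cos (σ * t) := Complex.exp_ofReal_mul_I_re _
    have e2 : (Complex.exp ((σ * t : ℝ) * Complex.I)).im = Real.sin (σ * t) := Complex.exp_ofReal_mul_I_im _
    rw [Complex.mul_re, e1, e2]
  have h3 : Real.cos (σ * t) = Real.cos t := by
    rcases hσ with rfl | rfl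
    · rw [one_mul]
    · rw [neg_one_mul, Real.cos_neg]
  have h4 : a.im * Real.sin (σ * t) = -(|a.im| * Real.sin t) := by
    rcases hσ with rfl | rfl
    · rw [one_mul, ← hσ2]; ring
    · rw [neg_one_mul, Real.sin_neg, ← hσ2]; ring
  have h5 : 1 - t ^ 2 / 2 ≤ Real.cos t := Real.one_sub_sq_div_two_le_cos
  have h6 : t / 2 ≤ Real.sin t := by
    have := Real.sin_gt_sub_cube ht
    nlinarith [mul_pos ht ht, mul_pos (mul_pos ht ht) ht]
  have h7 : a.re < a.re * Real.cos t + |a.im| * Real.sin t := by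
    have e1 : a.re * (1 - t ^ 2 / 2) ≤ a.re * Real.cos t := mul_le_mul_of_nonneg_left h5 hare0.le
    have e2 : |a.im| * (t / 2) ≤ |a.im| * Real.sin t := mul_le_mul_of_nonneg_left h6 hpos.le
    nlinarith
  have h8 : (dist (w + (q - w) * Complex.exp ((σ * t : ℝ) * Complex.I)) v) ^ 2 < 1 := by
    rw [h1, h2, h3, h4]
    rw [hare] at h7 ⊢
    linarith
  nlinarith [dist_nonneg (x := w + (q - w) * Complex.exp ((σ * t : ℝ) * Complex.I)) (y := v)]

namespace TriTiling

variable {ι : Type} (T : TriTiling ι)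

/-- If the vertex `v` is not a corner of the triangle `S`, then the opposite corner `w` satisfies
`deg v + deg w ≤ k` and has distance `< 1` from `v`. -/
theorem opposite {k : ℕ} {col : ι → Fin k}
    (hs : ∀ i j, i ≠ j → col i = col j → ∀ x ∈ T.K i, ∀ y ∈ T.K j, 1 ≤ dist x y)
    (hd : ∀ i, ∀ x ∈ T.K i, ∀ y ∈ T.K i, dist x y ≤ 1) {v : ℂ} (hv : T.IsVertex v) {S : ι} (hS : S ∈ T.wide v) :
    ∃ w, T.IsVertex w ∧ dist v w < 1 ∧ T.deg v + T.deg w ≤ k := by
  classical
  obtain ⟨hvS, hvc⟩ := hS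
  obtain ⟨b, hb, ht, hti⟩ := exists_bary (T.indep S)
  have hKS : T.K S = {z | ∀ m, 0 ≤ b.coord m z} := ht
  have hKSi : interior (T.K S) = {z | ∀ m, 0 < b.coord m z} := hti
  have hv' : ∀ m, 0 ≤ b.coord m v := by
    have := hvS
    rw [hKS] at this
    exact this
  obtain ⟨m0, hm0⟩ : ∃ m0, b.coord m0 v = 0 := by
    by_contra hcon
    push Not at hcon
    apply T.vertex_not_interior hv S
    rw [hKSi]
    exact fun m => lt_of_le_of_ne (hv' m) (Ne.symm (hcon m))
  set w : ℂ := T.p S m0 with hw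
  have hwS : w ∈ T.K S := T.corner_mem_K S m0
  have hcw : ∀ m, b.coord m w = if m = m0 then 1 else 0 := by
    intro m
    rw [hw, ← hb]
    split_ifs with h
    · rw [h, b.coord_apply_eq]
    · exact b.coord_apply_ne h
  -- the other coordinates of `v` are positive
  have hpos : ∀ m, m ≠ m0 → 0 < b.coord m v := by
    intro m hm
    refine lt_of_le_of_ne (hv' m) (fun h0 => ?_)
    obtain ⟨m2, hm2⟩ := fin3_third m m0 hm
    apply hvc m2
    have h1 : ∀ m', b.coord m' v = b.coord m' (T.p S m2) := by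
      intro m'
      by_cases hm' : m' = m2
      · subst hm'
        have hs1 := b.sum_coord_apply_eq_one v
        rw [Finset.sum_eq_single m'] at hs1
        · rw [hs1, ← hb, b.coord_apply_eq]
        · intro c _ hc
          rcases hm2 c hc with rfl | rfl
          · exact h0.symm
          · exact hm0
        · intro hc
          exact absurd (Finset.mem_univ _) hc
      · rcases hm2 m' hm' with rfl | rfl
        · rw [← h0, ← hb]
          exact (b.coord_apply_ne hm').symm
        · rw [hm0, ← hb]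
          exact (b.coord_apply_ne hm').symm
    have h2 := b.affineCombination_coord_eq_self v
    have h3 := b.affineCombination_coord_eq_self (T.p S m2)
    rw [← h2, ← h3]
    congr 1
    ext m'
    exact (h1 m').symm
  have hvw : v ≠ w := fun h => hvc m0 h.symm
  have hdvw : dist v w < 1 := by
    refine lt_of_le_of_ne (hd S v hvS w hwS) (fun h => ?_)
    obtain ⟨m, hm⟩ := corner_of_dist_max hvS h (fun y hy => hd S y hy w hwS)
    exact hvc m hm
  -- points on segments from `v` with positive `m0` coordinate are interior to `S` near `v`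
  have hseg : ∀ z : ℂ, 0 < b.coord m0 z → ∀ i, v ∈ T.K i → z ∈ T.K i → i = S := by
    intro z hz i hvi hzi
    -- choose a small parameter
    have hcont : ∀ m, Continuous (fun t : ℝ => b.coord m (AffineMap.lineMap v z t)) := by
      intro m
      exact ((b.coord m).continuous_of_finiteDimensional).comp (AffineMap.lineMap_continuous)
    have hval : ∀ m, (fun t : ℝ => b.coord m (AffineMap.lineMap v z t)) 0 = b.coord m v := by
      intro m
      simp
    have hex : ∀ m, m ≠ m0 → ∃ s : ℝ, 0 < s ∧ ∀ t : ℝ, |t| < s → 0 < b.coord m (AffineMap.lineMap v z t) := by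
      intro m hm
      have hop : IsOpen {t : ℝ | 0 < b.coord m (AffineMap.lineMap v z t)} := isOpen_lt continuous_const (hcont m)
      obtain ⟨s, hs1, hs2⟩ := Metric.isOpen_iff.mp hop 0 (by
        show 0 < b.coord m (AffineMap.lineMap v z (0 : ℝ))
        rw [AffineMap.lineMap_apply_zero]
        exact hpos m hm)
      refine ⟨s, hs1, fun t ht => hs2 ?_⟩
      rw [mem_ball, Real.dist_eq, sub_zero]
      exact ht
    have hex' : ∀ m, ∃ s : ℝ, 0 < s ∧ (m ≠ m0 → ∀ t : ℝ, |t| < s → 0 < b.coord m (AffineMap.lineMap v z t)) := by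
      intro m
      by_cases hm : m = m0
      · exact ⟨1, one_pos, fun h => absurd hm h⟩
      · obtain ⟨s, hs1, hs2⟩ := hex m hm
        exact ⟨s, hs1, fun _ => hs2⟩
    choose s hs1 hs2 using hex'
    obtain ⟨t, ht0, ht⟩ : ∃ t, 0 < t ∧ t < min (min 1 (s 0)) (min (s 1) (s 2)) :=
      exists_between (lt_min (lt_min one_pos (hs1 0)) (lt_min (hs1 1) (hs1 2)))
    have ht1 : t < 1 := lt_of_lt_of_le ht ((min_le_left _ _).trans (min_le_left _ _))
    have htm : ∀ m, |t| < s m := by
      intro m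
      rw [abs_of_pos ht0]
      have a1 := lt_of_lt_of_le ht ((min_le_left _ _).trans (min_le_right _ _))
      have a2 := lt_of_lt_of_le ht ((min_le_right _ _).trans (min_le_left _ _))
      have a3 := lt_of_lt_of_le ht ((min_le_right _ _).trans (min_le_right _ _))
      fin_cases m
      · exact a1
      · exact a2
      · exact a3
    have hint : AffineMap.lineMap v z t ∈ interior (T.K S) := by
      rw [hKSi]
      intro m
      by_cases hm : m = m0
      · rw [hm, AffineMap.apply_lineMap, hm0, AffineMap.lineMap_apply]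
        simp
        exact mul_pos ht0 hz
      · exact hs2 m hm t (htm m)
    have hmem : AffineMap.lineMap v z t ∈ T.K i := (T.K_convex i).lineMap_mem hvi hzi ⟨ht0.le, ht1.le⟩
    exact T.eq_of_interior hint hmem
  have hinter : ∀ i, i ∈ T.star v → i ∈ T.star w → i = S := fun i hi hj =>
    hseg w (by rw [hcw, if_pos rfl]; exact one_pos) i hi hj
  obtain ⟨q, hqv, hqw, hcq⟩ := exists_circle_inter hvw hdvw (b.coord m0) hm0 (by rw [hcw, if_pos rfl])
  have hqstar : ∀ i ∈ T.star v, q ∉ T.K i := by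
    intro i hi hqi
    have hiS := hseg q hcq i hi hqi
    subst hiS
    obtain ⟨m, hm⟩ := corner_of_dist_max hqi hqv (fun y hy => hd i y hy v hvS)
    by_cases hmm : m = m0
    · rw [hmm] at hm
      rw [← hm, ← hw, dist_self] at hqw
      exact zero_ne_one hqw
    · rw [← hm, ← hb, b.coord_apply_ne (Ne.symm hmm)] at hcq
      exact lt_irrefl _ hcq
  obtain ⟨r0, hr0, hloc⟩ := T.local_star q
  obtain ⟨σ, hσ, δ, hδ, hin⟩ := exists_rotation_inside hvw hdvw hqv hqw
  obtain ⟨t, ht0, htδ, htF⟩ := exists_rotation hqw (T.sphere_star_finite hd w) (δ := min 1 (min r0 δ))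
    (lt_min one_pos (lt_min hr0 hδ)) (min_le_left _ _) σ hσ
  set z : ℂ := w + (q - w) * Complex.exp ((σ * t : ℝ) * Complex.I) with hz
  have hzv : dist z v < 1 := hin t ht0 (lt_of_lt_of_le htδ ((min_le_right _ _).trans (min_le_right _ _)))
  have hzw : dist z w = 1 := by rw [hz, dist_rotation, hqw]
  have hzq : z ∈ ball q r0 := by
    have h1 := dist_rotation_self hqw (σ * t)
    rw [mem_ball]
    have h2 : |σ * t| = t := by
      rcases hσ with rfl | rfl
      · rw [one_mul, abs_of_pos ht0]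
      · rw [neg_one_mul, abs_neg, abs_of_pos ht0]
    rw [h2] at h1
    exact lt_of_le_of_lt h1 (lt_of_lt_of_le htδ ((min_le_right _ _).trans (min_le_left _ _)))
  have hznv : ∀ i ∈ T.star v, z ∉ T.K i := fun i hi hzi => hqstar i hi (hloc i ⟨z, hzi, hzq⟩)
  have hznw : ∀ i ∈ T.star w, z ∉ T.K i := fun i hi hzi => htF ⟨hzw, i, hi, hzi⟩
  -- move slightly inside
  obtain ⟨r1, hr1, hloc1⟩ := T.local_star z
  set ε := min (r1 / 2) (min (1 / 2) ((1 - dist z v) / 2)) with hε
  have hε0 : 0 < ε := lt_min (half_pos hr1) (lt_min (by norm_num) (by linarith))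
  set y : ℂ := z + (ε : ℂ) * (w - z) with hy
  have hwz : ‖w - z‖ = 1 := by rw [← dist_eq_norm, dist_comm]; exact hzw
  have hyz : dist y z = ε := by
    rw [dist_eq_norm, hy, add_sub_cancel_left, norm_mul, Complex.norm_real, Real.norm_eq_abs, abs_of_pos hε0, hwz, mul_one]
  have hyw : dist y w < 1 := by
    have e : y - w = ((1 - ε : ℝ) : ℂ) * (z - w) := by rw [hy]; push_cast; ring
    have hε1 : ε ≤ 1 / 2 := (min_le_right _ _).trans (min_le_left _ _)
    rw [dist_eq_norm, e, norm_mul, Complex.norm_real, Real.norm_eq_abs, abs_of_pos (by linarith), ← dist_eq_norm, hzw]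
    linarith
  have hyv : dist y v < 1 := by
    have hε1 : ε ≤ (1 - dist z v) / 2 := (min_le_right _ _).trans (min_le_right _ _)
    have := dist_triangle y z v
    rw [hyz] at this
    linarith
  obtain ⟨Q, hQ⟩ := T.cover y
  have hQz : z ∈ T.K Q := hloc1 Q ⟨y, hQ, by
    rw [mem_ball, hyz]
    exact lt_of_le_of_lt (min_le_left _ _) (half_lt_self hr1)⟩
  have hQv : Q ∉ T.star v := fun h => hznv Q h hQz
  have hQw : Q ∉ T.star w := fun h => hznw Q h hQz
  refine ⟨w, ⟨S, m0, rfl⟩, hdvw, ?_⟩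
  have hcard := T.card_le_of_close hs (s := insert Q (T.star v ∪ T.star w)) (by
    have hxQ : ∀ i ∈ T.star v ∪ T.star w, ∃ a ∈ T.K Q, ∃ b ∈ T.K i, dist a b < 1 := by
      rintro i (hi | hi)
      · exact ⟨y, hQ, v, hi, hyv⟩
      · exact ⟨y, hQ, w, hi, hyw⟩
    intro i hi j hj hij
    rcases hi with rfl | hi
    · rcases hj with rfl | hj
      · exact absurd rfl hij
      · exact hxQ j hj
    · rcases hj with rfl | hj
      · obtain ⟨a, ha, b, hb, hab⟩ := hxQ i hi
        exact ⟨b, hb, a, ha, by rwa [dist_comm]⟩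
      · rcases hi with hi | hi <;> rcases hj with hj | hj
        · exact ⟨v, hi, v, hj, by rw [dist_self]; exact one_pos⟩
        · exact ⟨v, hi, w, hj, hdvw⟩
        · exact ⟨w, hi, v, hj, by rwa [dist_comm]⟩
        · exact ⟨w, hi, w, hj, by rw [dist_self]; exact one_pos⟩)
  have h1 : Q ∉ T.star v ∪ T.star w := by
    rintro (h | h)
    · exact hQv h
    · exact hQw h
  rw [ncard_insert_of_notMem h1 ((T.star_finite v).union (T.star_finite w))] at hcard
  have h2 := ncard_union_add_ncard_inter (T.star v) (T.star w) (T.star_finite v) (T.star_finite w)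
  have h3 : T.star v ∩ T.star w ⊆ {S} := by
    rintro i ⟨hi, hj⟩
    exact hinter i hi hj
  have h4 : (T.star v ∩ T.star w).ncard ≤ 1 := by
    rw [← ncard_singleton S]
    exact ncard_le_ncard h3 (finite_singleton S)
  unfold deg
  omega

end TriTiling

end Pool.TC
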