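import Pool.Agent.Lib.MP_d47d4c_co.TC.Defs

set_option autoImplicit false

namespace Pool.TC

open Metric Set MeasureTheory

theorem tri_compact (p : Fin 3 → ℂ) : IsCompact (tri p) :=
  (Set.finite_range p).isCompact_convexHull ℝ

theorem tri_convex (p : Fin 3 → ℂ) : Convex ℝ (tri p) := convex_convexHull ℝ _

theorem corner_mem (p : Fin 3 → ℂ) (m : Fin 3) : p m ∈ tri p :=
  subset_convexHull ℝ _ (mem_range_self m)

/-- barycentric coordinates -/
theorem exists_bary {p : Fin 3 → ℂ} (h : AffineIndependent ℝ p) :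
    ∃ b : AffineBasis (Fin 3) ℝ ℂ, (⇑b = p) ∧ tri p = {z | ∀ m, 0 ≤ b.coord m z} ∧
      interior (tri p) = {z | ∀ m, 0 < b.coord m z} := by
  have ht : affineSpan ℝ (Set.range p) = ⊤ := by
    rw [h.affineSpan_eq_top_iff_card_eq_finrank_add_one, Complex.finrank_real_complex]
    rfl
  refine ⟨⟨p, h, ht⟩, rfl, ?_, ?_⟩
  · have := (⟨p, h, ht⟩ : AffineBasis (Fin 3) ℝ ℂ).convexHull_eq_nonneg_coord
    exact this
  · have := (⟨p, h, ht⟩ : AffineBasis (Fin 3) ℝ ℂ).interior_convexHull
    exact this

theorem tri_interior_nonempty {p : Fin 3 → ℂ} (h : AffineIndependent ℝ p) : (interior (tri p)).Nonempty := by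
  have ht : affineSpan ℝ (Set.range p) = ⊤ := by
    rw [h.affineSpan_eq_top_iff_card_eq_finrank_add_one, Complex.finrank_real_complex]
    rfl
  exact interior_convexHull_nonempty_iff_affineSpan_eq_top.mpr ht

theorem tri_closure_interior {p : Fin 3 → ℂ} (h : AffineIndependent ℝ p) : closure (interior (tri p)) = tri p := by
  rw [(tri_convex p).closure_interior_eq_closure_of_nonempty_interior (tri_interior_nonempty h)]
  exact (tri_compact p).isClosed.closure_eq

theorem tri_frontier_null (p : Fin 3 → ℂ) : volume (frontier (tri p)) = 0 :=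
  (tri_convex p).addHaar_frontier volume

/-- farthest points are corners -/
theorem exists_corner_dist_ge {p : Fin 3 → ℂ} {z : ℂ} (hz : z ∈ tri p) (x : ℂ) : ∃ m, dist z x ≤ dist (p m) x := by
  obtain ⟨_, ⟨m, rfl⟩, hm⟩ := convexHull_exists_dist_ge hz x
  exact ⟨m, hm⟩

/-- a corner is an extreme point -/
theorem corner_extreme {p : Fin 3 → ℂ} (h : AffineIndependent ℝ p) (m : Fin 3) {u v : ℂ} (hu : u ∈ tri p) (hv : v ∈ tri p)
    (huv : u ≠ v) : p m ∉ openSegment ℝ u v := by
  obtain ⟨b, hb, ht, -⟩ := exists_bary h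
  rw [ht] at hu hv
  rintro ⟨s, t, hs, htt, hst, he⟩
  have key : ∀ m', m' ≠ m → b.coord m' u = 0 ∧ b.coord m' v = 0 := by
    intro m' hm'
    have h1 : b.coord m' (p m) = 0 := by
      rw [← hb]
      exact b.coord_apply_ne hm'
    have h2 : b.coord m' (p m) = s * b.coord m' u + t * b.coord m' v := by
      rw [← he]
      have := Convex.combo_affine_apply (f := b.coord m') (x := u) (y := v) hst
      simpa [smul_eq_mul] using this
    have h3 := hu m'
    have h4 := hv m'
    constructor <;> nlinarith [mul_nonneg hs.le h3, mul_nonneg htt.le h4]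
  have key2 : ∀ w, (∀ m', m' ≠ m → b.coord m' w = 0) → w = p m := by
    intro w hw
    have h1 : ∀ m', b.coord m' w = b.coord m' (p m) := by
      intro m'
      by_cases hm' : m' = m
      · subst hm'
        have hs1 := b.sum_coord_apply_eq_one w
        rw [Finset.sum_eq_single m'] at hs1
        · rw [hs1, ← hb, b.coord_apply_eq]
        · intro c _ hc
          exact hw c hc
        · intro hc
          exact absurd (Finset.mem_univ _) hc
      · rw [hw m' hm', ← hb]
        exact (b.coord_apply_ne hm').symm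
    have h2 := b.affineCombination_coord_eq_self w
    have h3 := b.affineCombination_coord_eq_self (p m)
    rw [← h2, ← h3]
    congr 1
    ext m'
    exact h1 m'
  exact huv ((key2 u (fun m' hm' => (key m' hm').1)).trans (key2 v (fun m' hm' => (key m' hm').2)).symm)

/-- a point that is not a corner is the midpoint of a segment -/
theorem exists_seg {p : Fin 3 → ℂ} {z : ℂ} (hz : z ∈ tri p) (hc : ∀ m, p m ≠ z) :
    ∃ u : ℂ, u ≠ 0 ∧ z + u ∈ tri p ∧ z - u ∈ tri p := by
  have hne : z ∉ (tri p).extremePoints ℝ := by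
    intro hh
    obtain ⟨m, hm⟩ := extremePoints_convexHull_subset hh
    exact hc m hm
  rw [mem_extremePoints] at hne
  push Not at hne
  obtain ⟨x1, h1, x2, h2, ⟨a, b, ha, hb, hab, rfl⟩, hne2⟩ := hne hz
  have hx : x1 ≠ x2 := by
    rintro rfl
    have h3 : a • x1 + b • x1 = x1 := by rw [← add_smul, hab, one_smul]
    exact hne2 h3.symm h3.symm
  refine ⟨(min a b) • (x2 - x1), ?_, ?_, ?_⟩
  · exact smul_ne_zero (lt_min ha hb).ne' (sub_ne_zero.mpr hx.symm)
  · have : a • x1 + b • x2 + (min a b) • (x2 - x1) = (a - min a b) • x1 + (b + min a b) • x2 := by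
      module
    rw [this]
    exact tri_convex p h1 h2 (by linarith [min_le_left a b]) (by linarith [lt_min ha hb]) (by linarith)
  · have : a • x1 + b • x2 - (min a b) • (x2 - x1) = (a + min a b) • x1 + (b - min a b) • x2 := by
      module
    rw [this]
    exact tri_convex p h1 h2 (by linarith [lt_min ha hb]) (by linarith [min_le_right a b]) (by linarith)

/-- a point at maximal distance from a point is a corner -/
theorem corner_of_dist_max {p : Fin 3 → ℂ} {z x : ℂ} {r : ℝ} (hz : z ∈ tri p) (hr : dist z x = r)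
    (hmax : ∀ y ∈ tri p, dist y x ≤ r) : ∃ m, p m = z := by
  by_contra hcon
  push Not at hcon
  obtain ⟨u, hu, h1, h2⟩ := exists_seg hz hcon
  have h3 := hmax _ h1
  have h4 := hmax _ h2
  rw [dist_eq_norm] at h3 h4 hr
  have h5 := parallelogram_law_with_norm ℝ (z - x) u
  have e1 : z + u - x = z - x + u := by ring
  have e2 : z - u - x = z - x - u := by ring
  rw [e1] at h3
  rw [e2] at h4
  rw [hr] at h5
  have hu' : 0 < ‖u‖ := norm_pos_iff.mpr hu
  nlinarith [norm_nonneg (z - x + u), norm_nonneg (z - x - u), mul_pos hu' hu']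

/-- Two convex sets (closures of their interiors) with a pair of points at distance `< ρ` and a pair at distance `> ρ` have
interior points at distance exactly `ρ`. -/
theorem exists_interior_dist_eq {A B : Set ℂ} (hA : Convex ℝ A) (hB : Convex ℝ B) (hA' : A ⊆ closure (interior A))
    (hB' : B ⊆ closure (interior B)) {ρ : ℝ} (h1 : ∃ x ∈ A, ∃ y ∈ B, dist x y < ρ) (h2 : ∃ x ∈ A, ∃ y ∈ B, ρ < dist x y) :
    ∃ x ∈ interior A, ∃ y ∈ interior B, dist x y = ρ := by
  have hS : IsPreconnected (interior A ×ˢ interior B) := (hA.interior.prod hB.interior).isPreconnected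
  have hcont : Continuous (fun q : ℂ × ℂ => dist q.1 q.2) := continuous_dist
  have hcl : ∀ x ∈ A, ∀ y ∈ B, (x, y) ∈ closure (interior A ×ˢ interior B) := by
    intro x hx y hy
    rw [closure_prod_eq]
    exact ⟨hA' hx, hB' hy⟩
  obtain ⟨x, hx, y, hy, hxy⟩ := h1
  obtain ⟨x', hx', y', hy', hxy'⟩ := h2
  obtain ⟨q, hq1, hq2⟩ := mem_closure_iff.mp (hcl x hx y hy) {q | dist q.1 q.2 < ρ} (isOpen_lt hcont continuous_const) hxy
  obtain ⟨q', hq1', hq2'⟩ := mem_closure_iff.mp (hcl x' hx' y' hy') {q | ρ < dist q.1 q.2}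
    (isOpen_lt continuous_const hcont) hxy'
  obtain ⟨⟨a, b⟩, hab, he⟩ := hS.intermediate_value hq2 hq2' hcont.continuousOn (show ρ ∈ Icc _ _ from ⟨le_of_lt hq1, le_of_lt hq1'⟩)
  exact ⟨a, hab.1, b, hab.2, he⟩

end Pool.TC
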