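import Pool.Agent.Lib.MP_d47d4c_co.TC.Local

set_option autoImplicit false

namespace Pool.TC

open Metric Set MeasureTheory

namespace TriTiling

variable {ι : Type} (T : TriTiling ι)

theorem corn_finite (x : ℂ) : (T.corn x).Finite := by
  have : T.corn x ⊆ (T.star x) ×ˢ (univ : Set (Fin 3)) := by
    rintro ⟨i, m⟩ h
    refine ⟨?_, mem_univ _⟩
    have h' : T.p i m = x := h
    show x ∈ T.K i
    rw [← h']
    exact T.corner_mem_K i m
  exact ((T.star_finite x).prod finite_univ).subset this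

theorem wide_finite (x : ℂ) : (T.wide x).Finite := (T.star_finite x).subset fun _ hi => hi.1

theorem corner_not_interior (i : ι) (m : Fin 3) : T.p i m ∉ interior (T.K i) := by
  intro h
  obtain ⟨r, hr, hr2⟩ := Metric.isOpen_iff.mp isOpen_interior _ h
  have h1 : T.p i m + (r / 2 : ℝ) ∈ T.K i := by
    apply interior_subset
    apply hr2
    rw [mem_ball, dist_eq_norm, add_sub_cancel_left, Complex.norm_real, Real.norm_eq_abs, abs_of_pos (half_pos hr)]
    linarith
  have h2 : T.p i m - (r / 2 : ℝ) ∈ T.K i := by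
    apply interior_subset
    apply hr2
    rw [mem_ball, dist_eq_norm, sub_sub_cancel_left, norm_neg, Complex.norm_real, Real.norm_eq_abs, abs_of_pos (half_pos hr)]
    linarith
  refine corner_extreme (T.indep i) m h1 h2 ?_ ?_
  · intro h3
    have : ((r / 2 : ℝ) : ℂ) = 0 := by linear_combination (1 / 2 : ℂ) * h3
    rw [Complex.ofReal_eq_zero] at this
    linarith
  · refine ⟨1 / 2, 1 / 2, by norm_num, by norm_num, by norm_num, ?_⟩
    rw [Complex.real_smul, Complex.real_smul]
    push_cast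
    ring

theorem vertex_not_interior {x : ℂ} (hx : T.IsVertex x) (i : ι) : x ∉ interior (T.K i) := by
  obtain ⟨j, m, rfl⟩ := hx
  intro h
  have := T.eq_of_interior h (T.corner_mem_K j m)
  subst this
  exact T.corner_not_interior j m h

theorem star_eq (x : ℂ) : T.star x = T.wide x ∪ Prod.fst '' (T.corn x) := by
  ext i
  constructor
  · intro hi
    by_cases h : ∃ m, T.p i m = x
    · obtain ⟨m, hm⟩ := h
      exact Or.inr ⟨(i, m), hm, rfl⟩
    · push Not at h
      exact Or.inl ⟨hi, h⟩
  · rintro (h | ⟨⟨j, m⟩, h, rfl⟩)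
    · exact h.1
    · have h' : T.p j m = x := h
      show x ∈ T.K j
      rw [← h']
      exact T.corner_mem_K j m

theorem fst_injOn (x : ℂ) : InjOn Prod.fst (T.corn x) := by
  rintro ⟨i, m⟩ h ⟨j, m'⟩ h' (rfl : i = j)
  have h1 : T.p i m = x := h
  have h2 : T.p i m' = x := h'
  rw [T.p_injective i (h1.trans h2.symm)]

theorem wide_disjoint (x : ℂ) : Disjoint (T.wide x) (Prod.fst '' (T.corn x)) := by
  rw [Set.disjoint_left]
  rintro i hi ⟨⟨j, m⟩, h, rfl⟩
  exact hi.2 m h

theorem deg_eq (x : ℂ) : T.deg x = (T.wide x).ncard + (T.corn x).ncard := by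
  rw [deg, T.star_eq x, ncard_union_eq (T.wide_disjoint x) (T.wide_finite x) ((T.corn_finite x).image _),
    (T.fst_injOn x).ncard_image]

/-- a common radius for finitely many local laws -/
theorem exists_common_radius {α : Type} (s : Finset α) (P : α → ℝ → Prop)
    (h : ∀ a ∈ s, ∃ r0 > 0, ∀ r, 0 < r → r < r0 → P a r) : ∃ r0 > 0, ∀ r, 0 < r → r < r0 → ∀ a ∈ s, P a r := by
  classical
  induction s using Finset.induction_on with
  | empty => exact ⟨1, one_pos, fun r _ _ a ha => absurd ha (Finset.notMem_empty a)⟩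
  | insert a s _ ih =>
    obtain ⟨r1, hr1, h1⟩ := ih fun b hb => h b (Finset.mem_insert_of_mem hb)
    obtain ⟨r2, hr2, h2⟩ := h a (Finset.mem_insert_self a s)
    refine ⟨min r1 r2, lt_min hr1 hr2, fun r hr hrr b hb => ?_⟩
    rcases Finset.mem_insert.mp hb with rfl | hb
    · exact h2 r hr (lt_of_lt_of_le hrr (min_le_right _ _))
    · exact h1 r hr (lt_of_lt_of_le hrr (min_le_left _ _)) b hb

/-- the angles at a point which is not interior to a triangle -/
theorem angle_sum {x : ℂ} (hx : ∀ i, x ∉ interior (T.K i)) :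
    ∑ q ∈ (T.corn_finite x).toFinset, T.ang q.1 q.2 = 2 * Real.pi - Real.pi * (T.wide x).ncard := by
  classical
  obtain ⟨r1, hr1, h1⟩ := T.local_area x
  obtain ⟨r2, hr2, h2⟩ := exists_common_radius (T.wide_finite x).toFinset
    (fun i r => volume.real (T.K i ∩ ball x r) = Real.pi * r ^ 2 / 2) (by
      intro i hi
      rw [Finite.mem_toFinset] at hi
      exact half_law (T.indep i) hi.1 (hx i) hi.2)
  obtain ⟨r3, hr3, h3⟩ := exists_common_radius (T.corn_finite x).toFinset
    (fun q r => volume.real (T.K q.1 ∩ ball x r) = T.ang q.1 q.2 * r ^ 2 / 2) (by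
      intro q hq
      rw [Finite.mem_toFinset] at hq
      have hq' : T.p q.1 q.2 = x := hq
      obtain ⟨r0, hr0, h⟩ := T.ang_area q.1
      refine ⟨r0, hr0, fun r hr hrr => ?_⟩
      rw [← hq']
      exact h q.2 r hr hrr)
  obtain ⟨r, hr, hrr⟩ : ∃ r, 0 < r ∧ r < min r1 (min r2 r3) := exists_between (lt_min hr1 (lt_min hr2 hr3))
  have e1 := h1 r hr (lt_of_lt_of_le hrr (min_le_left _ _))
  have e2 := h2 r hr (lt_of_lt_of_le hrr ((min_le_right _ _).trans (min_le_left _ _)))
  have e3 := h3 r hr (lt_of_lt_of_le hrr ((min_le_right _ _).trans (min_le_right _ _)))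
  have hs : (T.star_finite x).toFinset = (T.wide_finite x).toFinset ∪ ((T.corn_finite x).toFinset).image Prod.fst := by
    ext i
    have := congrArg (fun S => i ∈ S) (T.star_eq x)
    simp only [Finset.mem_union, Finite.mem_toFinset, Finset.mem_image]
    rw [eq_iff_iff] at this
    exact this
  have hd : Disjoint (T.wide_finite x).toFinset (((T.corn_finite x).toFinset).image Prod.fst) := by
    rw [Finset.disjoint_left]
    intro i hi hi2
    rw [Finite.mem_toFinset] at hi
    rw [Finset.mem_image] at hi2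
    obtain ⟨q, hq, rfl⟩ := hi2
    rw [Finite.mem_toFinset] at hq
    exact hi.2 q.2 hq
  rw [hs, Finset.sum_union hd, Finset.sum_image (by
    intro q hq q' hq' h
    rw [Finset.mem_coe, Finite.mem_toFinset] at hq hq'
    exact T.fst_injOn x hq hq' h), Finset.sum_congr rfl e2, Finset.sum_congr rfl e3, Finset.sum_const,
    ← ncard_eq_toFinset_card _ (T.wide_finite x), nsmul_eq_mul] at e1
  have e4 : ∑ q ∈ (T.corn_finite x).toFinset, T.ang q.1 q.2 * r ^ 2 / 2 =
      (∑ q ∈ (T.corn_finite x).toFinset, T.ang q.1 q.2) * (r ^ 2 / 2) := by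
    rw [Finset.sum_mul]
    exact Finset.sum_congr rfl fun q _ => by ring
  rw [e4] at e1
  have hr2 : 0 < r ^ 2 / 2 := by positivity
  have e5 : (∑ q ∈ (T.corn_finite x).toFinset, T.ang q.1 q.2) * (r ^ 2 / 2) =
      (2 * Real.pi - Real.pi * (T.wide x).ncard) * (r ^ 2 / 2) := by
    linarith
  exact mul_right_cancel₀ hr2.ne' e5

theorem corn_nonempty {x : ℂ} (hx : T.IsVertex x) : (T.corn x).Nonempty := by
  obtain ⟨i, m, h⟩ := hx
  exact ⟨(i, m), h⟩

theorem wide_le_one {x : ℂ} (hx : T.IsVertex x) : (T.wide x).ncard ≤ 1 := by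
  have h := T.angle_sum (T.vertex_not_interior hx)
  have h2 : 0 < ∑ q ∈ (T.corn_finite x).toFinset, T.ang q.1 q.2 := by
    refine Finset.sum_pos (fun q _ => T.ang_pos _ _) ?_
    obtain ⟨q, hq⟩ := T.corn_nonempty hx
    exact ⟨q, (Finite.mem_toFinset _).mpr hq⟩
  rw [h] at h2
  have h3 : ((T.wide x).ncard : ℝ) < 2 := by
    by_contra hcon
    push Not at hcon
    nlinarith [Real.pi_pos]
  have : (T.wide x).ncard < 2 := by exact_mod_cast h3
  omega

theorem three_le_deg {x : ℂ} (hx : T.IsVertex x) : 3 ≤ T.deg x := by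
  have h := T.angle_sum (T.vertex_not_interior hx)
  have h1 := T.wide_le_one hx
  have h2 : ∑ q ∈ (T.corn_finite x).toFinset, T.ang q.1 q.2 < ∑ q ∈ (T.corn_finite x).toFinset, Real.pi := by
    refine Finset.sum_lt_sum_of_nonempty ?_ (fun q _ => T.ang_lt _ _)
    obtain ⟨q, hq⟩ := T.corn_nonempty hx
    exact ⟨q, (Finite.mem_toFinset _).mpr hq⟩
  rw [h, Finset.sum_const, ← ncard_eq_toFinset_card _ (T.corn_finite x), nsmul_eq_mul] at h2
  have h3 : (2 : ℝ) < (T.wide x).ncard + (T.corn x).ncard := by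
    by_contra hcon
    push Not at hcon
    nlinarith [Real.pi_pos]
  rw [T.deg_eq]
  exact_mod_cast h3

/-- a common point of two triangles which is a corner of neither lies in no other triangle and is not a vertex -/
theorem star_of_two {x : ℂ} {i j : ι} (hij : i ≠ j) (hi : x ∈ T.K i) (hj : x ∈ T.K j) (hci : ∀ m, T.p i m ≠ x)
    (hcj : ∀ m, T.p j m ≠ x) : T.star x = {i, j} ∧ ¬ T.IsVertex x := by
  classical
  have hni : ∀ l, x ∉ interior (T.K l) := by
    intro l hl
    exact hij ((T.eq_of_interior hl hi).trans (T.eq_of_interior hl hj).symm)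
  have hw : ({i, j} : Set ι) ⊆ T.wide x := by
    rintro l (rfl | rfl)
    · exact ⟨hi, hci⟩
    · exact ⟨hj, hcj⟩
  have hw2 : 2 ≤ (T.wide x).ncard := by
    rw [← ncard_pair hij]
    exact ncard_le_ncard hw (T.wide_finite x)
  have h := T.angle_sum hni
  have hnv : ¬ T.IsVertex x := by
    intro hv
    have := T.wide_le_one hv
    omega
  have hc0 : T.corn x = ∅ := by
    by_contra hcon
    obtain ⟨⟨l, m⟩, hq⟩ := nonempty_iff_ne_empty.mpr hcon
    exact hnv ⟨l, m, hq⟩
  have hw3 : (T.wide x).ncard = 2 := by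
    have h0 : ∑ q ∈ (T.corn_finite x).toFinset, T.ang q.1 q.2 = 0 := by
      apply Finset.sum_eq_zero
      intro q hq
      rw [Finite.mem_toFinset, hc0] at hq
      exact absurd hq (notMem_empty q)
    rw [h0] at h
    have h3 : ((T.wide x).ncard : ℝ) = 2 := by
      have := Real.pi_pos
      have h4 : Real.pi * ((T.wide x).ncard : ℝ) = Real.pi * 2 := by linarith
      exact mul_left_cancel₀ this.ne' h4
    exact_mod_cast h3
  refine ⟨?_, hnv⟩
  rw [T.star_eq x, hc0, image_empty, union_empty]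
  exact (eq_of_subset_of_ncard_le hw (by rw [hw3, ncard_pair hij]) (T.wide_finite x)).symm

/-- a boundary point which is not a vertex lies in exactly two triangles -/
theorem deg_eq_two {x : ℂ} (hx : ¬ T.IsVertex x) (hi : ∀ i, x ∉ interior (T.K i)) : T.deg x = 2 := by
  have h := T.angle_sum hi
  have hc0 : T.corn x = ∅ := by
    by_contra hcon
    obtain ⟨⟨l, m⟩, hq⟩ := nonempty_iff_ne_empty.mpr hcon
    exact hx ⟨l, m, hq⟩
  have h0 : ∑ q ∈ (T.corn_finite x).toFinset, T.ang q.1 q.2 = 0 := by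
    apply Finset.sum_eq_zero
    intro q hq
    rw [Finite.mem_toFinset, hc0] at hq
    exact absurd hq (notMem_empty q)
  rw [h0] at h
  have h3 : ((T.wide x).ncard : ℝ) = 2 := by
    have := Real.pi_pos
    have h4 : Real.pi * ((T.wide x).ncard : ℝ) = Real.pi * 2 := by linarith
    exact mul_left_cancel₀ this.ne' h4
  rw [T.deg_eq, hc0, ncard_empty]
  exact_mod_cast h3

end TriTiling

end Pool.TC
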